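import Pool.Agent.TH949.RES.PGL

/-! Families of spherical cusp forms on `PGL_n` over `ℚ`. -/

set_option autoImplicit false

namespace Pool.Agent.E8helper16.RF

open Pool.Agent.TH949.RES (SphericalCuspForm)

variable {n : ℕ}

/-- `log L(s, π × π'~) = ∑_p ∑_{k ≥ 1} (∑_i α_{i,p}^k) conj(∑_i α'_{i,p}^k) / (k p^{ks})`; the pair `(p, k)` stands for
the exponent `k + 1` -/
noncomputable def logL2 (α α' : Nat.Primes → Fin n → ℂ) (s : ℂ) : ℂ :=
  ∑' x : Nat.Primes × ℕ, (∑ i, α x.1 i ^ (x.2 + 1)) * (starRingEnd ℂ) (∑ i, α' x.1 i ^ (x.2 + 1)) /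
    ((x.2 : ℂ) + 1) * (((x.1 : ℕ) : ℂ) ^ (-s)) ^ (x.2 + 1)

/-- The properties of the Rankin-Selberg `L`-function `L(s, π × π'~)` of two different forms with Satake parameters
`α`, `α'` and Langlands parameters `μ`, `μ'`: it is entire, of polynomial growth in vertical strips, and
`Ξ(s) = L(s, π × π'~) ∏ Γ_ℝ(s + μ_i - μ'_j)` is entire and satisfies the functional equation, with a root number `w`
of absolute value `1`. -/
structure RankinSelberg (α : Nat.Primes → Fin n → ℂ) (μ : Fin n → ℂ) (α' : Nat.Primes → Fin n → ℂ) (μ' : Fin n → ℂ) :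
    Prop where
  /-- continuation and functional equation -/
  continuation : ∃ (G Ξ : ℂ → ℂ) (w : ℂ), Differentiable ℂ G ∧ Differentiable ℂ Ξ ∧ ‖w‖ = 1 ∧
    (∀ s : ℂ, 1 < s.re → G s = Complex.exp (logL2 α α' s)) ∧
    (∀ a b : ℝ, ∃ C A : ℝ, ∀ s : ℂ, a ≤ s.re → s.re ≤ b → ‖G s‖ ≤ C * (1 + |s.im|) ^ A) ∧
    (∀ s : ℂ, 1 < s.re → Ξ s = G s * ∏ i, ∏ j, Complex.Gammaℝ (s + (μ i - μ' j))) ∧
    ∀ s : ℂ, Ξ (1 - s) = w * (starRingEnd ℂ) (Ξ ((starRingEnd ℂ) s))

/-- A family of pairwise different spherical cusp forms on `PGL_n` over `ℚ` (Satake parameters `α φ`, Langlands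
parameters `μ φ` at the real place). -/
structure Family {ι : Type*} (α : ι → Nat.Primes → Fin n → ℂ) (μ : ι → Fin n → ℂ) : Prop where
  /-- all members are spherical cusp forms -/
  form : ∀ φ, SphericalCuspForm (α φ) (μ φ)
  /-- the bound of Jacquet and Shalika at the primes -/
  local_bound : ∀ φ (p : Nat.Primes) i, ‖α φ p i‖ < ((p : ℕ) : ℝ) ^ (1 / 2 : ℝ)
  /-- the bound of Jacquet and Shalika at the real place -/
  real_bound : ∀ φ i, |(μ φ i).re| < 1 / 2
  /-- the members are pairwise different -/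
  pair : ∀ φ φ', φ ≠ φ' → RankinSelberg (α φ) (μ φ) (α φ') (μ φ')

end Pool.Agent.E8helper16.RF
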