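import Pool.Agent.E8helper16.RF.P2

/-! A lower bound for the quadratic form of an Euler factor by complete homogeneous sums. -/

set_option autoImplicit false

namespace Pool.Agent.E8helper16.RF

open MeasureTheory Complex Filter Topology
open scoped ComplexConjugate BigOperators

variable {ι : Type*} [Fintype ι] {J : Type*}

/-- quadratic form of a matrix -/
noncomputable def QF (K : ι → ι → ℂ) (a : ι → ℂ) : ℂ := ∑ φ, ∑ φ', a φ * conj (a φ') * K φ φ'

theorem Low.add {w w' : ℝ} {z z' : ℂ} (h : Low w z) (h' : Low w' z') : Low (w + w') (z + z') := by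
  obtain ⟨r, h1, h2⟩ := h
  obtain ⟨r', h1', h2'⟩ := h'
  refine ⟨r + r', add_le_add h1 h1', ?_⟩
  rw [h2, h2']
  push_cast
  rfl

theorem Low.sum {Y : Type*} (s : Finset Y) {w : Y → ℝ} {z : Y → ℂ} (h : ∀ i ∈ s, Low (w i) (z i)) :
    Low (∑ i ∈ s, w i) (∑ i ∈ s, z i) := by
  classical
  induction s using Finset.induction_on with
  | empty => exact ⟨0, by simp, by simp⟩
  | insert i s hi ih =>
    rw [Finset.sum_insert hi, Finset.sum_insert hi]
    exact (h i (Finset.mem_insert_self _ _)).add (ih fun j hj => h j (Finset.mem_insert_of_mem hj))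

/-- the covariance inequality -/
theorem cov {K : ι → ι → ℂ} {w : ℝ} (hw : 0 ≤ w) (hK : ∀ a : ι → ℂ, Low (w * ‖∑ φ, a φ‖ ^ 2) (QF K a))
    {P h : ℕ → ι → ℂ} {A : ℕ → ι → ι → ℂ} (h0 : ∀ φ, h 0 φ = 1) (A0 : ∀ φ φ', A 0 φ φ' = 1)
    (hrec : ∀ (k : ℕ) φ, ((k : ℂ) + 1) * h (k + 1) φ = ∑ j ∈ Finset.range (k + 1), P j φ * h (k - j) φ)
    (Arec : ∀ (k : ℕ) φ φ', ((k : ℂ) + 1) * A (k + 1) φ φ' =
      ∑ j ∈ Finset.range (k + 1), (P j φ * conj (P j φ')) * A (k - j) φ φ') (k : ℕ) :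
    ∀ a : ι → ℂ, Low (w * ‖∑ φ, a φ * h k φ‖ ^ 2) (QF (fun φ φ' => A k φ φ' * K φ φ') a) := by
  induction k using Nat.strong_induction_on with
  | _ k ih =>
    intro a
    rcases k with _ | k
    · simp only [h0, A0, mul_one, one_mul]
      exact hK a
    · have hk1 : ((k : ℂ) + 1) ≠ 0 := by exact_mod_cast Nat.succ_ne_zero k
      have hk2 : (0 : ℝ) < (k : ℝ) + 1 := by positivity
      have e1 : QF (fun φ φ' => A (k + 1) φ φ' * K φ φ') a = (((1 / ((k : ℝ) + 1) : ℝ)) : ℂ) *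
          ∑ j ∈ Finset.range (k + 1), QF (fun φ φ' => A (k - j) φ φ' * K φ φ') (fun φ => a φ * P j φ) := by
        have e3 : ∑ j ∈ Finset.range (k + 1), QF (fun φ φ' => A (k - j) φ φ' * K φ φ') (fun φ => a φ * P j φ) =
            ∑ φ, ∑ φ', ∑ j ∈ Finset.range (k + 1),
              a φ * P j φ * conj (a φ' * P j φ') * (A (k - j) φ φ' * K φ φ') := by
          unfold QF
          rw [Finset.sum_comm]
          refine Finset.sum_congr rfl fun φ _ => ?_
          rw [Finset.sum_comm]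
        rw [e3]
        unfold QF
        rw [Finset.mul_sum]
        refine Finset.sum_congr rfl fun φ _ => ?_
        rw [Finset.mul_sum]
        refine Finset.sum_congr rfl fun φ' _ => ?_
        have e2 : A (k + 1) φ φ' = (((1 / ((k : ℝ) + 1) : ℝ)) : ℂ) *
            ∑ j ∈ Finset.range (k + 1), (P j φ * conj (P j φ')) * A (k - j) φ φ' := by
          rw [← Arec]
          push_cast
          field_simp
        beta_reduce
        rw [e2, Finset.mul_sum, Finset.mul_sum, Finset.sum_mul, Finset.mul_sum]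
        refine Finset.sum_congr rfl fun j _ => ?_
        rw [map_mul]
        ring
      rw [e1]
      have h3 : Low (∑ j ∈ Finset.range (k + 1), w * ‖∑ φ, a φ * P j φ * h (k - j) φ‖ ^ 2)
          (∑ j ∈ Finset.range (k + 1), QF (fun φ φ' => A (k - j) φ φ' * K φ φ') (fun φ => a φ * P j φ)) :=
        Low.sum _ fun j hj => ih (k - j) (by omega) _
      refine (h3.real_mul (q := 1 / ((k : ℝ) + 1)) (by positivity)).mono ?_
      have h4 : ((k : ℂ) + 1) * ∑ φ, a φ * h (k + 1) φ =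
          ∑ j ∈ Finset.range (k + 1), ∑ φ, a φ * P j φ * h (k - j) φ := by
        rw [Finset.sum_comm, Finset.mul_sum]
        refine Finset.sum_congr rfl fun φ _ => ?_
        rw [mul_left_comm, hrec, Finset.mul_sum]
        exact Finset.sum_congr rfl fun j _ => by ring
      have h5 : ‖∑ j ∈ Finset.range (k + 1), ∑ φ, a φ * P j φ * h (k - j) φ‖ ^ 2 ≤
          ((k : ℝ) + 1) * ∑ j ∈ Finset.range (k + 1), ‖∑ φ, a φ * P j φ * h (k - j) φ‖ ^ 2 := by
        refine (pow_le_pow_left₀ (norm_nonneg _) (norm_sum_le _ _) 2).trans ?_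
        have h6 := sq_sum_le_card_mul_sum_sq (s := Finset.range (k + 1))
          (f := fun j => ‖∑ φ, a φ * P j φ * h (k - j) φ‖)
        rw [Finset.card_range] at h6
        push_cast at h6
        exact h6
      rw [← h4, norm_mul, mul_pow] at h5
      have h7 : ‖(k : ℂ) + 1‖ = (k : ℝ) + 1 := by
        have : ((k : ℂ) + 1) = (((k : ℝ) + 1 : ℝ) : ℂ) := by push_cast; rfl
        rw [this, Complex.norm_real, Real.norm_of_nonneg hk2.le]
      rw [h7] at h5
      rw [← Finset.mul_sum]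
      have h8 : ((k : ℝ) + 1) * ‖∑ φ, a φ * h (k + 1) φ‖ ^ 2 ≤
          ∑ j ∈ Finset.range (k + 1), ‖∑ φ, a φ * P j φ * h (k - j) φ‖ ^ 2 := by
        have : ((k : ℝ) + 1) * (((k : ℝ) + 1) * ‖∑ φ, a φ * h (k + 1) φ‖ ^ 2) ≤
          ((k : ℝ) + 1) * ∑ j ∈ Finset.range (k + 1), ‖∑ φ, a φ * P j φ * h (k - j) φ‖ ^ 2 := by
          refine le_trans (le_of_eq ?_) h5
          ring
        exact le_of_mul_le_mul_left this hk2
      rw [one_div, mul_comm ((k : ℝ) + 1)⁻¹, ← div_eq_mul_inv, le_div_iff₀ hk2, mul_assoc]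
      refine mul_le_mul_of_nonneg_left ?_ hw
      linarith

variable {c : ℝ}

/-- the Euler factor `∏_{i,j} (1 - γ_i γ'_j e^{-(c+it) l})⁻¹` -/
noncomputable def EF [Fintype J] (γ : ι → J → ℂ) (c l : ℝ) (φ φ' : ι) (t : ℝ) : ℂ :=
  ∏ x : J × J, (1 - (γ φ x.1 * conj (γ φ' x.2)) * cexp (-((c + t * I) * l)))⁻¹

theorem EF_small [Fintype J] {γ : ι → J → ℂ} {l : ℝ} (hγ : ∀ φ i, ‖γ φ i‖ ^ 2 < Real.exp (c * l)) (φ φ' : ι) (t : ℝ)
    (x : J × J) : ‖(γ φ x.1 * conj (γ φ' x.2)) * cexp (-((c + t * I) * l))‖ < 1 := by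
  rw [norm_mul, norm_mul, norm_line, RCLike.norm_conj, Real.exp_neg]
  have h1 := hγ φ x.1
  have h2 := hγ φ' x.2
  have h3 : 0 < Real.exp (c * l) := Real.exp_pos _
  rw [mul_inv_lt_iff₀ h3, one_mul]
  nlinarith [sq_nonneg (‖γ φ x.1‖ - ‖γ φ' x.2‖)]

theorem pw_pair [Fintype J] (γ γ' : J → ℂ) (k : ℕ) :
    pw (Finset.univ : Finset (J × J)) (fun x => γ x.1 * conj (γ' x.2)) k =
      pw Finset.univ γ k * conj (pw Finset.univ γ' k) := by
  unfold pw
  rw [map_sum, Finset.sum_mul_sum, ← Finset.univ_product_univ, Finset.sum_product]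
  refine Finset.sum_congr rfl fun i _ => Finset.sum_congr rfl fun j _ => ?_
  rw [map_pow, mul_pow]

theorem JJ_EF [Fintype J] {γ : ι → J → ℂ} {l : ℝ} (hγ : ∀ φ i, ‖γ φ i‖ ^ 2 < Real.exp (c * l)) {g : ℝ → ℂ}
    (hg : Integrable g) {E : ι → ι → ℝ → ℂ} (hE : ∀ φ φ', Continuous (E φ φ')) {B : ℝ}
    (hB : ∀ φ φ' t, ‖E φ φ' t‖ ≤ B) {W : ℝ → ℝ} (hW : ∀ y, 0 ≤ W y)
    (hp : ∀ (a : ι → ℂ) y, Low (W y * ‖∑ φ, a φ‖ ^ 2) (JJ E g c a y)) (k₀ : ℕ) (a : ι → ℂ) (y : ℝ) :
    Low (W (y - k₀ * l) * ‖∑ φ, a φ * hc Finset.univ (γ φ) k₀‖ ^ 2)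
      (JJ (fun φ φ' t => EF γ c l φ φ' t * E φ φ' t) g c a y) := by
  classical
  set A : ℕ → ι → ι → ℂ := fun k φ φ' => hc (Finset.univ : Finset (J × J)) (fun x => γ φ x.1 * conj (γ φ' x.2)) k
    with hA
  -- the terms of the expansion
  have hterm : ∀ k : ℕ, Low (W (y - k * l) * ‖∑ φ, a φ * hc Finset.univ (γ φ) k‖ ^ 2)
      (QF (fun φ φ' => A k φ φ' * ∫ t : ℝ, E φ φ' t * (g t * cexp ((c + t * I) * ((y - k * l : ℝ) : ℂ)))) a) := by
    intro k
    refine cov (K := fun φ φ' => ∫ t : ℝ, E φ φ' t * (g t * cexp ((c + t * I) * ((y - k * l : ℝ) : ℂ))))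
      (P := fun j φ => pw Finset.univ (γ φ) j) (h := fun k φ => hc Finset.univ (γ φ) k) (A := A) (hW _)
      (fun b => ?_) (fun φ => hc_zero _ _) (fun φ φ' => hc_zero _ _) (fun k φ => newton _ _ k)
      (fun k φ φ' => ?_) k a
    · have h1 := hp b (y - k * l)
      unfold JJ at h1
      exact h1
    · rw [hA]
      simp only
      rw [newton]
      exact Finset.sum_congr rfl fun j _ => by rw [pw_pair]
  have hsum : HasSum (fun k : ℕ => QF (fun φ φ' => A k φ φ' *
      ∫ t : ℝ, E φ φ' t * (g t * cexp ((c + t * I) * ((y - k * l : ℝ) : ℂ)))) a)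
      (JJ (fun φ φ' t => EF γ c l φ φ' t * E φ φ' t) g c a y) := by
    unfold QF JJ
    refine hasSum_sum fun φ _ => hasSum_sum fun φ' _ => ?_
    refine HasSum.mul_left _ ?_
    have hint := int_mul (c := c) hg (hE φ φ') (hB φ φ') y
    set H : ℝ → ℂ := fun t => E φ φ' t * (g t * cexp ((c + t * I) * y)) with hH
    have hz : ∀ (k : ℕ) (t : ℝ), ‖cexp (-((c + t * I) * l)) ^ k‖ = Real.exp (-(c * l)) ^ k := by
      intro k t
      rw [norm_pow, norm_line]
    have hk : ∀ k : ℕ, Integrable fun t : ℝ => A k φ φ' * cexp (-((c + t * I) * l)) ^ k * H t := by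
      intro k
      refine hint.bdd_mul (c := ‖A k φ φ'‖ * Real.exp (-(c * l)) ^ k)
        (by fun_prop : Continuous fun t : ℝ => A k φ φ' * cexp (-((c + t * I) * l)) ^ k).aestronglyMeasurable
        (Eventually.of_forall fun t => ?_)
      rw [norm_mul, hz]
    have hs0 : Summable fun k : ℕ => ‖A k φ φ'‖ * Real.exp (-(c * l)) ^ k := by
      have h1 := (hc_gen (Finset.univ : Finset (J × J)) (fun x => γ φ x.1 * conj (γ φ' x.2))
        (cexp (-((c + (0 : ℝ) * I) * l))) fun x _ => EF_small hγ φ φ' 0 x).1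
      refine h1.congr fun k => ?_
      rw [norm_mul, hz]
    have h1 : HasSum (fun k : ℕ => ∫ t : ℝ, A k φ φ' * cexp (-((c + t * I) * l)) ^ k * H t)
        (∫ t : ℝ, ∑' k : ℕ, A k φ φ' * cexp (-((c + t * I) * l)) ^ k * H t) := by
      refine hasSum_integral_of_summable_integral_norm hk ?_
      have e : ∀ k : ℕ, ∫ t : ℝ, ‖A k φ φ' * cexp (-((c + t * I) * l)) ^ k * H t‖ =
          ‖A k φ φ'‖ * Real.exp (-(c * l)) ^ k * ∫ t : ℝ, ‖H t‖ := by
        intro k
        rw [← integral_const_mul]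
        refine integral_congr_ae (Eventually.of_forall fun t => ?_)
        simp only
        rw [norm_mul, norm_mul, hz]
      simp_rw [e]
      exact hs0.mul_right _
    have e2 : (∫ t : ℝ, ∑' k : ℕ, A k φ φ' * cexp (-((c + t * I) * l)) ^ k * H t) =
        ∫ t : ℝ, EF γ c l φ φ' t * E φ φ' t * (g t * cexp ((c + t * I) * y)) := by
      refine integral_congr_ae (Eventually.of_forall fun t => ?_)
      simp only
      have e0 := (hc_gen (Finset.univ : Finset (J × J)) (fun x => γ φ x.1 * conj (γ φ' x.2))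
        (cexp (-((c + t * I) * l))) fun x _ => EF_small hγ φ φ' t x).2
      rw [tsum_mul_right, hA]
      simp only
      rw [e0, hH]
      unfold EF
      ring
    rw [e2] at h1
    refine Pool.Agent.E8helper16.RF.HasSum.congr_fun' h1 fun k => ?_
    beta_reduce
    rw [← integral_const_mul]
    refine integral_congr_ae (Eventually.of_forall fun t => ?_)
    simp only [hH]
    have e5 : cexp ((c + t * I) * ((y - k * l : ℝ) : ℂ)) =
        cexp (-((c + t * I) * l)) ^ k * cexp ((c + t * I) * y) := by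
      rw [← Complex.exp_nat_mul, ← Complex.exp_add]
      congr 1
      push_cast
      ring
    rw [e5]
    ring
  exact low_hasSum hsum (fun k => (hterm k).mono (mul_nonneg (hW _) (sq_nonneg _))) k₀ (hterm k₀)

end Pool.Agent.E8helper16.RF
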