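import Pool.Agent.E8helper16.RF.L1
import Pool.Agent.E8helper16.RF.P3

/-! The lower bound at a prime. -/

set_option autoImplicit false

namespace Pool.Agent.E8helper16.RF

open MeasureTheory Filter Topology Complex
open scoped ComplexConjugate BigOperators
open Pool.Agent.TH949.RES (SphericalCuspForm)
open Pool.Agent.E8helper23.DT (LR unif)

variable {n : ℕ}

/-- the pairs `(p, k)` with fixed `p` -/
def SP (p : Nat.Primes) : Set (Nat.Primes × ℕ) := {x | x.1 = p}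

/-- the enumeration -/
def eSP (p : Nat.Primes) : ℕ ≃ SP p where
  toFun k := ⟨(p, k), rfl⟩
  invFun x := x.1.2
  left_inv _ := rfl
  right_inv x := by
    obtain ⟨⟨q, k⟩, hx⟩ := x
    have : q = p := hx
    subst this
    rfl

theorem summ_L2 {α α' : Nat.Primes → Fin n → ℂ} {μ μ' : Fin n → ℂ} (h : SphericalCuspForm α μ)
    (h' : SphericalCuspForm α' μ') {s : ℂ} (hs : 1 < s.re) :
    Summable fun x => uu α x * conj (uu α' x) * cexp (-(s * lx x)) := by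
  have h1 := uu_summ h hs
  have h2 := uu_summ h' hs
  refine Summable.of_norm_bounded (h1.add h2) fun x => ?_
  have e : ‖uu α x * conj (uu α' x) * cexp (-(s * lx x))‖ = ‖uu α x‖ * ‖uu α' x‖ * Real.exp (-(s.re * lx x)) := by
    rw [norm_mul, norm_mul, RCLike.norm_conj, Complex.norm_exp]
    congr 2
    simp
  rw [e]
  exact cs_term _ _ _ (Real.exp_pos _).le (norm_nonneg _) (norm_nonneg _)

theorem small_p {α : Nat.Primes → Fin n → ℂ} (hα : ∀ (p : Nat.Primes) i, ‖α p i‖ < ((p : ℕ) : ℝ) ^ (1 / 2 : ℝ))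
    (p : Nat.Primes) (i : Fin n) {c : ℝ} (hc : 1 < c) : ‖α p i‖ ^ 2 < Real.exp (c * Real.log ((p : ℕ) : ℝ)) := by
  have hp : (0 : ℝ) < ((p : ℕ) : ℝ) := by exact_mod_cast p.2.pos
  have hp1 : (1 : ℝ) < ((p : ℕ) : ℝ) := by exact_mod_cast p.2.one_lt
  have h1 := pow_lt_pow_left₀ (hα p i) (norm_nonneg _) two_ne_zero
  refine h1.trans_le ?_
  rw [Real.rpow_def_of_pos hp, ← Real.exp_nat_mul]
  refine Real.exp_le_exp.2 ?_
  have := Real.log_pos hp1
  push_cast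
  nlinarith

theorem split_p (p : Nat.Primes) {α α' : Nat.Primes → Fin n → ℂ} {μ μ' : Fin n → ℂ} (h : SphericalCuspForm α μ)
    (h' : SphericalCuspForm α' μ') (hα : ∀ (p : Nat.Primes) i, ‖α p i‖ < ((p : ℕ) : ℝ) ^ (1 / 2 : ℝ))
    (hα' : ∀ (p : Nat.Primes) i, ‖α' p i‖ < ((p : ℕ) : ℝ) ^ (1 / 2 : ℝ)) {s : ℂ} (hs : 1 < s.re) :
    cexp (logL2 α α' s) =
      (∏ x : Fin n × Fin n, (1 - (α p x.1 * conj (α' p x.2)) * cexp (-(s * (Real.log ((p : ℕ) : ℝ) : ℝ))))⁻¹) *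
      cexp (∑' x : ((SP p)ᶜ : Set (Nat.Primes × ℕ)), uu α x * conj (uu α' x) * cexp (-(s * lx x))) := by
  rw [logL2_eq]
  have hS := summ_L2 h h' hs
  rw [← hS.tsum_subtype_add_tsum_subtype_compl (SP p), Complex.exp_add]
  congr 1
  rw [← (eSP p).tsum_eq]
  set z : ℂ := cexp (-(s * (Real.log ((p : ℕ) : ℝ) : ℝ))) with hz
  have hsm : ∀ x ∈ (Finset.univ : Finset (Fin n × Fin n)), ‖(α p x.1 * conj (α' p x.2)) * z‖ < 1 := by
    intro x _
    have e : ‖z‖ = Real.exp (-(s.re * Real.log ((p : ℕ) : ℝ))) := by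
      rw [hz, Complex.norm_exp, Complex.neg_re, Complex.re_mul_ofReal]
    rw [norm_mul, norm_mul, e, RCLike.norm_conj, Real.exp_neg]
    have h1 := small_p hα p x.1 hs
    have h2 := small_p hα' p x.2 hs
    have h3 : 0 < Real.exp (s.re * Real.log ((p : ℕ) : ℝ)) := Real.exp_pos _
    rw [mul_inv_lt_iff₀ h3, one_mul]
    nlinarith [sq_nonneg (‖α p x.1‖ - ‖α' p x.2‖)]
  have hg := (exp_gen (Finset.univ : Finset (Fin n × Fin n)) (fun x => α p x.1 * conj (α' p x.2)) z hsm).2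
  rw [← hg]
  congr 1
  refine tsum_congr fun k => ?_
  rw [pw_pair]
  have e1 : ((eSP p k : SP p) : Nat.Primes × ℕ) = (p, k) := rfl
  rw [e1, uu_mul]
  simp only
  have e2 : cexp (-(s * lx (p, k))) = z ^ (k + 1) := by
    rw [hz, ← Complex.exp_nat_mul]
    congr 1
    unfold lx
    push_cast
    ring
  rw [e2]
  rfl

theorem low_p (p : Nat.Primes) {ι : Type*} [Fintype ι] {α : ι → Nat.Primes → Fin n → ℂ} {μ : ι → Fin n → ℂ}
    (h : ∀ φ, SphericalCuspForm (α φ) (μ φ))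
    (hα : ∀ φ (p : Nat.Primes) i, ‖α φ p i‖ < ((p : ℕ) : ℝ) ^ (1 / 2 : ℝ)) {c : ℝ} (hc1 : 1 < c) {g : ℝ → ℂ}
    {W : ℝ → ℝ} (hg : Wt g c W) (k₀ : ℕ) (a : ι → ℂ) (y : ℝ) :
    Low (W (y - k₀ * Real.log ((p : ℕ) : ℝ)) * ‖∑ φ, a φ * hc Finset.univ (α φ p) k₀‖ ^ 2)
      (JJ (fun φ φ' t => cexp (logL2 (α φ) (α φ') (c + t * I))) g c a y) := by
  set u : ((SP p)ᶜ : Set (Nat.Primes × ℕ)) → ι → ℂ := fun x φ => uu (α φ) x with hu
  set l : ((SP p)ᶜ : Set (Nat.Primes × ℕ)) → ℝ := fun x => lx x with hl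
  have hus : ∀ φ, Summable fun x => ‖u x φ‖ ^ 2 * Real.exp (-(c * l x)) := fun φ =>
    (uu_summ (h φ) hc1).comp_injective Subtype.val_injective
  have e : (fun (φ φ' : ι) (t : ℝ) => cexp (logL2 (α φ) (α φ') (c + t * I))) = fun φ φ' t =>
      EF (fun φ i => α φ p i) c (Real.log ((p : ℕ) : ℝ)) φ φ' t * (cexp (FK u l c φ φ' t) * 1) := by
    funext φ φ' t
    rw [split_p p (h φ) (h φ') (hα φ) (hα φ') (by simpa using hc1), mul_one]
    rfl
  rw [e]
  obtain ⟨B, hB0, hB⟩ := FK_bound hus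
  have hE : ∀ φ φ', Continuous fun t => cexp (FK u l c φ φ' t) * 1 := fun φ φ' =>
    ((FK_cont hus φ φ').cexp).mul_const 1
  have hEB : ∀ φ φ' t, ‖cexp (FK u l c φ φ' t) * 1‖ ≤ Real.exp B := fun φ φ' t => by
    rw [mul_one, Complex.norm_exp]
    exact Real.exp_le_exp.2 ((Complex.re_le_norm _).trans (hB φ φ' t))
  refine JJ_EF (γ := fun φ i => α φ p i) (l := Real.log ((p : ℕ) : ℝ)) (fun φ i => small_p (hα φ) p i hc1)
    hg.1 hE hEB hg.2.1 (fun b z => ?_) k₀ a y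
  refine exp_low hus hg.1 (E := fun _ _ _ => 1) (B := 1) (fun _ _ => continuous_const) (fun _ _ _ => by simp)
    (fun b z => (JJ_one hg b z).mono (mul_nonneg (hg.2.1 _) (sq_nonneg _))) b z _ (JJ_one hg b z)

/-- the upper bound for a quadratic form -/
theorem QF_le {ι : Type*} [Fintype ι] {K : ι → ι → ℂ} {D O : ℝ} (hO : 0 ≤ O) (hD : ∀ φ, ‖K φ φ‖ ≤ D)
    (hK : ∀ φ φ', φ ≠ φ' → ‖K φ φ'‖ ≤ O) (a : ι → ℂ) :
    ‖QF K a‖ ≤ (D + Fintype.card ι * O) * ∑ φ, ‖a φ‖ ^ 2 := by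
  classical
  have h1 : ∀ φ φ', ‖K φ φ'‖ ≤ (if φ = φ' then D else 0) + O := by
    intro φ φ'
    by_cases hφ : φ = φ'
    · subst hφ
      rw [if_pos rfl]
      linarith [hD φ]
    · rw [if_neg hφ, zero_add]
      exact hK φ φ' hφ
  unfold QF
  calc ‖∑ φ, ∑ φ', a φ * conj (a φ') * K φ φ'‖
      ≤ ∑ φ, ∑ φ', ‖a φ‖ * ‖a φ'‖ * ((if φ = φ' then D else 0) + O) := by
        refine (norm_sum_le _ _).trans (Finset.sum_le_sum fun φ _ => (norm_sum_le _ _).trans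
          (Finset.sum_le_sum fun φ' _ => ?_))
        rw [norm_mul, norm_mul, RCLike.norm_conj]
        exact mul_le_mul_of_nonneg_left (h1 φ φ') (by positivity)
    _ = D * (∑ φ, ‖a φ‖ ^ 2) + O * (∑ φ, ‖a φ‖) ^ 2 := by
        simp_rw [mul_add, Finset.sum_add_distrib, mul_ite, mul_zero, Finset.sum_ite_eq, Finset.mem_univ, if_true]
        congr 1
        · rw [Finset.mul_sum]
          exact Finset.sum_congr rfl fun φ _ => by ring
        · rw [sq, Finset.sum_mul_sum, Finset.mul_sum]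
          refine Finset.sum_congr rfl fun φ _ => ?_
          rw [Finset.mul_sum]
          exact Finset.sum_congr rfl fun φ' _ => by ring
    _ ≤ D * (∑ φ, ‖a φ‖ ^ 2) + O * (Fintype.card ι * ∑ φ, ‖a φ‖ ^ 2) := by
        have h2 := sq_sum_le_card_mul_sum_sq (s := (Finset.univ : Finset ι)) (f := fun φ => ‖a φ‖)
        rw [Finset.card_univ] at h2
        have := mul_le_mul_of_nonneg_left h2 hO
        linarith
    _ = _ := by ring

end Pool.Agent.E8helper16.RF
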