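import Pool.Agent.E8helper16.RF.F1
import Pool.Agent.W355.LJ.Shift
import Pool.Agent.TH949.LT.Kernel

/-! Contour shifts and the constants. -/

set_option autoImplicit false

namespace Pool.Agent.E8helper16.RF

open MeasureTheory Filter Topology Complex
open scoped ComplexConjugate BigOperators
open Pool.Agent.TH949.RES (SphericalCuspForm)
open Pool.Agent.E8helper23.DT (LR unif)

variable {n : ℕ}

theorem pg (A y : ℝ) : (1 + |y|) ^ A ≤ Real.exp (A ^ 2 / 2) * Real.exp (y ^ 2 / 2) := by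
  have h0 : 0 < 1 + |y| := by positivity
  rw [Real.rpow_def_of_pos h0, ← Real.exp_add]
  refine Real.exp_le_exp.2 ?_
  have h1 : 0 ≤ Real.log (1 + |y|) := Real.log_nonneg (by linarith [abs_nonneg y])
  have h2 : Real.log (1 + |y|) ≤ |y| := by
    have := Real.log_le_sub_one_of_pos h0
    linarith
  have h3 := le_abs_self A
  have h4 := abs_nonneg A
  have h5 : Real.log (1 + |y|) * A ≤ |y| * |A| := by
    calc _ ≤ Real.log (1 + |y|) * |A| := mul_le_mul_of_nonneg_left h3 h1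
      _ ≤ _ := mul_le_mul_of_nonneg_right h2 h4
  have h6 := sq_nonneg (|y| - |A|)
  have h7 := sq_abs y
  have h8 := sq_abs A
  nlinarith

theorem int_le {f : ℝ → ℂ} {M : ℝ} (h : ∀ v, ‖f v‖ ≤ M * Real.exp (-(1 / 2) * v ^ 2)) : ‖∫ v, f v‖ ≤ 3 * M := by
  have hM : 0 ≤ M := by
    have := (norm_nonneg _).trans (h 0)
    simpa using this
  have h1 : Integrable fun v : ℝ => M * Real.exp (-(1 / 2) * v ^ 2) :=
    (integrable_exp_neg_mul_sq (by norm_num)).const_mul M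
  refine (norm_integral_le_of_norm_le h1 (Eventually.of_forall h)).trans ?_
  rw [integral_const_mul, integral_gaussian, mul_comm]
  refine mul_le_mul_of_nonneg_right ?_ hM
  rw [Real.sqrt_le_left (by norm_num)]
  have := Real.pi_lt_d2
  linarith

theorem norm_gk (x v y : ℝ) : ‖cexp ((x + v * I) ^ 2 + (x + v * I) * y)‖ = Real.exp (x ^ 2 - v ^ 2 + x * y) := by
  rw [Complex.norm_exp]
  congr 1
  simp [pow_two]

theorem shift_poly {G : ℂ → ℂ} (hG : Differentiable ℂ G)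
    (hgr : ∀ a b : ℝ, ∃ C A : ℝ, ∀ s : ℂ, a ≤ s.re → s.re ≤ b → ‖G s‖ ≤ C * (1 + |s.im|) ^ A) (a b y : ℝ)
    (hab : a ≤ b) :
    ∫ v : ℝ, G (a + v * I) * cexp ((a + v * I) ^ 2 + (a + v * I) * y) =
      ∫ v : ℝ, G (b + v * I) * cexp ((b + v * I) ^ 2 + (b + v * I) * y) := by
  obtain ⟨C, A, hC⟩ := hgr a b
  set R : ℝ := |a| + |b| with hR
  have hF : Differentiable ℂ fun w : ℂ => G w * cexp (w ^ 2 + w * y) :=
    hG.mul (((differentiable_id.pow 2).add (differentiable_id.mul_const _)).cexp)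
  refine Pool.Agent.W355.LJ.shift_gauss (fun w : ℂ => G w * cexp (w ^ 2 + w * y)) hF a b hab
    (|C| * Real.exp (A ^ 2 / 2) * Real.exp (R ^ 2 + R * |y|)) (1 / 2) (by norm_num) (by positivity)
    fun x v hx1 hx2 => ?_
  rw [norm_mul, norm_gk]
  have h1 := hC (x + v * I) (by simpa using hx1) (by simpa using hx2)
  have e : ((x : ℂ) + v * I).im = v := by simp
  rw [e] at h1
  have h2 : ‖G (x + v * I)‖ ≤ |C| * (Real.exp (A ^ 2 / 2) * Real.exp (v ^ 2 / 2)) := by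
    refine h1.trans ?_
    refine mul_le_mul (le_abs_self C) (pg A v) (by positivity) (abs_nonneg _)
  have hx : |x| ≤ R := by
    rw [abs_le]
    have := neg_abs_le a
    have := le_abs_self b
    have := abs_nonneg a
    have := abs_nonneg b
    constructor <;> linarith
  have h3 : x ^ 2 + x * y ≤ R ^ 2 + R * |y| := by
    have h4 : x ^ 2 ≤ R ^ 2 := by
      rw [← sq_abs x]
      exact pow_le_pow_left₀ (abs_nonneg _) hx 2
    have h5 : x * y ≤ R * |y| := by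
      refine (le_abs_self _).trans ?_
      rw [abs_mul]
      exact mul_le_mul_of_nonneg_right hx (abs_nonneg _)
    linarith
  calc ‖G (x + v * I)‖ * Real.exp (x ^ 2 - v ^ 2 + x * y)
      ≤ |C| * (Real.exp (A ^ 2 / 2) * Real.exp (v ^ 2 / 2)) * Real.exp (R ^ 2 + R * |y| - v ^ 2) := by
        refine mul_le_mul h2 (Real.exp_le_exp.2 (by linarith)) (Real.exp_pos _).le (by positivity)
    _ = _ := by
        have : Real.exp (v ^ 2 / 2) * Real.exp (R ^ 2 + R * |y| - v ^ 2) =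
            Real.exp (R ^ 2 + R * |y|) * Real.exp (-(1 / 2) * v ^ 2) := by
          rw [← Real.exp_add, ← Real.exp_add]
          congr 1
          ring
        calc _ = |C| * Real.exp (A ^ 2 / 2) * (Real.exp (v ^ 2 / 2) * Real.exp (R ^ 2 + R * |y| - v ^ 2)) := by ring
          _ = _ := by rw [this]; ring

theorem cond2_self (μ : Fin n → ℂ) : cond2 μ μ 0 = ∏ i, ∏ j, (1 + ‖μ i - μ j‖) := by
  unfold cond2
  simp

/-- what is used of a pair -/
structure PD (α α' : Nat.Primes → Fin n → ℂ) (μ μ' : Fin n → ℂ) (A κ η : ℝ) (G : ℂ → ℂ) : Prop where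
  diff : Differentiable ℂ G
  eq : ∀ s : ℂ, 1 < s.re → G s = cexp (logL2 α α' s)
  gr : ∀ a b : ℝ, ∃ C A : ℝ, ∀ s : ℂ, a ≤ s.re → s.re ≤ b → ‖G s‖ ≤ C * (1 + |s.im|) ^ A
  zero : ∀ i j, G (μ' j - μ i) = 0
  bd : ∀ t Q : ℝ, cond2 μ μ 0 ≤ Q → cond2 μ' μ' 0 ≤ Q → cond2 μ μ' t ≤ Q →
    ∀ v : ℝ, ‖G ((-η : ℝ) + (t + v : ℝ) * I)‖ ≤ A * Q ^ (κ + (1 + 2 * η) / 2) *
      (1 + |v|) ^ ((1 + 2 * η) / 2 * ((n * n : ℕ) : ℝ))

theorem fam_const (hn : 2 ≤ n) {η κ : ℝ} (hη : 0 < η) (hη1 : η ≤ 1) (hκ : 0 < κ) : ∃ A : ℝ, 1 ≤ A ∧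
    (∀ (α : Nat.Primes → Fin n → ℂ) (μ : Fin n → ℂ), SphericalCuspForm α μ →
      (∀ (p : Nat.Primes) i, ‖α p i‖ < ((p : ℕ) : ℝ) ^ (1 / 2 : ℝ)) → (∀ i, |(μ i).re| < 1 / 2) →
      ∀ Q : ℝ, cond2 μ μ 0 ≤ Q → Real.exp (LR α (1 + η)) ≤ A * Q ^ κ) ∧
    ∀ (α α' : Nat.Primes → Fin n → ℂ) (μ μ' : Fin n → ℂ), SphericalCuspForm α μ → SphericalCuspForm α' μ' →
      (∀ (p : Nat.Primes) i, ‖α p i‖ < ((p : ℕ) : ℝ) ^ (1 / 2 : ℝ)) →
      (∀ (p : Nat.Primes) i, ‖α' p i‖ < ((p : ℕ) : ℝ) ^ (1 / 2 : ℝ)) →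
      (∀ i, |(μ i).re| < 1 / 2) → (∀ i, |(μ' i).re| < 1 / 2) → RankinSelberg α μ α' μ' →
      ∃ G : ℂ → ℂ, PD α α' μ μ' A κ η G := by
  obtain ⟨A1, hA1, hU⟩ := unif_eps (n := n) hn hη hη1 hκ
  obtain ⟨C, hC, hP⟩ := pair_data (n := n) hη hη1
  have hdiag : ∀ (α : Nat.Primes → Fin n → ℂ) (μ : Fin n → ℂ), SphericalCuspForm α μ →
      (∀ (p : Nat.Primes) i, ‖α p i‖ < ((p : ℕ) : ℝ) ^ (1 / 2 : ℝ)) → (∀ i, |(μ i).re| < 1 / 2) →
      ∀ Q : ℝ, cond2 μ μ 0 ≤ Q → LR α (1 + η) ≤ A1 + κ * Real.log Q := by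
    intro α μ h hα hμ Q hQ
    refine (hU α μ h hα hμ).trans ?_
    rw [← cond2_self]
    have h1 := cond2_ge μ μ 0
    have h2 : Real.log (cond2 μ μ 0) ≤ Real.log Q := Real.log_le_log (by linarith) hQ
    have := mul_le_mul_of_nonneg_left h2 hκ.le
    linarith
  have hexp : ∀ Q : ℝ, 0 < Q → Real.exp (A1 + κ * Real.log Q) = Real.exp A1 * Q ^ κ := by
    intro Q hQ
    rw [Real.exp_add, Real.rpow_def_of_pos hQ, mul_comm κ]
  have hA1' : 1 ≤ Real.exp A1 := Real.one_le_exp hA1.le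
  refine ⟨Real.exp A1 * (1 + C), by nlinarith, fun α μ h hα hμ Q hQ => ?_, fun α α' μ μ' h h' hα hα' hμ hμ' hp => ?_⟩
  · have hQ0 : 0 < Q := by linarith [cond2_ge μ μ 0]
    have h1 := Real.exp_le_exp.2 (hdiag α μ h hα hμ Q hQ)
    rw [hexp Q hQ0] at h1
    refine h1.trans (mul_le_mul_of_nonneg_right ?_ (by positivity))
    nlinarith [Real.exp_pos A1]
  · obtain ⟨G, h1, h2, h3, h4, h5⟩ := hP α α' μ μ' h h' hμ hμ' hp
    refine ⟨G, h1, h2, h3, h4, fun t Q hQ1 hQ2 hQ3 v => (h5 t v).trans ?_⟩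
    have hQ0 : 0 < Q := by linarith [cond2_ge μ μ 0]
    have h6 : Real.exp ((LR α (1 + η) + LR α' (1 + η)) / 2) ≤ Real.exp A1 * Q ^ κ := by
      rw [← hexp Q hQ0]
      refine Real.exp_le_exp.2 ?_
      have a1 := hdiag α μ h hα hμ Q hQ1
      have a2 := hdiag α' μ' h' hα' hμ' Q hQ2
      linarith
    have h7 : cond2 μ μ' t ^ ((1 + 2 * η) / 2) ≤ Q ^ ((1 + 2 * η) / 2) :=
      Real.rpow_le_rpow (by linarith [cond2_ge μ μ' t]) hQ3 (by positivity)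
    have h8 : ((1 + |v|) ^ ((1 + 2 * η) / 2)) ^ (n * n) = (1 + |v|) ^ ((1 + 2 * η) / 2 * ((n * n : ℕ) : ℝ)) := by
      rw [← Real.rpow_natCast, ← Real.rpow_mul (by positivity)]
    rw [h8, Real.rpow_add hQ0]
    calc _ ≤ Real.exp A1 * Q ^ κ * (C * (1 + |v|) ^ ((1 + 2 * η) / 2 * ((n * n : ℕ) : ℝ)) *
          Q ^ ((1 + 2 * η) / 2)) := by
          refine mul_le_mul h6 (mul_le_mul_of_nonneg_left h7 (by positivity)) ?_ (by positivity)
          have := (cond2_ge μ μ' t)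
          positivity
      _ = Real.exp A1 * C * (Q ^ κ * Q ^ ((1 + 2 * η) / 2)) *
          (1 + |v|) ^ ((1 + 2 * η) / 2 * ((n * n : ℕ) : ℝ)) := by ring
      _ ≤ _ := by
          refine mul_le_mul_of_nonneg_right (mul_le_mul_of_nonneg_right ?_ (by positivity)) (by positivity)
          nlinarith [Real.exp_pos A1]

end Pool.Agent.E8helper16.RF
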