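import Pool.Agent.E8helper16.RF.F2

/-! The large sieve inequality for complete homogeneous sums at a prime. -/

set_option autoImplicit false

namespace Pool.Agent.E8helper16.RF

open MeasureTheory Filter Topology Complex
open scoped ComplexConjugate BigOperators
open Pool.Agent.TH949.RES (SphericalCuspForm)
open Pool.Agent.E8helper23.DT (LR unif)

variable {n : ℕ}

theorem wt_gauss (c : ℝ) : Wt (fun t => cexp ((c + t * I) ^ 2)) c (fun y => √Real.pi * Real.exp (-y ^ 2 / 4)) := by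
  refine ⟨?_, fun y => by positivity, fun y => ?_⟩
  · have h1 : Integrable fun v : ℝ => Real.exp (c ^ 2) * Real.exp (-1 * v ^ 2) :=
      (integrable_exp_neg_mul_sq one_pos).const_mul _
    refine h1.mono' (by fun_prop : Continuous fun t : ℝ => cexp ((c + t * I) ^ 2)).aestronglyMeasurable
      (Eventually.of_forall fun v => ?_)
    have h2 := norm_gk c v 0
    rw [Complex.ofReal_zero, mul_zero, add_zero, mul_zero, add_zero] at h2
    rw [h2, ← Real.exp_add]
    exact Real.exp_le_exp.2 (by linarith)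
  · have h1 := Pool.Agent.TH949.LT.gauss_line c y
    push_cast at h1 ⊢
    rw [← h1]
    refine integral_congr_ae (Eventually.of_forall fun t => ?_)
    simp only
    rw [← Complex.exp_add]

theorem gk_split (c t y : ℝ) : cexp ((c + t * I) ^ 2) * cexp ((c + t * I) * y) =
    cexp ((c + t * I) ^ 2 + (c + t * I) * y) := by rw [← Complex.exp_add]

/-- the integral on the line `-η` -/
theorem off_int {G : ℂ → ℂ} {b A0 B y : ℝ} (hA0 : 0 ≤ A0)
    (hb : ∀ v : ℝ, ‖G (b + v * I)‖ ≤ A0 * (1 + |v|) ^ B) :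
    ‖∫ v : ℝ, G (b + v * I) * cexp ((b + v * I) ^ 2 + (b + v * I) * y)‖ ≤
      3 * (A0 * Real.exp (B ^ 2 / 2) * Real.exp (b ^ 2 + b * y)) := by
  refine int_le fun v => ?_
  rw [norm_mul, norm_gk]
  calc _ ≤ A0 * (Real.exp (B ^ 2 / 2) * Real.exp (v ^ 2 / 2)) * Real.exp (b ^ 2 - v ^ 2 + b * y) :=
        mul_le_mul_of_nonneg_right ((hb v).trans (mul_le_mul_of_nonneg_left (pg B v) hA0)) (Real.exp_pos _).le
    _ = A0 * Real.exp (B ^ 2 / 2) * (Real.exp (v ^ 2 / 2) * Real.exp (b ^ 2 - v ^ 2 + b * y)) := by ring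
    _ = A0 * Real.exp (B ^ 2 / 2) * (Real.exp (b ^ 2 + b * y) * Real.exp (-(1 / 2) * v ^ 2)) := by
        congr 1
        rw [← Real.exp_add, ← Real.exp_add]
        congr 1
        ring
    _ = _ := by ring

theorem large_p (hn : 2 ≤ n) {η κ : ℝ} (hη : 0 < η) (hη1 : η ≤ 1) (hκ : 0 < κ) : ∃ A : ℝ, 1 ≤ A ∧
    ∀ {ι : Type} [Fintype ι] (α : ι → Nat.Primes → Fin n → ℂ) (μ : ι → Fin n → ℂ), Family α μ →
      ∀ Q : ℝ, 1 ≤ Q → (∀ φ φ', cond2 (μ φ) (μ φ') 0 ≤ Q) → ∀ (p : Nat.Primes) (k : ℕ),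
        ∑ φ, ‖hc Finset.univ (α φ p) k‖ ^ 2 ≤
          A * (Q ^ κ * Real.exp ((1 + η) * (k * Real.log ((p : ℕ) : ℝ))) +
            Fintype.card ι * Q ^ (κ + (1 + 2 * η) / 2)) := by
  obtain ⟨A, hA, hdiag, hoff⟩ := fam_const (n := n) hn hη hη1 hκ
  set B : ℝ := (1 + 2 * η) / 2 * ((n * n : ℕ) : ℝ) with hB
  set A2 : ℝ := 3 * A * Real.exp 4 * Real.exp (B ^ 2 / 2) with hA2
  have he4 : 1 ≤ Real.exp 4 := Real.one_le_exp (by norm_num)
  have heB : 1 ≤ Real.exp (B ^ 2 / 2) := Real.one_le_exp (by positivity)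
  have hA21 : 1 ≤ A2 := by
    rw [hA2]
    have h1 : 1 ≤ 3 * A := by linarith
    have h2 : 1 ≤ 3 * A * Real.exp 4 := one_le_mul_of_one_le_of_one_le h1 he4
    exact one_le_mul_of_one_le_of_one_le h2 heB
  refine ⟨A2, hA21, fun {ι} _ α μ hF Q hQ1 hQ p k => ?_⟩
  have hQ0 : 0 < Q := by linarith
  set c : ℝ := 1 + η with hcd
  have hc1 : 1 < c := by rw [hcd]; linarith
  have hp1 : (1 : ℝ) < ((p : ℕ) : ℝ) := by exact_mod_cast p.2.one_lt
  have hlp : 0 < Real.log ((p : ℕ) : ℝ) := Real.log_pos hp1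
  set y : ℝ := k * Real.log ((p : ℕ) : ℝ) with hy
  have hy0 : 0 ≤ y := by positivity
  set g : ℝ → ℂ := fun t => cexp ((c + t * I) ^ 2) with hg
  set h : ι → ℂ := fun φ => hc Finset.univ (α φ p) k with hh
  set K : ι → ι → ℂ := fun φ φ' => ∫ t : ℝ, cexp (logL2 (α φ) (α φ') (c + t * I)) *
    (g t * cexp ((c + t * I) * y)) with hK
  have hlow := low_p p hF.form hF.local_bound hc1 (wt_gauss c) k (fun φ => conj (h φ)) y
  have hJ : JJ (fun φ φ' t => cexp (logL2 (α φ) (α φ') (c + t * I))) (fun t => cexp ((c + t * I) ^ 2)) c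
      (fun φ => conj (h φ)) y = QF K (fun φ => conj (h φ)) := rfl
  rw [hJ] at hlow
  have hKe : ∀ φ φ', K φ φ' = ∫ t : ℝ, cexp (logL2 (α φ) (α φ') (c + t * I)) *
      cexp ((c + t * I) ^ 2 + (c + t * I) * y) := by
    intro φ φ'
    rw [hK]
    refine integral_congr_ae (Eventually.of_forall fun t => ?_)
    simp only [hg]
    rw [gk_split]
  have hre : ∀ t : ℝ, ((c : ℂ) + t * I).re = c := fun t => by simp
  -- the diagonal
  have hD : ∀ φ, ‖K φ φ‖ ≤ A2 * (Q ^ κ * Real.exp ((1 + η) * y)) := by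
    intro φ
    rw [hKe]
    have h1 := hdiag (α φ) (μ φ) (hF.form φ) (hF.local_bound φ) (hF.real_bound φ) Q (hQ φ φ)
    have h2 : ∀ v : ℝ, ‖cexp (logL2 (α φ) (α φ) (c + v * I)) * cexp ((c + v * I) ^ 2 + (c + v * I) * y)‖ ≤
        (A * Q ^ κ * Real.exp (c ^ 2 + c * y)) * Real.exp (-(1 / 2) * v ^ 2) := by
      intro v
      rw [norm_mul, norm_gk]
      have h3 := norm_expL2 (hF.form φ) (hF.form φ) (s := (c : ℂ) + v * I) (by rw [hre]; exact hc1)
      rw [hre] at h3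
      have h4 : (LR (α φ) c + LR (α φ) c) / 2 = LR (α φ) c := by ring
      rw [h4] at h3
      calc _ ≤ (A * Q ^ κ) * Real.exp (c ^ 2 - v ^ 2 + c * y) :=
            mul_le_mul_of_nonneg_right (h3.trans h1) (Real.exp_pos _).le
        _ ≤ (A * Q ^ κ) * (Real.exp (c ^ 2 + c * y) * Real.exp (-(1 / 2) * v ^ 2)) := by
            rw [← Real.exp_add]
            refine mul_le_mul_of_nonneg_left (Real.exp_le_exp.2 ?_) (by positivity)
            nlinarith [sq_nonneg v]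
        _ = _ := by ring
    refine (int_le h2).trans ?_
    have h5 : Real.exp (c ^ 2 + c * y) ≤ Real.exp 4 * Real.exp (c * y) := by
      rw [← Real.exp_add]
      refine Real.exp_le_exp.2 ?_
      have : c ^ 2 ≤ 2 ^ 2 := pow_le_pow_left₀ (by linarith) (by rw [hcd]; linarith) 2
      linarith
    calc 3 * (A * Q ^ κ * Real.exp (c ^ 2 + c * y)) ≤ 3 * (A * Q ^ κ * (Real.exp 4 * Real.exp (c * y))) := by
          gcongr
      _ = 3 * A * Real.exp 4 * 1 * (Q ^ κ * Real.exp (c * y)) := by ring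
      _ ≤ 3 * A * Real.exp 4 * Real.exp (B ^ 2 / 2) * (Q ^ κ * Real.exp (c * y)) := by
          gcongr
      _ = _ := by rw [hA2, hcd]
  -- off the diagonal
  have hO : ∀ φ φ', φ ≠ φ' → ‖K φ φ'‖ ≤ A2 * Q ^ (κ + (1 + 2 * η) / 2) := by
    intro φ φ' hne
    obtain ⟨G, hG⟩ := hoff (α φ) (α φ') (μ φ) (μ φ') (hF.form φ) (hF.form φ') (hF.local_bound φ)
      (hF.local_bound φ') (hF.real_bound φ) (hF.real_bound φ') (hF.pair φ φ' hne)
    have e1 : K φ φ' = ∫ t : ℝ, G (c + t * I) * cexp ((c + t * I) ^ 2 + (c + t * I) * y) := by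
      rw [hKe]
      refine integral_congr_ae (Eventually.of_forall fun t => ?_)
      simp only
      rw [hG.eq _ (by rw [hre]; exact hc1)]
    rw [e1, ← shift_poly hG.diff hG.gr (-η) c y (by linarith)]
    have hb : ∀ v : ℝ, ‖G ((-η : ℝ) + v * I)‖ ≤ (A * Q ^ (κ + (1 + 2 * η) / 2)) * (1 + |v|) ^ B := by
      intro v
      have h1 := hG.bd 0 Q (hQ φ φ) (hQ φ' φ') (hQ φ φ') v
      rw [zero_add] at h1
      exact h1
    refine (off_int (by positivity) hb).trans ?_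
    have h5 : Real.exp ((-η) ^ 2 + -η * y) ≤ Real.exp 4 := by
      refine Real.exp_le_exp.2 ?_
      have : 0 ≤ η * y := by positivity
      nlinarith
    calc 3 * (A * Q ^ (κ + (1 + 2 * η) / 2) * Real.exp (B ^ 2 / 2) * Real.exp ((-η) ^ 2 + -η * y))
        ≤ 3 * (A * Q ^ (κ + (1 + 2 * η) / 2) * Real.exp (B ^ 2 / 2) * Real.exp 4) := by gcongr
      _ = _ := by rw [hA2]; ring
  have hup := QF_le (K := K) (D := A2 * (Q ^ κ * Real.exp ((1 + η) * y)))
    (O := A2 * Q ^ (κ + (1 + 2 * η) / 2)) (by positivity) hD hO (fun φ => conj (h φ))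
  obtain ⟨r, hr1, hr2⟩ := hlow
  rw [hr2, Complex.norm_real] at hup
  simp only [RCLike.norm_conj] at hup
  have e2 : y - k * Real.log ((p : ℕ) : ℝ) = 0 := by rw [hy]; ring
  rw [e2] at hr1
  set S : ℝ := ∑ φ, ‖h φ‖ ^ 2 with hS
  have hS0 : 0 ≤ S := Finset.sum_nonneg fun φ _ => sq_nonneg _
  have e3 : ‖∑ φ, conj (h φ) * hc Finset.univ (α φ p) k‖ = S := by
    have e4 : ∑ φ, conj (h φ) * hc Finset.univ (α φ p) k = ((S : ℝ) : ℂ) := by
      rw [hS]
      push_cast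
      refine Finset.sum_congr rfl fun φ _ => ?_
      have : hc Finset.univ (α φ p) k = h φ := rfl
      rw [this, mul_comm, Complex.mul_conj, Complex.normSq_eq_norm_sq]
      push_cast
      rfl
    rw [e4, Complex.norm_real, Real.norm_of_nonneg hS0]
  rw [e3] at hr1
  have hpi : 1 ≤ √Real.pi := by
    rw [Real.one_le_sqrt]
    linarith [Real.pi_gt_three]
  have e5 : √Real.pi * Real.exp (-0 ^ 2 / 4) = √Real.pi := by simp
  rw [e5] at hr1
  have h6 : S ^ 2 ≤ (A2 * (Q ^ κ * Real.exp ((1 + η) * y)) +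
      Fintype.card ι * (A2 * Q ^ (κ + (1 + 2 * η) / 2))) * S := by
    calc S ^ 2 = 1 * S ^ 2 := by ring
      _ ≤ √Real.pi * S ^ 2 := mul_le_mul_of_nonneg_right hpi (sq_nonneg _)
      _ ≤ r := hr1
      _ ≤ |r| := le_abs_self r
      _ ≤ _ := by rw [Real.norm_eq_abs] at hup; exact hup
  rcases hS0.lt_or_eq with h7 | h7
  · rw [sq] at h6
    have h8 := le_of_mul_le_mul_right h6 h7
    refine h8.trans (le_of_eq ?_)
    ring
  · rw [← h7]
    positivity

end Pool.Agent.E8helper16.RF
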