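import Pool.Agent.E8helper16.RF.P2

/-! Among consecutive complete homogeneous sums at least one is large. -/

set_option autoImplicit false

namespace Pool.Agent.E8helper16.RF

variable {J : Type*}

theorem window_aux [DecidableEq J] (γ : J → ℂ) (i₀ : J) (h0 : 0 < ‖γ i₀‖) (s : Finset J) :
    i₀ ∉ s → (∀ i ∈ s, ‖γ i‖ ≤ ‖γ i₀‖) → ∀ K : ℕ, s.card ≤ K →
      ∃ k : ℕ, K - s.card ≤ k ∧ k ≤ K ∧ ‖γ i₀‖ ^ k / 2 ^ s.card ≤ ‖hc (insert i₀ s) γ k‖ := by
  induction s using Finset.induction_on with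
  | empty =>
    intro _ _ K _
    refine ⟨K, Nat.sub_le _ _, le_rfl, ?_⟩
    have h : ∀ k, hc (insert i₀ (∅ : Finset J)) γ k = γ i₀ ^ k := by
      intro k
      induction k with
      | zero => rw [hc_zero, pow_zero]
      | succ k ih =>
        rw [hc_insert (Finset.notMem_empty i₀), ih]
        have : hc (∅ : Finset J) γ (k + 1) = 0 := by
          unfold hc fs
          rw [Finset.prod_empty, PowerSeries.coeff_one, if_neg (Nat.succ_ne_zero k)]
        rw [this, zero_add, pow_succ, mul_comm]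
    rw [h, norm_pow, Finset.card_empty, pow_zero, div_one]
  | insert i s hi ih =>
    intro hi0 hle K hK
    rw [Finset.mem_insert, not_or] at hi0
    rw [Finset.card_insert_of_notMem hi] at hK ⊢
    obtain ⟨k, h1, h2, h3⟩ := ih hi0.2 (fun j hj => hle j (Finset.mem_insert_of_mem hj)) K (by omega)
    obtain ⟨k, rfl⟩ : ∃ m, k = m + 1 := ⟨k - 1, by omega⟩
    have hni : i ∉ insert i₀ s := by
      rw [Finset.mem_insert, not_or]
      exact ⟨fun h => hi0.1 h.symm, hi⟩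
    have e := hc_insert hni γ k
    rw [Finset.insert_comm i₀ i s]
    have hg := hle i (Finset.mem_insert_self _ _)
    have h4 : ‖hc (insert i₀ s) γ (k + 1)‖ ≤ ‖hc (insert i (insert i₀ s)) γ (k + 1)‖ +
        ‖γ i₀‖ * ‖hc (insert i (insert i₀ s)) γ k‖ := by
      have e2 : hc (insert i₀ s) γ (k + 1) = hc (insert i (insert i₀ s)) γ (k + 1) -
          γ i * hc (insert i (insert i₀ s)) γ k := by rw [e]; ring
      rw [e2]
      refine (norm_sub_le _ _).trans ?_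
      rw [norm_mul]
      have := mul_le_mul_of_nonneg_right hg (norm_nonneg (hc (insert i (insert i₀ s)) γ k))
      linarith
    by_cases h5 : ‖γ i₀‖ ^ (k + 1) / 2 ^ (s.card + 1) ≤ ‖hc (insert i (insert i₀ s)) γ (k + 1)‖
    · exact ⟨k + 1, by omega, h2, h5⟩
    · refine ⟨k, by omega, by omega, ?_⟩
      push Not at h5
      have h6 : ‖γ i₀‖ ^ (k + 1) / 2 ^ s.card = 2 * (‖γ i₀‖ ^ (k + 1) / 2 ^ (s.card + 1)) := by
        rw [pow_succ 2 s.card]
        field_simp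
      have h7 : ‖γ i₀‖ * (‖γ i₀‖ ^ k / 2 ^ (s.card + 1)) ≤ ‖γ i₀‖ * ‖hc (insert i (insert i₀ s)) γ k‖ := by
        have h8 : ‖γ i₀‖ * (‖γ i₀‖ ^ k / 2 ^ (s.card + 1)) = ‖γ i₀‖ ^ (k + 1) / 2 ^ (s.card + 1) := by
          rw [pow_succ]
          ring
        rw [h8]
        linarith
      exact le_of_mul_le_mul_left h7 h0

theorem window {n : ℕ} (γ : Fin n → ℂ) (i₀ : Fin n) (h0 : 0 < ‖γ i₀‖) (hle : ∀ i, ‖γ i‖ ≤ ‖γ i₀‖) (K : ℕ)
    (hK : n - 1 ≤ K) :
    ∃ k : ℕ, K - (n - 1) ≤ k ∧ k ≤ K ∧ ‖γ i₀‖ ^ k / 2 ^ (n - 1) ≤ ‖hc Finset.univ γ k‖ := by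
  have hc1 : (Finset.univ.erase i₀).card = n - 1 := by
    rw [Finset.card_erase_of_mem (Finset.mem_univ _), Finset.card_univ, Fintype.card_fin]
  have h := window_aux γ i₀ h0 (Finset.univ.erase i₀) (Finset.notMem_erase _ _) (fun i _ => hle i) K
    (by rw [hc1]; exact hK)
  rw [hc1, Finset.insert_erase (Finset.mem_univ _)] at h
  exact h

end Pool.Agent.E8helper16.RF
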