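import Pool.Agent.E8helper16.RF.F3
import Pool.Agent.E8helper16.RF.W1

/-! The number of violations at a prime. -/

set_option autoImplicit false

namespace Pool.Agent.E8helper16.RF

open Filter Topology Complex
open scoped ComplexConjugate BigOperators
open Pool.Agent.TH949.RES (SphericalCuspForm)

variable {n : ℕ}

/-- `θ_{φ,p} = max_i |log_p |α_{i,p}||` -/
noncomputable def theta (α : Nat.Primes → Fin n → ℂ) (p : Nat.Primes) : ℝ :=
  ⨆ i, |Real.logb ((p : ℕ) : ℝ) ‖α p i‖|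

theorem exists_large {α : Nat.Primes → Fin n → ℂ} {μ : Fin n → ℂ} (hn : 2 ≤ n) (h : SphericalCuspForm α μ)
    (p : Nat.Primes) {δ : ℝ} (hδ : δ ≤ theta α p) :
    ∃ i₀, (∀ i, ‖α p i‖ ≤ ‖α p i₀‖) ∧ Real.exp (δ * Real.log ((p : ℕ) : ℝ)) ≤ ‖α p i₀‖ := by
  have : Nonempty (Fin n) := ⟨⟨0, by omega⟩⟩
  have hp0 : (0 : ℝ) < ((p : ℕ) : ℝ) := by exact_mod_cast p.2.pos
  have hp1 : (1 : ℝ) < ((p : ℕ) : ℝ) := by exact_mod_cast p.2.one_lt
  have hlp : 0 < Real.log ((p : ℕ) : ℝ) := Real.log_pos hp1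
  obtain ⟨j, hj⟩ := exists_eq_ciSup_of_finite (f := fun i => |Real.logb ((p : ℕ) : ℝ) ‖α p i‖|)
  obtain ⟨i₀, hi₀⟩ := Finite.exists_max fun i => ‖α p i‖
  refine ⟨i₀, hi₀, ?_⟩
  unfold theta at hδ
  rw [← hj] at hδ
  have hne : 0 < ‖α p j‖ := norm_pos_iff.2 (h.ne_zero p j)
  have e : |Real.logb ((p : ℕ) : ℝ) ‖α p j‖| * Real.log ((p : ℕ) : ℝ) = |Real.log ‖α p j‖| := by
    rw [Real.logb, abs_div, abs_of_pos hlp]
    field_simp
  have h1 : δ * Real.log ((p : ℕ) : ℝ) ≤ |Real.log ‖α p j‖| := by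
    rw [← e]
    exact mul_le_mul_of_nonneg_right hδ hlp.le
  rcases le_or_gt 0 (Real.log ‖α p j‖) with h2 | h2
  · rw [abs_of_nonneg h2] at h1
    refine le_trans ?_ (hi₀ j)
    rw [← Real.exp_log hne]
    exact Real.exp_le_exp.2 h1
  · rw [abs_of_neg h2] at h1
    obtain ⟨τ, hτ⟩ := h.unitary p
    have h3 : ‖α p (τ j)‖ = ‖α p j‖⁻¹ := by rw [hτ, norm_inv, RCLike.norm_conj]
    refine le_trans ?_ (hi₀ (τ j))
    have h4 : Real.exp (-Real.log ‖α p j‖) = ‖α p (τ j)‖ := by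
      rw [h3, Real.exp_neg, Real.exp_log hne]
    rw [← h4]
    exact Real.exp_le_exp.2 h1

theorem window_sum {α : Nat.Primes → Fin n → ℂ} {μ : Fin n → ℂ} (hn : 2 ≤ n) (h : SphericalCuspForm α μ)
    (p : Nat.Primes) {δ : ℝ} (hδ : δ ≤ theta α p) (K0 : ℕ) :
    1 ≤ (4 : ℝ) ^ (n - 1) * ∑ k ∈ Finset.Icc K0 (K0 + (n - 1)),
      Real.exp (-(2 * δ * (k * Real.log ((p : ℕ) : ℝ)))) * ‖hc Finset.univ (α p) k‖ ^ 2 := by
  obtain ⟨i₀, h1, h2⟩ := exists_large hn h p hδ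
  have h0 : 0 < ‖α p i₀‖ := (Real.exp_pos _).trans_le h2
  obtain ⟨k, hk1, hk2, hk3⟩ := window (α p) i₀ h0 h1 (K0 + (n - 1)) (Nat.le_add_left _ _)
  have hk1' : K0 ≤ k := by omega
  have h3 : Real.exp (δ * (k * Real.log ((p : ℕ) : ℝ))) ≤ ‖α p i₀‖ ^ k := by
    have h4 := pow_le_pow_left₀ (Real.exp_pos _).le h2 k
    rw [← Real.exp_nat_mul] at h4
    refine le_trans (le_of_eq ?_) h4
    congr 1
    ring
  have h5 : Real.exp (δ * (k * Real.log ((p : ℕ) : ℝ))) / 2 ^ (n - 1) ≤ ‖hc Finset.univ (α p) k‖ :=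
    (div_le_div_of_nonneg_right h3 (by positivity)).trans hk3
  have h6 := pow_le_pow_left₀ (by positivity) h5 2
  rw [div_pow, ← Real.exp_nat_mul] at h6
  have e4 : ((2 : ℝ) ^ (n - 1)) ^ 2 = 4 ^ (n - 1) := by
    rw [← pow_mul, mul_comm, pow_mul]
    norm_num
  rw [e4] at h6
  have h7 : (1 : ℝ) ≤ 4 ^ (n - 1) * (Real.exp (-(2 * δ * (k * Real.log ((p : ℕ) : ℝ)))) *
      ‖hc Finset.univ (α p) k‖ ^ 2) := by
    rw [div_le_iff₀ (by positivity)] at h6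
    have h8 := mul_le_mul_of_nonneg_left h6 (Real.exp_pos (-(2 * δ * (k * Real.log ((p : ℕ) : ℝ))))).le
    rw [← Real.exp_add] at h8
    have e5 : -(2 * δ * (k * Real.log ((p : ℕ) : ℝ))) + ((2 : ℕ) : ℝ) * (δ * (k * Real.log ((p : ℕ) : ℝ))) = 0 := by
      push_cast
      ring
    rw [e5, Real.exp_zero] at h8
    linarith
  refine h7.trans (mul_le_mul_of_nonneg_left ?_ (by positivity))
  exact Finset.single_le_sum (f := fun k : ℕ => Real.exp (-(2 * δ * (k * Real.log ((p : ℕ) : ℝ)))) *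
    ‖hc Finset.univ (α p) k‖ ^ 2) (fun k _ => by positivity) (Finset.mem_Icc.2 ⟨hk1', hk2⟩)

theorem delta_lt {α : Nat.Primes → Fin n → ℂ} {μ : Fin n → ℂ} (hn : 2 ≤ n) (h : SphericalCuspForm α μ)
    (hα : ∀ (p : Nat.Primes) i, ‖α p i‖ < ((p : ℕ) : ℝ) ^ (1 / 2 : ℝ))
    (p : Nat.Primes) {δ : ℝ} (hδ : δ ≤ theta α p) : δ < 1 / 2 := by
  obtain ⟨i₀, -, h2⟩ := exists_large hn h p hδ
  have hp0 : (0 : ℝ) < ((p : ℕ) : ℝ) := by exact_mod_cast p.2.pos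
  have hp1 : (1 : ℝ) < ((p : ℕ) : ℝ) := by exact_mod_cast p.2.one_lt
  have hlp : 0 < Real.log ((p : ℕ) : ℝ) := Real.log_pos hp1
  have h3 := h2.trans_lt (hα p i₀)
  rw [Real.rpow_def_of_pos hp0, Real.exp_lt_exp] at h3
  by_contra h4
  push Not at h4
  nlinarith

theorem count_p (hn : 2 ≤ n) {ε δ₀ : ℝ} (hε : 0 < ε) (hδ₀ : 0 < δ₀) : ∃ A : ℝ, 1 ≤ A ∧
    ∀ {ι : Type} [Fintype ι] (α : ι → Nat.Primes → Fin n → ℂ) (μ : ι → Fin n → ℂ), Family α μ →
      ∀ Q : ℝ, 1 ≤ Q → (∀ φ φ', cond2 (μ φ) (μ φ') 0 ≤ Q) → ∀ (p : Nat.Primes) (δ : ℝ), δ₀ ≤ δ →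
        (∀ φ, δ ≤ theta (α φ) p) →
        (Fintype.card ι : ℝ) ≤ A * (((p : ℕ) : ℝ) ^ (n : ℝ) * Q ^ (1 / (4 * δ))) ^ (1 - 2 * δ + ε) := by
  set η : ℝ := min 1 (ε / 12) with hη
  have hη0 : 0 < η := lt_min one_pos (by positivity)
  have hη1 : η ≤ 1 := min_le_left _ _
  have hηε : η ≤ ε / 12 := min_le_right _ _
  obtain ⟨A, hA, hL⟩ := large_p (n := n) hn hη0 hη1 hη0
  set B0 : ℝ := 2 * 4 ^ (n - 1) * A * n with hB0
  have hn2 : (2 : ℝ) ≤ n := by exact_mod_cast hn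
  have h4n : (1 : ℝ) ≤ 4 ^ (n - 1) := one_le_pow₀ (by norm_num)
  have hB01 : 1 ≤ B0 := by
    have h1 : (1 : ℝ) ≤ 4 ^ (n - 1) * A := one_le_mul_of_one_le_of_one_le h4n hA
    have h2 : (1 : ℝ) ≤ 4 ^ (n - 1) * A * n := one_le_mul_of_one_le_of_one_le h1 (by linarith)
    rw [hB0]
    nlinarith
  have hlB : 0 ≤ Real.log B0 := Real.log_nonneg hB01
  refine ⟨B0 * Real.exp (Real.log B0 / δ₀), ?_, fun {ι} _ α μ hF Q hQ1 hQ p δ hδ hall => ?_⟩
  · have : 1 ≤ Real.exp (Real.log B0 / δ₀) := Real.one_le_exp (by positivity)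
    exact one_le_mul_of_one_le_of_one_le hB01 this
  have hQ0 : 0 < Q := by linarith
  have hp0 : (0 : ℝ) < ((p : ℕ) : ℝ) := by exact_mod_cast p.2.pos
  have hp1 : (1 : ℝ) < ((p : ℕ) : ℝ) := by exact_mod_cast p.2.one_lt
  rcases isEmpty_or_nonempty ι with hι | ⟨⟨φ₀⟩⟩
  · rw [Fintype.card_eq_zero]
    push_cast
    positivity
  have hδ2 := delta_lt hn (hF.form φ₀) (hF.local_bound φ₀) p (hall φ₀)
  have hδ0 : 0 < δ := by linarith
  set lp : ℝ := Real.log ((p : ℕ) : ℝ) with hlp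
  have hlp0 : 0 < lp := Real.log_pos hp1
  set LQ : ℝ := Real.log Q with hLQ
  have hLQ0 : 0 ≤ LQ := Real.log_nonneg hQ1
  set e : ℝ := η + (1 + 2 * η) / 2 with he
  set M : ℝ := (Fintype.card ι : ℝ) with hM
  have hM0 : 0 ≤ M := by positivity
  set K0 : ℕ := ⌈(Real.log B0 + e * LQ) / (2 * δ * lp)⌉₊ with hK0
  have hK1 : (Real.log B0 + e * LQ) / (2 * δ * lp) ≤ (K0 : ℝ) := Nat.le_ceil _
  have he0 : 0 ≤ e := by positivity
  have hK2 : (K0 : ℝ) < (Real.log B0 + e * LQ) / (2 * δ * lp) + 1 :=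
    Nat.ceil_lt_add_one (by positivity)
  have hK1' : Real.log B0 + e * LQ ≤ 2 * δ * (K0 * lp) := by
    rw [div_le_iff₀ (by positivity)] at hK1
    linarith
  have hK2' : (K0 : ℝ) * lp ≤ (Real.log B0 + e * LQ) / (2 * δ) + lp := by
    have h1 := mul_le_mul_of_nonneg_right hK2.le hlp0.le
    refine h1.trans (le_of_eq ?_)
    field_simp
  -- the sum over the window
  have h1 : M ≤ 4 ^ (n - 1) * ∑ k ∈ Finset.Icc K0 (K0 + (n - 1)),
      Real.exp (-(2 * δ * (k * lp))) * ∑ φ, ‖hc Finset.univ (α φ p) k‖ ^ 2 := by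
    calc M = ∑ _φ : ι, (1 : ℝ) := by rw [Finset.sum_const, Finset.card_univ, nsmul_eq_mul, mul_one]
      _ ≤ ∑ φ : ι, (4 : ℝ) ^ (n - 1) * ∑ k ∈ Finset.Icc K0 (K0 + (n - 1)),
          Real.exp (-(2 * δ * (k * lp))) * ‖hc Finset.univ (α φ p) k‖ ^ 2 :=
        Finset.sum_le_sum fun φ _ => window_sum hn (hF.form φ) p (hall φ) K0
      _ = _ := by
        rw [← Finset.mul_sum, Finset.sum_comm]
        congr 1
        refine Finset.sum_congr rfl fun k _ => ?_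
        rw [Finset.mul_sum]
  have h2 : ∀ k ∈ Finset.Icc K0 (K0 + (n - 1)),
      Real.exp (-(2 * δ * (k * lp))) * ∑ φ, ‖hc Finset.univ (α φ p) k‖ ^ 2 ≤
        A * (Real.exp (η * LQ + (1 + η - 2 * δ) * ((K0 + (n - 1 : ℕ) : ℕ) * lp)) +
          M * Real.exp (e * LQ - 2 * δ * (K0 * lp))) := by
    intro k hk
    rw [Finset.mem_Icc] at hk
    have hkl : (K0 : ℝ) ≤ k := by exact_mod_cast hk.1
    have hku : (k : ℝ) ≤ ((K0 + (n - 1 : ℕ) : ℕ) : ℝ) := by exact_mod_cast hk.2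
    have h3 := mul_le_mul_of_nonneg_left (hL α μ hF Q hQ1 hQ p k) (Real.exp_pos (-(2 * δ * (k * lp)))).le
    refine h3.trans ?_
    rw [← hlp, ← hM, Real.rpow_def_of_pos hQ0, Real.rpow_def_of_pos hQ0, ← hLQ]
    have e1 : Real.exp (-(2 * δ * (k * lp))) * (A * (Real.exp (LQ * η) * Real.exp ((1 + η) * (k * lp)) +
        M * Real.exp (LQ * (η + (1 + 2 * η) / 2)))) =
        A * (Real.exp (η * LQ + (1 + η - 2 * δ) * (k * lp)) + M * Real.exp (e * LQ - 2 * δ * (k * lp))) := by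
      have e2 : Real.exp (η * LQ + (1 + η - 2 * δ) * (k * lp)) =
          Real.exp (-(2 * δ * (k * lp))) * (Real.exp (LQ * η) * Real.exp ((1 + η) * (k * lp))) := by
        rw [← Real.exp_add, ← Real.exp_add]
        congr 1
        ring
      have e3 : Real.exp (e * LQ - 2 * δ * (k * lp)) =
          Real.exp (-(2 * δ * (k * lp))) * Real.exp (LQ * (η + (1 + 2 * η) / 2)) := by
        rw [← Real.exp_add]
        congr 1
        rw [he]
        ring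
      rw [e2, e3]
      ring
    rw [e1]
    refine mul_le_mul_of_nonneg_left (add_le_add (Real.exp_le_exp.2 ?_)
      (mul_le_mul_of_nonneg_left (Real.exp_le_exp.2 ?_) hM0)) (by linarith)
    · have h5 : (k : ℝ) * lp ≤ ((K0 + (n - 1 : ℕ) : ℕ) : ℝ) * lp := mul_le_mul_of_nonneg_right hku hlp0.le
      have h6 : 0 ≤ 1 + η - 2 * δ := by linarith
      have := mul_le_mul_of_nonneg_left h5 h6
      linarith
    · have h5 : (K0 : ℝ) * lp ≤ k * lp := mul_le_mul_of_nonneg_right hkl hlp0.le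
      have := mul_le_mul_of_nonneg_left h5 (by linarith : 0 ≤ 2 * δ)
      linarith
  have h3 : M ≤ 4 ^ (n - 1) * (n * (A * (Real.exp (η * LQ + (1 + η - 2 * δ) * ((K0 + (n - 1 : ℕ) : ℕ) * lp)) +
      M * Real.exp (e * LQ - 2 * δ * (K0 * lp))))) := by
    refine h1.trans (mul_le_mul_of_nonneg_left ?_ (by positivity))
    refine (Finset.sum_le_card_nsmul _ _ _ h2).trans (le_of_eq ?_)
    have hc : (Finset.Icc K0 (K0 + (n - 1))).card = n := by
      rw [Nat.card_Icc]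
      omega
    rw [hc, nsmul_eq_mul]
  -- absorb the off-diagonal terms
  have h4 : Real.exp (e * LQ - 2 * δ * (K0 * lp)) ≤ 1 / B0 := by
    have : e * LQ - 2 * δ * (K0 * lp) ≤ -Real.log B0 := by linarith
    refine (Real.exp_le_exp.2 this).trans (le_of_eq ?_)
    rw [Real.exp_neg, Real.exp_log (by linarith), one_div]
  have h5 : M ≤ B0 * Real.exp (η * LQ + (1 + η - 2 * δ) * ((K0 + (n - 1 : ℕ) : ℕ) * lp)) := by
    set X : ℝ := Real.exp (η * LQ + (1 + η - 2 * δ) * ((K0 + (n - 1 : ℕ) : ℕ) * lp)) with hX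
    have h6 : (4 : ℝ) ^ (n - 1) * (n * (A * (X + M * Real.exp (e * LQ - 2 * δ * (K0 * lp))))) ≤
        B0 / 2 * (X + M * (1 / B0)) := by
      have e7 : (4 : ℝ) ^ (n - 1) * (n * (A * (X + M * Real.exp (e * LQ - 2 * δ * (K0 * lp))))) =
          B0 / 2 * (X + M * Real.exp (e * LQ - 2 * δ * (K0 * lp))) := by
        rw [hB0]
        ring
      rw [e7]
      refine mul_le_mul_of_nonneg_left ?_ (by linarith)
      have := mul_le_mul_of_nonneg_left h4 hM0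
      linarith
    have h7 : B0 / 2 * (X + M * (1 / B0)) = B0 / 2 * X + M / 2 := by
      field_simp
    linarith
  -- the exponent
  refine h5.trans ?_
  have e8 : (((p : ℕ) : ℝ) ^ (n : ℝ) * Q ^ (1 / (4 * δ))) ^ (1 - 2 * δ + ε) =
      Real.exp ((1 - 2 * δ + ε) * (n * lp + LQ / (4 * δ))) := by
    rw [Real.rpow_def_of_pos hp0, Real.rpow_def_of_pos hQ0, ← Real.exp_add, ← Real.exp_mul]
    congr 1
    rw [← hlp, ← hLQ]
    ring
  rw [e8, mul_assoc B0, ← Real.exp_add]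
  refine mul_le_mul_of_nonneg_left (Real.exp_le_exp.2 ?_) (by linarith)
  have hcast : (((K0 + (n - 1 : ℕ) : ℕ)) : ℝ) = K0 + (n - 1) := by
    push_cast [Nat.cast_sub (by omega : 1 ≤ n)]
    ring
  rw [hcast]
  have h9 : ((K0 : ℝ) + (n - 1)) * lp ≤ (Real.log B0 + e * LQ) / (2 * δ) + n * lp := by
    have : ((K0 : ℝ) + (n - 1)) * lp = K0 * lp + (n - 1) * lp := by ring
    rw [this]
    linarith
  have hpos : 0 ≤ 1 + η - 2 * δ := by linarith
  have h10 := mul_le_mul_of_nonneg_left h9 hpos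
  have h11 : (1 + η - 2 * δ) * ((Real.log B0 + e * LQ) / (2 * δ) + n * lp) =
      (1 + η - 2 * δ) * (Real.log B0 / (2 * δ)) + (1 + η - 2 * δ) * (e * LQ / (2 * δ)) +
        (1 + η - 2 * δ) * (n * lp) := by ring
  have h12 : (1 + η - 2 * δ) * (Real.log B0 / (2 * δ)) ≤ Real.log B0 / δ₀ := by
    have a1 : (1 + η - 2 * δ) ≤ 2 := by linarith
    have a2 : Real.log B0 / (2 * δ) ≤ Real.log B0 / (2 * δ₀) :=
      div_le_div_of_nonneg_left hlB (by linarith) (by linarith)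
    have a3 : 0 ≤ Real.log B0 / (2 * δ) := by positivity
    calc _ ≤ 2 * (Real.log B0 / (2 * δ)) := mul_le_mul_of_nonneg_right a1 a3
      _ ≤ 2 * (Real.log B0 / (2 * δ₀)) := by linarith
      _ = _ := by field_simp
  have h13 : (1 + η - 2 * δ) * (n * lp) ≤ (1 - 2 * δ + ε) * (n * lp) :=
    mul_le_mul_of_nonneg_right (by linarith) (by positivity)
  have h14 : η * LQ + (1 + η - 2 * δ) * (e * LQ / (2 * δ)) ≤ (1 - 2 * δ + ε) * (LQ / (4 * δ)) := by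
    have a1 : 4 * δ * η + 2 * (1 + η - 2 * δ) * e ≤ 1 - 2 * δ + ε := by
      rw [he]
      nlinarith
    have a2 := mul_le_mul_of_nonneg_right a1 (by positivity : 0 ≤ LQ / (4 * δ))
    refine le_trans (le_of_eq ?_) a2
    field_simp
    ring
  have h15 : (1 - 2 * δ + ε) * (n * lp + LQ / (4 * δ)) =
      (1 - 2 * δ + ε) * (n * lp) + (1 - 2 * δ + ε) * (LQ / (4 * δ)) := by ring
  rw [h15]
  linarith

end Pool.Agent.E8helper16.RF
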