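import Pool.Agent.TH949.RES.Gam

/-! A bound for quotients of values of `Γ_ℝ`, uniform in a strip. -/

set_option autoImplicit false

namespace Pool.Agent.E8helper16.RF

open Complex Filter Topology Set

theorem gr_inv_diff : Differentiable ℂ fun s => (Gammaℝ s)⁻¹ := Complex.differentiable_Gammaℝ_inv

theorem ratio_large : ∃ K T0 : ℝ, 0 ≤ K ∧ 1 ≤ T0 ∧ ∀ σ a t : ℝ, -2 ≤ σ → σ ≤ 1 → 0 ≤ a → a ≤ 3 → T0 ≤ t →
    Gammaℝ (σ + t * I) ≠ 0 ∧
    ‖Gammaℝ (((σ + a : ℝ) : ℂ) + t * I)‖ ≤ ‖Gammaℝ (σ + t * I)‖ * (Real.exp (3 * K) * t ^ (a / 2)) := by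
  obtain ⟨K, T0, hK, hT0, h⟩ := Pool.Agent.W355.LJ.gr_logd 0
  simp only [add_zero] at h
  refine ⟨K, max T0 8, hK, hT0.trans (le_max_left _ _), fun σ₁ a t h1 h2 h3 h4 ht => ?_⟩
  set σ₂ : ℝ := σ₁ + a with hσ₂
  have h12 : σ₁ ≤ σ₂ := by linarith
  have ht1 : T0 ≤ t := (le_max_left _ _).trans ht
  have ht2 : 8 ≤ t := (le_max_right _ _).trans ht
  have ht0 : 0 < t := by linarith
  have hlog : 0 ≤ Real.log t := Real.log_nonneg (hT0.trans ht1)
  set f : ℝ → ℂ := fun x => Gammaℝ (x + t * I) with hf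
  set f' : ℝ → ℂ := fun x => Gammaℝ (x + t * I) * logDeriv (fun s : ℂ => Gammaℝ s) (x + t * I)
    with hf'
  have hreg : ∀ x ∈ Icc σ₁ σ₂, T0 ≤ ((x : ℂ) + t * I).im ∧ |((x : ℂ) + t * I).re| ≤ 3 / 4 * ((x : ℂ) + t * I).im := by
    intro x hx
    have e1 : ((x : ℂ) + t * I).im = t := by simp
    have e2 : ((x : ℂ) + t * I).re = x := by simp
    rw [e1, e2]
    refine ⟨ht1, ?_⟩
    rw [abs_le]
    constructor <;> linarith [hx.1, hx.2]
  have hder : ∀ x ∈ Icc σ₁ σ₂, HasDerivAt f (f' x) x := by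
    intro x hx
    obtain ⟨a1, a2⟩ := hreg x hx
    obtain ⟨b1, b2, -⟩ := h _ a1 a2
    have h1 := Pool.Agent.TH949.RES.hd_of b2 b1
    have h2 : HasDerivAt (fun x : ℝ => (x : ℂ) + t * I) 1 x := (Complex.ofRealCLM.hasDerivAt (x := x)).add_const _
    have h3 := h1.comp x h2
    rw [mul_one] at h3
    exact h3
  have hbd : ∀ x ∈ Icc σ₁ σ₂, ‖f' x‖ ≤ (1 / 2 * Real.log t + K) * ‖f x‖ + 0 := by
    intro x hx
    obtain ⟨a1, a2⟩ := hreg x hx
    obtain ⟨-, -, b3⟩ := h _ a1 a2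
    have e1 : ((x : ℂ) + t * I).im = t := by simp
    rw [e1] at b3
    have h1 : ‖logDeriv (fun s : ℂ => Gammaℝ s) (x + t * I)‖ ≤ 1 / 2 * Real.log t + K := by
      have h2 := norm_le_norm_add_norm_sub' (logDeriv (fun s : ℂ => Gammaℝ s) (x + t * I))
        (((1 / 2 * Real.log t : ℝ) : ℂ))
      rw [Complex.norm_real, Real.norm_of_nonneg (by positivity)] at h2
      linarith
    rw [hf', hf]
    simp only
    rw [norm_mul, add_zero, mul_comm]
    exact mul_le_mul_of_nonneg_right h1 (norm_nonneg _)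
  have hg := norm_le_gronwallBound_of_norm_deriv_right_le (f := f) (f' := f') (δ := ‖f σ₁‖)
    (K := 1 / 2 * Real.log t + K) (ε := 0) (a := σ₁) (b := σ₂)
    (fun x hx => (hder x hx).continuousAt.continuousWithinAt)
    (fun x hx => (hder x (Ico_subset_Icc_self hx)).hasDerivWithinAt) le_rfl
    (fun x hx => hbd x (Ico_subset_Icc_self hx)) σ₂ (right_mem_Icc.2 h12)
  rw [gronwallBound_ε0] at hg
  refine ⟨?_, hg.trans ?_⟩
  · obtain ⟨a1, a2⟩ := hreg σ₁ (left_mem_Icc.2 h12)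
    exact (h _ a1 a2).1
  · refine mul_le_mul_of_nonneg_left ?_ (norm_nonneg _)
    rw [Real.rpow_def_of_pos ht0, ← Real.exp_add]
    refine Real.exp_le_exp.2 ?_
    have e : σ₂ - σ₁ = a := by rw [hσ₂]; ring
    rw [e]
    nlinarith

theorem norm_gr_conj (w : ℂ) : ‖Gammaℝ ((starRingEnd ℂ) w)‖ = ‖Gammaℝ w‖ :=
  Pool.Agent.W189.TP.norm_Gammaℝ_conj w

theorem ratio {η : ℝ} (h0 : 0 < η) (h1 : η ≤ 1) : ∃ C : ℝ, 0 < C ∧ ∀ w : ℂ, -1 - η ≤ w.re → w.re ≤ 1 →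
    ‖Gammaℝ (w + (1 + 2 * η : ℝ))‖ * ‖(Gammaℝ w)⁻¹‖ ≤ C * (1 + |w.im|) ^ ((1 + 2 * η) / 2) := by
  obtain ⟨K, T0, hK, hT0, hL⟩ := ratio_large
  set S : Set ℂ := Icc (-1 - η) 1 ×ℂ Icc (-T0) T0 with hS
  have hSc : IsCompact S := isCompact_Icc.reProdIm isCompact_Icc
  have hcont : ContinuousOn (fun w : ℂ => ‖Gammaℝ (w + (1 + 2 * η : ℝ))‖ * ‖(Gammaℝ w)⁻¹‖) S := by
    refine ContinuousOn.mul (ContinuousOn.norm ?_) (gr_inv_diff.continuous.norm.continuousOn)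
    intro w hw
    have hre : 0 < (w + ((1 + 2 * η : ℝ) : ℂ)).re := by
      rw [Complex.add_re, Complex.ofReal_re]
      have := hw.1.1
      linarith
    have hd : ContinuousAt Gammaℝ (w + ((1 + 2 * η : ℝ) : ℂ)) := by
      have h2 : ContinuousAt (fun s => ((Gammaℝ s)⁻¹)⁻¹) (w + ((1 + 2 * η : ℝ) : ℂ)) :=
        (gr_inv_diff.continuous.continuousAt).inv₀ (inv_ne_zero (Complex.Gammaℝ_ne_zero_of_re_pos hre))
      simpa only [inv_inv] using h2
    exact (ContinuousAt.comp (f := fun w : ℂ => w + ((1 + 2 * η : ℝ) : ℂ)) hd (by fun_prop)).continuousWithinAt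
  obtain ⟨B, hB⟩ := hSc.exists_bound_of_continuousOn hcont
  have hB0 : 0 ≤ max B 0 := le_max_right _ _
  refine ⟨max B 0 + Real.exp (3 * K), by positivity, fun w hw1 hw2 => ?_⟩
  have hp1 : (1 : ℝ) ≤ (1 + |w.im|) ^ ((1 + 2 * η) / 2) :=
    Real.one_le_rpow (by linarith [abs_nonneg w.im]) (by linarith)
  by_cases him : |w.im| ≤ T0
  · have hwS : w ∈ S := ⟨⟨hw1, hw2⟩, abs_le.1 him⟩
    have h2 := hB w hwS
    rw [norm_mul, norm_norm, norm_norm] at h2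
    have h3 : B ≤ max B 0 := le_max_left _ _
    calc _ ≤ max B 0 * 1 := by linarith
      _ ≤ (max B 0 + Real.exp (3 * K)) * (1 + |w.im|) ^ ((1 + 2 * η) / 2) :=
          mul_le_mul (by linarith [Real.exp_pos (3 * K)]) hp1 zero_le_one (by positivity)
  · push Not at him
    -- reduce to the upper half plane
    have key : ∀ v : ℂ, -1 - η ≤ v.re → v.re ≤ 1 → T0 < v.im →
        ‖Gammaℝ (v + (1 + 2 * η : ℝ))‖ * ‖(Gammaℝ v)⁻¹‖ ≤ Real.exp (3 * K) * v.im ^ ((1 + 2 * η) / 2) := by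
      intro v h2 h3 h4
      obtain ⟨h5, h6⟩ := hL v.re (1 + 2 * η) v.im (by linarith) h3 (by linarith) (by linarith) h4.le
      have e1 : (v.re : ℂ) + v.im * I = v := Complex.re_add_im v
      have e2 : ((v.re + (1 + 2 * η) : ℝ) : ℂ) + v.im * I = v + ((1 + 2 * η : ℝ) : ℂ) := by
        conv_rhs => rw [← Complex.re_add_im v]
        push_cast
        ring
      rw [e1] at h5 h6
      rw [e2] at h6
      rw [norm_inv, ← div_eq_mul_inv, div_le_iff₀ (norm_pos_iff.2 h5)]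
      exact h6.trans (le_of_eq (by ring))
    have hfin : ‖Gammaℝ (w + (1 + 2 * η : ℝ))‖ * ‖(Gammaℝ w)⁻¹‖ ≤
        Real.exp (3 * K) * |w.im| ^ ((1 + 2 * η) / 2) := by
      rcases le_or_gt 0 w.im with h2 | h2
      · rw [abs_of_nonneg h2] at him ⊢
        exact key w hw1 hw2 him
      · rw [abs_of_neg h2] at him ⊢
        have h3 := key ((starRingEnd ℂ) w) (by rw [Complex.conj_re]; exact hw1)
          (by rw [Complex.conj_re]; exact hw2) (by rw [Complex.conj_im]; exact him)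
        rw [Complex.conj_im] at h3
        have e1 : (starRingEnd ℂ) w + ((1 + 2 * η : ℝ) : ℂ) = (starRingEnd ℂ) (w + ((1 + 2 * η : ℝ) : ℂ)) := by
          rw [map_add, Complex.conj_ofReal]
        rw [e1, norm_inv, norm_gr_conj, norm_gr_conj, ← norm_inv] at h3
        exact h3
    refine hfin.trans ?_
    refine mul_le_mul (by linarith) ?_ (Real.rpow_nonneg (abs_nonneg _) _) (by positivity)
    exact Real.rpow_le_rpow (abs_nonneg _) (by linarith) (by linarith)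

end Pool.Agent.E8helper16.RF
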