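import Mathlib

/-! Positivity of exponentials of positive kernels, tested with a positive weight on a vertical line. -/

set_option autoImplicit false

namespace Pool.Agent.E8helper16.RF

open MeasureTheory Complex Filter Topology
open scoped ComplexConjugate BigOperators

variable {ι : Type*} [Fintype ι] {X : Type*} [Countable X]

/-- the kernel `∑_x u_x(φ) conj u_x(φ') exp (- (c + i t) ℓ_x)` -/
noncomputable def FK (u : X → ι → ℂ) (l : X → ℝ) (c : ℝ) (φ φ' : ι) (t : ℝ) : ℂ :=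
  ∑' x, u x φ * conj (u x φ') * cexp (-((c + t * I) * l x))

/-- the quadratic form -/
noncomputable def JJ (E : ι → ι → ℝ → ℂ) (g : ℝ → ℂ) (c : ℝ) (a : ι → ℂ) (y : ℝ) : ℂ :=
  ∑ φ, ∑ φ', a φ * conj (a φ') * ∫ t : ℝ, E φ φ' t * (g t * cexp ((c + t * I) * y))

/-- weights -/
def Wt (g : ℝ → ℂ) (c : ℝ) (W : ℝ → ℝ) : Prop :=
  Integrable g ∧ (∀ y, 0 ≤ W y) ∧ ∀ y : ℝ, ∫ t : ℝ, g t * cexp ((c + t * I) * y) = W y

theorem norm_line (c t l : ℝ) : ‖cexp (-((c + t * I) * l))‖ = Real.exp (-(c * l)) := by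
  rw [Complex.norm_exp]
  congr 1
  simp

theorem norm_line' (c t y : ℝ) : ‖cexp ((c + t * I) * y)‖ = Real.exp (c * y) := by
  rw [Complex.norm_exp]
  congr 1
  simp

theorem cs_term (A B e : ℝ) (he : 0 ≤ e) (hA : 0 ≤ A) (hB : 0 ≤ B) : A * B * e ≤ A ^ 2 * e + B ^ 2 * e := by
  have h : A * B ≤ A ^ 2 + B ^ 2 := by nlinarith [sq_nonneg (A - B)]
  nlinarith [mul_le_mul_of_nonneg_right h he]

variable {u : X → ι → ℂ} {l : X → ℝ} {c : ℝ}

theorem summ_pair (hu : ∀ φ, Summable fun x => ‖u x φ‖ ^ 2 * Real.exp (-(c * l x))) (φ φ' : ι) :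
    Summable fun x => ‖u x φ‖ * ‖u x φ'‖ * Real.exp (-(c * l x)) :=
  Summable.of_nonneg_of_le (fun _ => by positivity)
    (fun x => cs_term _ _ _ (Real.exp_pos _).le (norm_nonneg _) (norm_nonneg _)) ((hu φ).add (hu φ'))

theorem FK_norm_term (φ φ' : ι) (t : ℝ) (x : X) :
    ‖u x φ * conj (u x φ') * cexp (-((c + t * I) * l x))‖ = ‖u x φ‖ * ‖u x φ'‖ * Real.exp (-(c * l x)) := by
  rw [norm_mul, norm_mul, norm_line, RCLike.norm_conj]

theorem FK_cont (hu : ∀ φ, Summable fun x => ‖u x φ‖ ^ 2 * Real.exp (-(c * l x))) (φ φ' : ι) :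
    Continuous (FK u l c φ φ') := by
  unfold FK
  refine continuous_tsum (fun x => by fun_prop) (summ_pair hu φ φ') fun x t => ?_
  rw [FK_norm_term]

theorem FK_bound (hu : ∀ φ, Summable fun x => ‖u x φ‖ ^ 2 * Real.exp (-(c * l x))) :
    ∃ B : ℝ, 0 ≤ B ∧ ∀ φ φ' t, ‖FK u l c φ φ' t‖ ≤ B := by
  refine ⟨∑ φ, ∑ φ', ∑' x, ‖u x φ‖ * ‖u x φ'‖ * Real.exp (-(c * l x)), ?_, fun φ φ' t => ?_⟩
  · exact Finset.sum_nonneg fun φ _ => Finset.sum_nonneg fun φ' _ => tsum_nonneg fun x => by positivity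
  · have h1 : ‖FK u l c φ φ' t‖ ≤ ∑' x, ‖u x φ‖ * ‖u x φ'‖ * Real.exp (-(c * l x)) := by
      unfold FK
      refine (norm_tsum_le_tsum_norm ?_).trans (le_of_eq ?_)
      · simp_rw [FK_norm_term]
        exact summ_pair hu φ φ'
      · simp_rw [FK_norm_term]
    refine h1.trans ?_
    refine (Finset.single_le_sum (f := fun φ' => ∑' x, ‖u x φ‖ * ‖u x φ'‖ * Real.exp (-(c * l x)))
      (fun φ' _ => tsum_nonneg fun x => by positivity) (Finset.mem_univ φ')).trans ?_
    exact Finset.single_le_sum (f := fun φ => ∑ φ', ∑' x, ‖u x φ‖ * ‖u x φ'‖ * Real.exp (-(c * l x)))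
      (fun φ _ => Finset.sum_nonneg fun φ' _ => tsum_nonneg fun x => by positivity) (Finset.mem_univ φ)

/-- integrability against a bounded continuous function -/
theorem int_mul {g : ℝ → ℂ} (hg : Integrable g) {E : ℝ → ℂ} (hE : Continuous E) {B : ℝ} (hB : ∀ t, ‖E t‖ ≤ B)
    (y : ℝ) : Integrable fun t : ℝ => E t * (g t * cexp ((c + t * I) * y)) := by
  have h1 : Integrable fun t : ℝ => cexp ((c + t * I) * y) * g t := by
    refine hg.bdd_mul (c := Real.exp (c * y)) (by fun_prop : Continuous fun t : ℝ =>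
      cexp ((c + t * I) * y)).aestronglyMeasurable (Eventually.of_forall fun t => (norm_line' c t y).le)
  have h2 : Integrable fun t : ℝ => g t * cexp ((c + t * I) * y) := by simpa only [mul_comm] using h1
  exact h2.bdd_mul (c := B) hE.aestronglyMeasurable (Eventually.of_forall hB)

theorem HasSum.congr_fun' {Y : Type*} {f g : Y → ℂ} {z : ℂ} (h : HasSum f z) (hfg : ∀ x, g x = f x) : HasSum g z := by
  have : g = f := funext hfg
  rw [this]
  exact h

/-- one factor -/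
theorem JJ_mul_FK (hu : ∀ φ, Summable fun x => ‖u x φ‖ ^ 2 * Real.exp (-(c * l x))) {g : ℝ → ℂ}
    (hg : Integrable g) {E : ι → ι → ℝ → ℂ} (hE : ∀ φ φ', Continuous (E φ φ')) {B : ℝ}
    (hB : ∀ φ φ' t, ‖E φ φ' t‖ ≤ B) (a : ι → ℂ) (y : ℝ) :
    HasSum (fun x => JJ E g c (fun φ => a φ * u x φ) (y - l x))
      (JJ (fun φ φ' t => FK u l c φ φ' t * E φ φ' t) g c a y) := by
  unfold JJ
  refine hasSum_sum fun φ _ => hasSum_sum fun φ' _ => ?_
  have hint := int_mul (c := c) hg (hE φ φ') (hB φ φ') y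
  set H : ℝ → ℂ := fun t => E φ φ' t * (g t * cexp ((c + t * I) * y)) with hH
  have hk : ∀ x, Integrable fun t : ℝ => u x φ * conj (u x φ') * cexp (-((c + t * I) * l x)) * H t := by
    intro x
    refine hint.bdd_mul (c := ‖u x φ‖ * ‖u x φ'‖ * Real.exp (-(c * l x)))
      (by fun_prop : Continuous fun t : ℝ => u x φ * conj (u x φ') * cexp (-((c + t * I) * l x))).aestronglyMeasurable
      (Eventually.of_forall fun t => (FK_norm_term φ φ' t x).le)
  have hs : HasSum (fun x => ∫ t : ℝ, u x φ * conj (u x φ') * cexp (-((c + t * I) * l x)) * H t)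
      (∫ t : ℝ, ∑' x, u x φ * conj (u x φ') * cexp (-((c + t * I) * l x)) * H t) := by
    refine hasSum_integral_of_summable_integral_norm hk ?_
    have e : ∀ x, ∫ t : ℝ, ‖u x φ * conj (u x φ') * cexp (-((c + t * I) * l x)) * H t‖ =
        ‖u x φ‖ * ‖u x φ'‖ * Real.exp (-(c * l x)) * ∫ t : ℝ, ‖H t‖ := by
      intro x
      rw [← integral_const_mul]
      refine integral_congr_ae (Eventually.of_forall fun t => ?_)
      simp only
      rw [norm_mul, FK_norm_term]
    simp_rw [e]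
    exact (summ_pair hu φ φ').mul_right _
  have e2 : (∫ t : ℝ, ∑' x, u x φ * conj (u x φ') * cexp (-((c + t * I) * l x)) * H t) =
      ∫ t : ℝ, FK u l c φ φ' t * E φ φ' t * (g t * cexp ((c + t * I) * y)) := by
    refine integral_congr_ae (Eventually.of_forall fun t => ?_)
    simp only
    rw [tsum_mul_right]
    unfold FK
    rw [hH]
    ring
  rw [e2] at hs
  have e3 : (fun x => a φ * u x φ * conj (a φ' * u x φ') * ∫ t : ℝ, E φ φ' t *
      (g t * cexp ((c + t * I) * ((y - l x : ℝ) : ℂ)))) =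
      fun x => a φ * conj (a φ') * ∫ t : ℝ, u x φ * conj (u x φ') * cexp (-((c + t * I) * l x)) * H t := by
    funext x
    have e4 : (∫ t : ℝ, u x φ * conj (u x φ') * cexp (-((c + t * I) * l x)) * H t) =
        (u x φ * conj (u x φ')) * ∫ t : ℝ, E φ φ' t * (g t * cexp ((c + t * I) * ((y - l x : ℝ) : ℂ))) := by
      rw [← integral_const_mul]
      refine integral_congr_ae (Eventually.of_forall fun t => ?_)
      simp only [hH]
      have e5 : cexp ((c + t * I) * ((y - l x : ℝ) : ℂ)) =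
          cexp (-((c + t * I) * l x)) * cexp ((c + t * I) * y) := by
        rw [← Complex.exp_add]
        congr 1
        push_cast
        ring
      rw [e5]
      ring
    rw [e4, map_mul]
    ring
  rw [e3]
  exact hs.mul_left _

/-- real values, bounded from below -/
def Low (w : ℝ) (z : ℂ) : Prop := ∃ r : ℝ, w ≤ r ∧ z = (r : ℂ)

theorem Low.mono {w w' : ℝ} {z : ℂ} (h : Low w z) (hw : w' ≤ w) : Low w' z := by
  obtain ⟨r, h1, h2⟩ := h
  exact ⟨r, hw.trans h1, h2⟩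

theorem low0_hasSum {Y : Type*} {f : Y → ℂ} {z : ℂ} (hf : HasSum f z) (h : ∀ x, Low 0 (f x)) : Low 0 z := by
  choose r hr1 hr2 using h
  have h0 : f = fun x => (r x : ℂ) := funext hr2
  rw [h0] at hf
  have h2 := Complex.hasSum_re hf
  have h3 := Complex.hasSum_im hf
  simp only [Complex.ofReal_re, Complex.ofReal_im] at h2 h3
  refine ⟨z.re, h2.nonneg hr1, ?_⟩
  apply Complex.ext
  · simp
  · rw [Complex.ofReal_im]
    exact h3.unique hasSum_zero

theorem low_hasSum {Y : Type*} {f : Y → ℂ} {z : ℂ} {w : ℝ} (hf : HasSum f z) (h : ∀ x, Low 0 (f x))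
    (x0 : Y) (hw : Low w (f x0)) : Low w z := by
  classical
  obtain ⟨r0, h1, h2⟩ := hw
  obtain ⟨r, hr, hz⟩ := low0_hasSum hf h
  choose q hq1 hq2 using h
  have h0 : f = fun x => (q x : ℂ) := funext hq2
  rw [h0] at hf
  have h3 := Complex.hasSum_re hf
  simp only [Complex.ofReal_re] at h3
  have h4 := le_hasSum h3 x0 fun x _ => hq1 x
  have h5 : q x0 = r0 := by
    have := (hq2 x0).symm.trans h2
    exact_mod_cast this
  refine ⟨r, ?_, hz⟩
  rw [hz, Complex.ofReal_re] at h4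
  linarith

theorem Low.real_mul {w q : ℝ} {z : ℂ} (h : Low w z) (hq : 0 ≤ q) : Low (q * w) ((q : ℂ) * z) := by
  obtain ⟨r, h1, h2⟩ := h
  refine ⟨q * r, mul_le_mul_of_nonneg_left h1 hq, ?_⟩
  rw [h2]
  push_cast
  rfl

theorem JJ_one {g : ℝ → ℂ} {W : ℝ → ℝ} (hg : Wt g c W) (a : ι → ℂ) (y : ℝ) :
    Low (W y * ‖∑ φ, a φ‖ ^ 2) (JJ (fun _ _ _ => 1) g c a y) := by
  refine ⟨_, le_rfl, ?_⟩
  unfold JJ
  simp only [one_mul]
  rw [hg.2.2 y]
  have h1 : (∑ φ, ∑ φ', a φ * conj (a φ') * (W y : ℂ)) = (∑ φ, a φ) * conj (∑ φ, a φ) * (W y : ℂ) := by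
    rw [map_sum, Finset.sum_mul_sum, Finset.sum_mul]
    exact Finset.sum_congr rfl fun φ _ => (Finset.sum_mul _ _ _).symm
  rw [h1, Complex.mul_conj, Complex.normSq_eq_norm_sq]
  push_cast
  ring

theorem pow_cont (hu : ∀ φ, Summable fun x => ‖u x φ‖ ^ 2 * Real.exp (-(c * l x))) {E : ι → ι → ℝ → ℂ}
    (hE : ∀ φ φ', Continuous (E φ φ')) (N : ℕ) (φ φ' : ι) :
    Continuous fun t => FK u l c φ φ' t ^ N * E φ φ' t :=
  ((FK_cont hu φ φ').pow N).mul (hE φ φ')

theorem pow_low (hu : ∀ φ, Summable fun x => ‖u x φ‖ ^ 2 * Real.exp (-(c * l x))) {g : ℝ → ℂ}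
    (hg : Integrable g) {E : ι → ι → ℝ → ℂ} (hE : ∀ φ φ', Continuous (E φ φ')) {B : ℝ}
    (hB : ∀ φ φ' t, ‖E φ φ' t‖ ≤ B) (hp : ∀ a y, Low 0 (JJ E g c a y)) (N : ℕ) :
    ∀ a y, Low 0 (JJ (fun φ φ' t => FK u l c φ φ' t ^ N * E φ φ' t) g c a y) := by
  induction N with
  | zero => simpa using hp
  | succ N ih =>
    intro a y
    obtain ⟨B1, hB1, hB2⟩ := FK_bound hu
    have h1 := JJ_mul_FK hu hg (E := fun φ φ' t => FK u l c φ φ' t ^ N * E φ φ' t) (B := B1 ^ N * B)
      (pow_cont hu hE N) (fun φ φ' t => by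
        rw [norm_mul, norm_pow]
        exact mul_le_mul (pow_le_pow_left₀ (norm_nonneg _) (hB2 φ φ' t) N) (hB φ φ' t) (norm_nonneg _)
          (by positivity)) a y
    have h2 : (fun φ φ' t => FK u l c φ φ' t * (FK u l c φ φ' t ^ N * E φ φ' t)) =
        fun φ φ' t => FK u l c φ φ' t ^ (N + 1) * E φ φ' t := by
      funext φ φ' t
      ring
    rw [h2] at h1
    exact low0_hasSum h1 fun x => ih _ _

theorem exp_low (hu : ∀ φ, Summable fun x => ‖u x φ‖ ^ 2 * Real.exp (-(c * l x))) {g : ℝ → ℂ}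
    (hg : Integrable g) {E : ι → ι → ℝ → ℂ} (hE : ∀ φ φ', Continuous (E φ φ')) {B : ℝ}
    (hB : ∀ φ φ' t, ‖E φ φ' t‖ ≤ B) (hp : ∀ a y, Low 0 (JJ E g c a y)) (a : ι → ℂ) (y w : ℝ)
    (hw : Low w (JJ E g c a y)) :
    Low w (JJ (fun φ φ' t => cexp (FK u l c φ φ' t) * E φ φ' t) g c a y) := by
  obtain ⟨B1, hB1, hB2⟩ := FK_bound hu
  have hs : HasSum (fun N : ℕ => ((1 / (N.factorial : ℝ) : ℝ) : ℂ) *
      JJ (fun φ φ' t => FK u l c φ φ' t ^ N * E φ φ' t) g c a y)
      (JJ (fun φ φ' t => cexp (FK u l c φ φ' t) * E φ φ' t) g c a y) := by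
    unfold JJ
    simp_rw [Finset.mul_sum]
    refine hasSum_sum fun φ _ => hasSum_sum fun φ' _ => ?_
    have hint := int_mul (c := c) hg (hE φ φ') (hB φ φ') y
    set H : ℝ → ℂ := fun t => E φ φ' t * (g t * cexp ((c + t * I) * y)) with hH
    have hbd : ∀ (N : ℕ) (t : ℝ), ‖FK u l c φ φ' t ^ N / (N.factorial : ℂ)‖ ≤ B1 ^ N / N.factorial := by
      intro N t
      rw [norm_div, norm_pow, Complex.norm_natCast]
      exact div_le_div_of_nonneg_right (pow_le_pow_left₀ (norm_nonneg _) (hB2 φ φ' t) N) (by positivity)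
    have hk : ∀ N : ℕ, Integrable fun t : ℝ => FK u l c φ φ' t ^ N / (N.factorial : ℂ) * H t := fun N =>
      hint.bdd_mul (c := B1 ^ N / N.factorial)
        (((FK_cont hu φ φ').pow N).div_const _).aestronglyMeasurable (Eventually.of_forall (hbd N))
    have h1 : HasSum (fun N : ℕ => ∫ t : ℝ, FK u l c φ φ' t ^ N / (N.factorial : ℂ) * H t)
        (∫ t : ℝ, ∑' N : ℕ, FK u l c φ φ' t ^ N / (N.factorial : ℂ) * H t) := by
      refine hasSum_integral_of_summable_integral_norm hk ?_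
      refine Summable.of_nonneg_of_le (fun N => integral_nonneg fun t => norm_nonneg _) (fun N => ?_)
        ((Real.summable_pow_div_factorial B1).mul_right (∫ t : ℝ, ‖H t‖))
      rw [← integral_const_mul]
      refine integral_mono (hk N).norm (hint.norm.const_mul _) fun t => ?_
      simp only
      rw [norm_mul]
      exact mul_le_mul_of_nonneg_right (hbd N t) (norm_nonneg _)
    have e2 : (∫ t : ℝ, ∑' N : ℕ, FK u l c φ φ' t ^ N / (N.factorial : ℂ) * H t) =
        ∫ t : ℝ, cexp (FK u l c φ φ' t) * E φ φ' t * (g t * cexp ((c + t * I) * y)) := by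
      refine integral_congr_ae (Eventually.of_forall fun t => ?_)
      simp only
      have e0 : ∑' N : ℕ, FK u l c φ φ' t ^ N / (N.factorial : ℂ) = cexp (FK u l c φ φ' t) := by
        rw [Complex.exp_eq_exp_ℂ, NormedSpace.exp_eq_tsum_div]
      rw [tsum_mul_right, e0, mul_assoc]
    rw [e2] at h1
    refine Pool.Agent.E8helper16.RF.HasSum.congr_fun' (h1.mul_left (a φ * conj (a φ'))) (fun N => ?_)
    have e3 : (∫ t : ℝ, FK u l c φ φ' t ^ N / (N.factorial : ℂ) * H t) = ((1 / (N.factorial : ℝ) : ℝ) : ℂ) *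
        ∫ t : ℝ, FK u l c φ φ' t ^ N * E φ φ' t * (g t * cexp ((c + t * I) * y)) := by
      rw [← integral_const_mul]
      refine integral_congr_ae (Eventually.of_forall fun t => ?_)
      simp only [hH]
      push_cast
      ring
    rw [e3]
    ring
  refine low_hasSum hs (fun N => ?_) 0 ?_
  · have := (pow_low hu hg hE hB hp N a y).real_mul (q := 1 / (N.factorial : ℝ)) (by positivity)
    simpa using this
  · simpa using hw

end Pool.Agent.E8helper16.RF
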