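import Pool.Agent.E8helper16.RF.U
import Pool.Agent.E8helper16.RF.G1
import Pool.Agent.E8helper16.RF.P1

/-! The Rankin-Selberg `L`-function of a pair of forms. -/

set_option autoImplicit false

namespace Pool.Agent.E8helper16.RF

open Filter Topology Complex
open Pool.Agent.TH949.RES (SphericalCuspForm)
open Pool.Agent.E8helper23.DT (LR unif)

variable {n : ℕ}

/-- the vectors `(∑_i α_{i,p}^k / √k)_{(p,k)}` -/
noncomputable def uu (α : Nat.Primes → Fin n → ℂ) (x : Nat.Primes × ℕ) : ℂ :=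
  (∑ i, α x.1 i ^ (x.2 + 1)) / ((Real.sqrt ((x.2 : ℝ) + 1) : ℝ) : ℂ)

theorem uu_sq (α : Nat.Primes → Fin n → ℂ) (x : Nat.Primes × ℕ) :
    ‖uu α x‖ ^ 2 = ‖∑ i, α x.1 i ^ (x.2 + 1)‖ ^ 2 / ((x.2 : ℝ) + 1) := by
  unfold uu
  rw [norm_div, Complex.norm_real, Real.norm_of_nonneg (Real.sqrt_nonneg _), div_pow, Real.sq_sqrt (by positivity)]

theorem uu_mul (α α' : Nat.Primes → Fin n → ℂ) (x : Nat.Primes × ℕ) :
    uu α x * (starRingEnd ℂ) (uu α' x) =
      (∑ i, α x.1 i ^ (x.2 + 1)) * (starRingEnd ℂ) (∑ i, α' x.1 i ^ (x.2 + 1)) / ((x.2 : ℂ) + 1) := by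
  unfold uu
  rw [map_div₀, Complex.conj_ofReal, div_mul_div_comm, ← Complex.ofReal_mul,
    Real.mul_self_sqrt (by positivity : (0 : ℝ) ≤ (x.2 : ℝ) + 1)]
  push_cast
  rfl

theorem logL2_eq (α α' : Nat.Primes → Fin n → ℂ) (s : ℂ) :
    logL2 α α' s = ∑' x, uu α x * (starRingEnd ℂ) (uu α' x) * cexp (-(s * lx x)) := by
  unfold logL2
  exact tsum_congr fun x => by rw [uu_mul, exp_lx]

theorem uu_summ {α : Nat.Primes → Fin n → ℂ} {μ : Fin n → ℂ} (h : SphericalCuspForm α μ) {σ : ℝ} (hσ : 1 < σ) :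
    Summable fun x => ‖uu α x‖ ^ 2 * Real.exp (-(σ * lx x)) :=
  (LR_summ h hσ).congr fun x => by rw [uu_sq]

theorem LR_uu (α : Nat.Primes → Fin n → ℂ) (σ : ℝ) : LR α σ = ∑' x, ‖uu α x‖ ^ 2 * Real.exp (-(σ * lx x)) := by
  rw [LR_exp]
  exact tsum_congr fun x => by rw [uu_sq]

theorem norm_logL2 {α α' : Nat.Primes → Fin n → ℂ} {μ μ' : Fin n → ℂ} (h : SphericalCuspForm α μ)
    (h' : SphericalCuspForm α' μ') {s : ℂ} (hs : 1 < s.re) :
    ‖logL2 α α' s‖ ≤ (LR α s.re + LR α' s.re) / 2 := by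
  rw [logL2_eq, LR_uu, LR_uu]
  have h1 := uu_summ h hs
  have h2 := uu_summ h' hs
  have e : ∀ x, ‖uu α x * (starRingEnd ℂ) (uu α' x) * cexp (-(s * lx x))‖ =
      ‖uu α x‖ * ‖uu α' x‖ * Real.exp (-(s.re * lx x)) := by
    intro x
    rw [norm_mul, norm_mul, RCLike.norm_conj, Complex.norm_exp]
    congr 2
    simp
  have hle : ∀ x, ‖uu α x * (starRingEnd ℂ) (uu α' x) * cexp (-(s * lx x))‖ ≤
      (‖uu α x‖ ^ 2 * Real.exp (-(s.re * lx x)) + ‖uu α' x‖ ^ 2 * Real.exp (-(s.re * lx x))) / 2 := by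
    intro x
    rw [e]
    have h3 := Real.exp_pos (-(s.re * lx x))
    nlinarith [mul_nonneg h3.le (sq_nonneg (‖uu α x‖ - ‖uu α' x‖))]
  have hs3 : Summable fun x => (‖uu α x‖ ^ 2 * Real.exp (-(s.re * lx x)) +
      ‖uu α' x‖ ^ 2 * Real.exp (-(s.re * lx x))) / 2 := (h1.add h2).div_const 2
  have hs4 : Summable fun x => ‖uu α x * (starRingEnd ℂ) (uu α' x) * cexp (-(s * lx x))‖ :=
    Summable.of_nonneg_of_le (fun _ => norm_nonneg _) hle hs3
  refine (norm_tsum_le_tsum_norm hs4).trans ((hs4.tsum_le_tsum hle hs3).trans (le_of_eq ?_))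
  rw [tsum_div_const, h1.tsum_add h2]

theorem norm_expL2 {α α' : Nat.Primes → Fin n → ℂ} {μ μ' : Fin n → ℂ} (h : SphericalCuspForm α μ)
    (h' : SphericalCuspForm α' μ') {s : ℂ} (hs : 1 < s.re) :
    ‖cexp (logL2 α α' s)‖ ≤ Real.exp ((LR α s.re + LR α' s.re) / 2) := by
  rw [Complex.norm_exp]
  exact Real.exp_le_exp.2 ((Complex.re_le_norm _).trans (norm_logL2 h h' hs))

/-- the analytic conductor, shifted -/
noncomputable def cond2 (μ μ' : Fin n → ℂ) (t : ℝ) : ℝ := ∏ i, ∏ j, (1 + ‖μ i - μ' j + t * I‖)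

theorem cond2_ge (μ μ' : Fin n → ℂ) (t : ℝ) : 1 ≤ cond2 μ μ' t :=
  Finset.one_le_prod fun i _ => Finset.one_le_prod fun j _ => by linarith [norm_nonneg (μ i - μ' j + t * I)]

theorem entire_eq {F G : ℂ → ℂ} (hF : Differentiable ℂ F) (hG : Differentiable ℂ G)
    (h : ∀ s : ℂ, 1 < s.re → F s = G s) : F = G := by
  have h1 : AnalyticOnNhd ℂ F Set.univ := hF.differentiableOn.analyticOnNhd isOpen_univ
  have h2 : AnalyticOnNhd ℂ G Set.univ := hG.differentiableOn.analyticOnNhd isOpen_univ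
  refine h1.eq_of_eventuallyEq h2 (z₀ := 2) ?_
  have hop : IsOpen {s : ℂ | 1 < s.re} := isOpen_lt continuous_const Complex.continuous_re
  exact Filter.eventually_of_mem (hop.mem_nhds (by simp)) fun s hs => h s hs

theorem pair_data {η : ℝ} (hη : 0 < η) (hη1 : η ≤ 1) : ∃ C : ℝ, 0 < C ∧
    ∀ (α α' : Nat.Primes → Fin n → ℂ) (μ μ' : Fin n → ℂ), SphericalCuspForm α μ → SphericalCuspForm α' μ' →
      (∀ i, |(μ i).re| < 1 / 2) → (∀ i, |(μ' i).re| < 1 / 2) → RankinSelberg α μ α' μ' →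
      ∃ G : ℂ → ℂ, Differentiable ℂ G ∧ (∀ s : ℂ, 1 < s.re → G s = cexp (logL2 α α' s)) ∧
        (∀ a b : ℝ, ∃ C A : ℝ, ∀ s : ℂ, a ≤ s.re → s.re ≤ b → ‖G s‖ ≤ C * (1 + |s.im|) ^ A) ∧
        (∀ i j, G (μ' j - μ i) = 0) ∧
        ∀ t v : ℝ, ‖G ((-η : ℝ) + (t + v : ℝ) * I)‖ ≤ Real.exp ((LR α (1 + η) + LR α' (1 + η)) / 2) *
          ((C * ((1 + |v|) ^ ((1 + 2 * η) / 2)) ^ (n * n)) * cond2 μ μ' t ^ ((1 + 2 * η) / 2)) := by
  obtain ⟨C, hC, hR⟩ := ratio hη hη1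
  refine ⟨C ^ (n * n), by positivity, fun α α' μ μ' h h' hμ hμ' hp => ?_⟩
  obtain ⟨G, Ξ, w, hG, hΞ, hw, hGe, hgr, hΞe, hfe⟩ := hp.continuation
  have hre : ∀ i j, -1 < (μ i - μ' j).re ∧ (μ i - μ' j).re < 1 := by
    intro i j
    rw [Complex.sub_re]
    have h1 := abs_lt.1 (hμ i)
    have h2 := abs_lt.1 (hμ' j)
    constructor <;> linarith
  -- `G = Ξ ∏ Γ_ℝ⁻¹`
  have hprod : Differentiable ℂ fun s => Ξ s * ∏ i, ∏ j, (Gammaℝ (s + (μ i - μ' j)))⁻¹ := by
    refine hΞ.mul ?_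
    refine Differentiable.fun_finsetProd fun i _ => Differentiable.fun_finsetProd fun j _ => ?_
    exact gr_inv_diff.comp (differentiable_id.add_const _)
  have hGΞ : G = fun s => Ξ s * ∏ i, ∏ j, (Gammaℝ (s + (μ i - μ' j)))⁻¹ := by
    refine entire_eq hG hprod fun s hs => ?_
    rw [hΞe s hs, mul_assoc, ← Finset.prod_mul_distrib]
    have e : ∏ i, ((∏ j, Gammaℝ (s + (μ i - μ' j))) * ∏ j, (Gammaℝ (s + (μ i - μ' j)))⁻¹) = 1 := by
      refine Finset.prod_eq_one fun i _ => ?_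
      rw [← Finset.prod_mul_distrib]
      refine Finset.prod_eq_one fun j _ => ?_
      refine mul_inv_cancel₀ (Complex.Gammaℝ_ne_zero_of_re_pos ?_)
      rw [Complex.add_re]
      linarith [(hre i j).1]
    rw [e, mul_one]
  refine ⟨G, hG, hGe, hgr, fun i j => ?_, fun t v => ?_⟩
  · rw [hGΞ]
    simp only
    have e : ∏ i', ∏ j', (Gammaℝ (μ' j - μ i + (μ i' - μ' j')))⁻¹ = 0 := by
      refine Finset.prod_eq_zero (Finset.mem_univ i) (Finset.prod_eq_zero (Finset.mem_univ j) ?_)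
      have : μ' j - μ i + (μ i - μ' j) = 0 := by ring
      rw [this, Complex.Gammaℝ_def]
      simp
    rw [e, mul_zero]
  · set s : ℂ := ((-η : ℝ) : ℂ) + (t + v : ℝ) * I with hs
    set s' : ℂ := ((1 + η : ℝ) : ℂ) + (t + v : ℝ) * I with hs'
    have hs're : s'.re = 1 + η := by simp [hs']
    have hfe1 : Ξ s = w * (starRingEnd ℂ) (Ξ s') := by
      have h1 := hfe (1 - s)
      have e1 : 1 - (1 - s) = s := by ring
      have e2 : (starRingEnd ℂ) (1 - s) = s' := by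
        apply Complex.ext
        · simp [hs, hs']
        · simp [hs, hs']
      rw [e1, e2] at h1
      exact h1
    have hn1 : ‖Ξ s‖ = ‖G s'‖ * ∏ i, ∏ j, ‖Gammaℝ (s' + (μ i - μ' j))‖ := by
      rw [hfe1, norm_mul, hw, one_mul, RCLike.norm_conj, hΞe s' (by rw [hs're]; linarith), norm_mul, norm_prod]
      congr 1
      exact Finset.prod_congr rfl fun i _ => norm_prod _ _
    have hn2 : ‖G s‖ = ‖G s'‖ * ∏ i, ∏ j, (‖Gammaℝ (s' + (μ i - μ' j))‖ * ‖(Gammaℝ (s + (μ i - μ' j)))⁻¹‖) := by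
      have e : G s = Ξ s * ∏ i, ∏ j, (Gammaℝ (s + (μ i - μ' j)))⁻¹ := congrFun hGΞ s
      rw [e, norm_mul, hn1, norm_prod, mul_assoc, ← Finset.prod_mul_distrib]
      congr 1
      refine Finset.prod_congr rfl fun i _ => ?_
      rw [norm_prod, ← Finset.prod_mul_distrib]
    rw [hn2]
    have hG1 : ‖G s'‖ ≤ Real.exp ((LR α (1 + η) + LR α' (1 + η)) / 2) := by
      have h1 := norm_expL2 h h' (s := s') (by rw [hs're]; linarith)
      rw [hGe s' (by rw [hs're]; linarith)]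
      rw [hs're] at h1
      exact h1
    refine mul_le_mul hG1 ?_ (Finset.prod_nonneg fun i _ => Finset.prod_nonneg fun j _ => by positivity)
      (Real.exp_pos _).le
    have hb : ∀ i j, ‖Gammaℝ (s' + (μ i - μ' j))‖ * ‖(Gammaℝ (s + (μ i - μ' j)))⁻¹‖ ≤
        C * (1 + |v|) ^ ((1 + 2 * η) / 2) * (1 + ‖μ i - μ' j + t * I‖) ^ ((1 + 2 * η) / 2) := by
      intro i j
      have e1 : s' + (μ i - μ' j) = s + (μ i - μ' j) + ((1 + 2 * η : ℝ) : ℂ) := by
        rw [hs, hs']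
        push_cast
        ring
      have hre1 : (s + (μ i - μ' j)).re = -η + (μ i - μ' j).re := by
        rw [Complex.add_re]
        simp [hs]
      have him1 : (s + (μ i - μ' j)).im = v + (μ i - μ' j + t * I).im := by
        simp [hs]
        ring
      have h1 := hR (s + (μ i - μ' j)) (by rw [hre1]; linarith [(hre i j).1])
        (by rw [hre1]; linarith [(hre i j).2])
      rw [e1]
      refine h1.trans ?_
      rw [mul_assoc]
      refine mul_le_mul_of_nonneg_left ?_ hC.le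
      rw [← Real.mul_rpow (by positivity) (by positivity)]
      refine Real.rpow_le_rpow (by positivity) ?_ (by positivity)
      rw [him1]
      have h2 := abs_add_le v (μ i - μ' j + t * I).im
      have h3 := Complex.abs_im_le_norm (μ i - μ' j + t * I)
      have h4 := abs_nonneg v
      have h5 := norm_nonneg (μ i - μ' j + t * I)
      nlinarith
    calc ∏ i, ∏ j, (‖Gammaℝ (s' + (μ i - μ' j))‖ * ‖(Gammaℝ (s + (μ i - μ' j)))⁻¹‖)
        ≤ ∏ i, ∏ j, (C * (1 + |v|) ^ ((1 + 2 * η) / 2) * (1 + ‖μ i - μ' j + t * I‖) ^ ((1 + 2 * η) / 2)) :=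
          Finset.prod_le_prod (fun i _ => Finset.prod_nonneg fun j _ => by positivity)
            fun i _ => Finset.prod_le_prod (fun j _ => by positivity) fun j _ => hb i j
      _ = C ^ (n * n) * ((1 + |v|) ^ ((1 + 2 * η) / 2)) ^ (n * n) * cond2 μ μ' t ^ ((1 + 2 * η) / 2) := by
          have e : cond2 μ μ' t ^ ((1 + 2 * η) / 2) =
              ∏ i, ∏ j, (1 + ‖μ i - μ' j + t * I‖) ^ ((1 + 2 * η) / 2) := by
            unfold cond2
            rw [← Real.finsetProd_rpow _ _ fun i _ => Finset.prod_nonneg fun j _ => by positivity]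
            refine Finset.prod_congr rfl fun i _ => ?_
            rw [← Real.finsetProd_rpow _ _ fun j _ => by positivity]
          rw [e]
          simp_rw [Finset.prod_mul_distrib]
          simp only [Finset.prod_const, Finset.card_univ, Fintype.card_fin]
          ring

end Pool.Agent.E8helper16.RF
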