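import Pool.Agent.E8helper16.RF.R1

/-! The number of violations at the real place. -/

set_option autoImplicit false

namespace Pool.Agent.E8helper16.RF

open MeasureTheory Filter Topology Complex Set
open scoped ComplexConjugate BigOperators
open Pool.Agent.TH949.RES (SphericalCuspForm)
open Pool.Agent.E8helper23.DT (LR unif)
open Pool.Agent.TH949.LT (VV VV_nonneg VV_zero kernel)

variable {n : ℕ}

theorem large_real (hn : 2 ≤ n) {η κ : ℝ} (hη : 0 < η) (hη1 : η ≤ 1) (hκ : 0 < κ) {δ₀ : ℝ} (hδ₀ : 0 < δ₀) :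
    ∃ A : ℝ, 1 ≤ A ∧
    ∀ {ι : Type} [Fintype ι] (α : ι → Nat.Primes → Fin n → ℂ) (μ : ι → Fin n → ℂ), Family α μ →
      ∀ Q : ℝ, 1 ≤ Q → ∀ (m : ι → ℂ) (δ : ℝ), δ₀ ≤ δ → δ < 1 / 2 → (∀ φ, δ ≤ (m φ).re) → (∀ φ, (m φ).re < 1 / 2) →
        (∀ φ φ', ∃ i j, μ φ' j - μ φ i = m φ + conj (m φ')) →
        (∀ φ, cond2 (μ φ) (μ φ) 0 ≤ Q) →
        (∀ φ φ', cond2 (μ φ) (μ φ') ((m φ).im - (m φ').im) ≤ Q) →
        ∀ y : ℝ, 0 ≤ y →
          3 * (Fintype.card ι : ℝ) ≤ A * Q ^ κ * Real.exp ((1 - 2 * δ + η) * y) +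
            Fintype.card ι * (A * Q ^ (κ + (1 + 2 * η) / 2) * Real.exp (-(2 * δ * y))) := by
  obtain ⟨A, hA, hdiag, hoff⟩ := fam_const (n := n) hn hη hη1 hκ
  set B : ℝ := (1 + 2 * η) / 2 * ((n * n : ℕ) : ℝ) with hB
  set A2 : ℝ := 3 * A * Real.exp 4 * Real.exp (B ^ 2 / 2) * (1 + 1 / η + 1 / (2 * δ₀)) with hA2
  have he4 : 1 ≤ Real.exp 4 := Real.one_le_exp (by norm_num)
  have heB : 1 ≤ Real.exp (B ^ 2 / 2) := Real.one_le_exp (by positivity)
  have hA21 : 1 ≤ A2 := by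
    rw [hA2]
    have h1 : 1 ≤ 3 * A := by linarith
    have h2 : 1 ≤ 3 * A * Real.exp 4 := one_le_mul_of_one_le_of_one_le h1 he4
    have h3 : (1 : ℝ) ≤ 1 + 1 / η + 1 / (2 * δ₀) := by
      have : 0 < 1 / η := by positivity
      have : 0 < 1 / (2 * δ₀) := by positivity
      linarith
    exact one_le_mul_of_one_le_of_one_le (one_le_mul_of_one_le_of_one_le h2 heB) h3
  refine ⟨A2, hA21, fun {ι} _ α μ hF Q hQ1 m δ hδ hδ2 hm hm2 hzero hQ0d hQt y hy => ?_⟩
  have hQ0 : 0 < Q := by linarith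
  have hδ0 : 0 < δ := by linarith
  set c : ℝ := 1 - 2 * δ + η with hcd
  have hcη : η < c := by rw [hcd]; linarith
  have hc0 : 0 < c := by linarith
  have hc2 : c ≤ 2 := by rw [hcd]; linarith
  set g : ℝ → ℂ := fun t => cexp ((c + t * I) ^ 2) / (c + t * I) with hg
  have hcm : ∀ φ, 1 < c + 2 * (m φ).re := fun φ => by have := hm φ; rw [hcd]; linarith
  have hus := tw_summ (α := α) hF.form hcm
  have hne : ∀ t : ℝ, (c : ℂ) + t * I ≠ 0 := by
    intro t h
    have := congrArg Complex.re h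
    simp at this
    linarith
  have hn1 : ∀ t : ℝ, c ≤ ‖(c : ℂ) + t * I‖ := by
    intro t
    have h1 := Complex.re_le_norm ((c : ℂ) + t * I)
    simpa using h1
  -- the lower bound
  have hw := wt_kernel hc0
  have hlow := exp_low hus hw.1 (E := fun _ _ _ => 1) (B := 1) (fun _ _ => continuous_const)
    (fun _ _ _ => by simp) (fun b z => (JJ_one hw b z).mono (mul_nonneg (hw.2.1 _) (sq_nonneg _)))
    (fun _ => 1) y _ (JJ_one hw (fun _ => 1) y)
  set K : ι → ι → ℂ := fun φ φ' => ∫ t : ℝ, (cexp (FK (tw α m) lx c φ φ' t) * 1) *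
    (g t * cexp ((c + t * I) * y)) with hK
  have hJ : JJ (fun φ φ' t => cexp (FK (tw α m) lx c φ φ' t) * 1) (fun t => cexp ((c + t * I) ^ 2) / (c + t * I)) c
      (fun _ => 1) y = QF K (fun _ => 1) := rfl
  rw [hJ] at hlow
  have hKe : ∀ φ φ', K φ φ' = ∫ t : ℝ, cexp (logL2 (α φ) (α φ') (m φ + conj (m φ') + (c + t * I))) / (c + t * I) *
      cexp ((c + t * I) ^ 2 + (c + t * I) * y) := by
    intro φ φ'
    rw [hK]
    refine integral_congr_ae (Eventually.of_forall fun t => ?_)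
    simp only [hg]
    rw [tw_FK, ← gk_split]
    ring
  have hre : ∀ φ φ' (t : ℝ), (m φ + conj (m φ') + ((c : ℂ) + t * I)).re = (m φ).re + (m φ').re + c := by
    intro φ φ' t
    simp
  -- the diagonal
  have hD : ∀ φ, ‖K φ φ‖ ≤ A2 * Q ^ κ * Real.exp (c * y) := by
    intro φ
    rw [hKe]
    have h1 := hdiag (α φ) (μ φ) (hF.form φ) (hF.local_bound φ) (hF.real_bound φ) Q (hQ0d φ)
    have h2 : ∀ v : ℝ, ‖cexp (logL2 (α φ) (α φ) (m φ + conj (m φ) + (c + v * I))) / (c + v * I) *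
        cexp ((c + v * I) ^ 2 + (c + v * I) * y)‖ ≤
        (A * Q ^ κ * (1 / η) * Real.exp (c ^ 2 + c * y)) * Real.exp (-(1 / 2) * v ^ 2) := by
      intro v
      rw [norm_mul, norm_gk, norm_div]
      have hr : 1 + η ≤ (m φ).re + (m φ).re + c := by have := hm φ; rw [hcd]; linarith
      have h3 := norm_expL2 (hF.form φ) (hF.form φ) (s := m φ + conj (m φ) + ((c : ℂ) + v * I))
        (by rw [hre]; linarith)
      rw [hre] at h3
      have h4 : ∀ σ, (LR (α φ) σ + LR (α φ) σ) / 2 = LR (α φ) σ := fun σ => by ring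
      rw [h4] at h3
      have h5 : Real.exp (LR (α φ) ((m φ).re + (m φ).re + c)) ≤ Real.exp (LR (α φ) (1 + η)) :=
        Real.exp_le_exp.2 (LR_mono (hF.form φ) (by linarith) hr)
      have h6 := (h3.trans h5).trans h1
      have h7 : ‖cexp (logL2 (α φ) (α φ) (m φ + conj (m φ) + (c + v * I)))‖ / ‖(c : ℂ) + v * I‖ ≤
          A * Q ^ κ * (1 / η) := by
        rw [mul_one_div]
        refine div_le_div₀ (by positivity) h6 hη ?_
        exact hcη.le.trans (hn1 v)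
      calc _ ≤ (A * Q ^ κ * (1 / η)) * Real.exp (c ^ 2 - v ^ 2 + c * y) :=
            mul_le_mul_of_nonneg_right h7 (Real.exp_pos _).le
        _ ≤ (A * Q ^ κ * (1 / η)) * (Real.exp (c ^ 2 + c * y) * Real.exp (-(1 / 2) * v ^ 2)) := by
            rw [← Real.exp_add]
            refine mul_le_mul_of_nonneg_left (Real.exp_le_exp.2 ?_) (by positivity)
            nlinarith [sq_nonneg v]
        _ = _ := by ring
    refine (int_le h2).trans ?_
    have h5 : Real.exp (c ^ 2 + c * y) ≤ Real.exp 4 * Real.exp (c * y) := by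
      rw [← Real.exp_add]
      refine Real.exp_le_exp.2 ?_
      have : c ^ 2 ≤ 2 ^ 2 := pow_le_pow_left₀ hc0.le hc2 2
      linarith
    have h6 : (1 / η) ≤ 1 + 1 / η + 1 / (2 * δ₀) := by
      have : 0 < 1 / (2 * δ₀) := by positivity
      linarith
    calc 3 * (A * Q ^ κ * (1 / η) * Real.exp (c ^ 2 + c * y))
        ≤ 3 * (A * Q ^ κ * (1 + 1 / η + 1 / (2 * δ₀)) * (Real.exp 4 * Real.exp (c * y))) := by
          gcongr
      _ = 3 * A * Real.exp 4 * 1 * (1 + 1 / η + 1 / (2 * δ₀)) * Q ^ κ * Real.exp (c * y) := by ring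
      _ ≤ 3 * A * Real.exp 4 * Real.exp (B ^ 2 / 2) * (1 + 1 / η + 1 / (2 * δ₀)) * Q ^ κ * Real.exp (c * y) := by
          gcongr
  -- off the diagonal
  have hO : ∀ φ φ', φ ≠ φ' → ‖K φ φ'‖ ≤ A2 * Q ^ (κ + (1 + 2 * η) / 2) * Real.exp (-(2 * δ * y)) := by
    intro φ φ' hne'
    obtain ⟨G, hG⟩ := hoff (α φ) (α φ') (μ φ) (μ φ') (hF.form φ) (hF.form φ') (hF.local_bound φ)
      (hF.local_bound φ') (hF.real_bound φ) (hF.real_bound φ') (hF.pair φ φ' hne')
    obtain ⟨i, j, hij⟩ := hzero φ φ'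
    set s₀ : ℂ := m φ + conj (m φ') with hs₀
    have hz : G s₀ = 0 := by
      rw [← hij]
      exact hG.zero i j
    have hs₀re : s₀.re = (m φ).re + (m φ').re := by simp [hs₀]
    have hs₀im : s₀.im = (m φ).im - (m φ').im := by simp [hs₀]; ring
    obtain ⟨F, hFd, hFe, hFg⟩ := dsl hG.diff hG.gr hz
    have e1 : K φ φ' = ∫ t : ℝ, F (c + t * I) * cexp ((c + t * I) ^ 2 + (c + t * I) * y) := by
      rw [hKe]
      refine integral_congr_ae (Eventually.of_forall fun t => ?_)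
      simp only
      rw [hFe _ (hne t), hG.eq _ (by rw [hre]; linarith [hcm φ, hm φ, hm φ', hcd])]
    set b : ℝ := -η - s₀.re with hb
    have hb1 : b ≤ -(2 * δ) := by rw [hb, hs₀re]; linarith [hm φ, hm φ']
    have hb2 : -2 ≤ b := by rw [hb, hs₀re]; linarith [hm2 φ, hm2 φ']
    rw [e1, ← shift_poly hFd hFg b c y (by linarith)]
    have hbd : ∀ v : ℝ, ‖F ((b : ℝ) + v * I)‖ ≤
        (A * Q ^ (κ + (1 + 2 * η) / 2) * (1 / (2 * δ₀))) * (1 + |v|) ^ B := by
      intro v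
      have hbne : (b : ℂ) + v * I ≠ 0 := by
        intro h
        have := congrArg Complex.re h
        simp at this
        linarith
      have hnb : 2 * δ₀ ≤ ‖(b : ℂ) + v * I‖ := by
        have h1 := Complex.abs_re_le_norm ((b : ℂ) + v * I)
        have e : ((b : ℂ) + v * I).re = b := by simp
        rw [e, abs_of_neg (by linarith)] at h1
        linarith
      rw [hFe _ hbne, norm_div]
      have h1 := hG.bd ((m φ).im - (m φ').im) Q (hQ0d φ) (hQ0d φ') (hQt φ φ') v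
      have e2 : s₀ + ((b : ℂ) + v * I) = ((-η : ℝ) : ℂ) + (((m φ).im - (m φ').im + v : ℝ) : ℂ) * I := by
        apply Complex.ext
        · simp [hb]
        · simp only [Complex.add_im, Complex.ofReal_im, Complex.mul_im, Complex.ofReal_re, Complex.I_im,
            Complex.I_re, mul_one, mul_zero, add_zero, zero_add]
          rw [hs₀im]
      rw [e2]
      calc _ ≤ (A * Q ^ (κ + (1 + 2 * η) / 2) * (1 + |v|) ^ B) / (2 * δ₀) :=
            div_le_div₀ (by positivity) h1 (by positivity) hnb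
        _ = _ := by ring
    refine (off_int (by positivity) hbd).trans ?_
    have h5 : Real.exp (b ^ 2 + b * y) ≤ Real.exp 4 * Real.exp (-(2 * δ * y)) := by
      rw [← Real.exp_add]
      refine Real.exp_le_exp.2 ?_
      have h6 : b * y ≤ -(2 * δ) * y := mul_le_mul_of_nonneg_right hb1 hy
      nlinarith
    have h6 : 1 / (2 * δ₀) ≤ 1 + 1 / η + 1 / (2 * δ₀) := by
      have : 0 < 1 / η := by positivity
      linarith
    calc 3 * (A * Q ^ (κ + (1 + 2 * η) / 2) * (1 / (2 * δ₀)) * Real.exp (B ^ 2 / 2) * Real.exp (b ^ 2 + b * y))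
        ≤ 3 * (A * Q ^ (κ + (1 + 2 * η) / 2) * (1 + 1 / η + 1 / (2 * δ₀)) * Real.exp (B ^ 2 / 2) *
            (Real.exp 4 * Real.exp (-(2 * δ * y)))) := by gcongr
      _ = _ := by rw [hA2]; ring
  have hup := QF_le (K := K) (D := A2 * Q ^ κ * Real.exp (c * y))
    (O := A2 * Q ^ (κ + (1 + 2 * η) / 2) * Real.exp (-(2 * δ * y))) (by positivity) hD hO (fun _ => 1)
  obtain ⟨r, hr1, hr2⟩ := hlow
  rw [hr2, Complex.norm_real] at hup
  simp only [norm_one, one_pow, Finset.sum_const, Finset.card_univ, nsmul_eq_mul, mul_one] at hup hr1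
  set M : ℝ := (Fintype.card ι : ℝ) with hM
  have hM0 : 0 ≤ M := by positivity
  have e5 : ‖((Fintype.card ι : ℕ) : ℂ)‖ = M := by rw [Complex.norm_natCast]
  rw [e5] at hr1
  have hV := VV_ge hy
  have h6 : 3 * M ^ 2 ≤ (A2 * Q ^ κ * Real.exp (c * y) +
      M * (A2 * Q ^ (κ + (1 + 2 * η) / 2) * Real.exp (-(2 * δ * y)))) * M := by
    calc 3 * M ^ 2 ≤ 2 * Real.pi * VV y * M ^ 2 := by
          refine mul_le_mul_of_nonneg_right ?_ (sq_nonneg _)
          nlinarith [Real.pi_gt_three]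
      _ ≤ r := hr1
      _ ≤ |r| := le_abs_self r
      _ ≤ _ := by rw [Real.norm_eq_abs] at hup; exact hup
  rcases hM0.lt_or_eq with h7 | h7
  · have e6 : 3 * M ^ 2 = 3 * M * M := by ring
    rw [e6] at h6
    exact le_of_mul_le_mul_right h6 h7
  · rw [← h7]
    have : 0 ≤ A2 * Q ^ κ * Real.exp (c * y) := by positivity
    linarith

theorem count_real (hn : 2 ≤ n) {ε δ₀ : ℝ} (hε : 0 < ε) (hδ₀ : 0 < δ₀) : ∃ A : ℝ, 1 ≤ A ∧
    ∀ {ι : Type} [Fintype ι] (α : ι → Nat.Primes → Fin n → ℂ) (μ : ι → Fin n → ℂ), Family α μ →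
      ∀ Q H : ℝ, 1 ≤ Q → 0 ≤ H → (∀ φ φ' (t : ℝ), |t| ≤ H → cond2 (μ φ) (μ φ') t ≤ Q) →
        ∀ δ τ : ℝ, δ₀ ≤ δ → (∀ φ, ∃ i, δ ≤ |(μ φ i).re| ∧ |(μ φ i).im - τ| ≤ H / 2) →
        (Fintype.card ι : ℝ) ≤ A * (Q ^ (1 / (4 * δ))) ^ (1 - 2 * δ + ε) := by
  set η : ℝ := min 1 (ε / 12) with hη
  have hη0 : 0 < η := lt_min one_pos (by positivity)
  have hη1 : η ≤ 1 := min_le_left _ _
  have hηε : η ≤ ε / 12 := min_le_right _ _
  obtain ⟨A, hA, hL⟩ := large_real (n := n) hn hη0 hη1 hη0 hδ₀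
  have hlA : 0 ≤ Real.log A := Real.log_nonneg hA
  refine ⟨A * Real.exp (Real.log A / δ₀), ?_, fun {ι} _ α μ hF Q H hQ1 hH hQ δ τ hδ hall => ?_⟩
  · have : 1 ≤ Real.exp (Real.log A / δ₀) := Real.one_le_exp (by positivity)
    exact one_le_mul_of_one_le_of_one_le hA this
  have hQ0 : 0 < Q := by linarith
  rcases isEmpty_or_nonempty ι with hι | ⟨⟨φ₀⟩⟩
  · rw [Fintype.card_eq_zero]
    push_cast
    positivity
  have hδ0 : 0 < δ := by linarith
  have hδ2 : δ < 1 / 2 := by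
    obtain ⟨i, h1, -⟩ := hall φ₀
    exact h1.trans_lt (hF.real_bound φ₀ i)
  -- choose the parameters with negative real part
  have hch : ∀ φ, ∃ i, (μ φ i).re ≤ -δ ∧ |(μ φ i).im - τ| ≤ H / 2 := by
    intro φ
    obtain ⟨i, h1, h2⟩ := hall φ
    rcases le_or_gt (μ φ i).re 0 with h3 | h3
    · rw [abs_of_nonpos h3] at h1
      exact ⟨i, by linarith, h2⟩
    · rw [abs_of_pos h3] at h1
      obtain ⟨σ, hσ⟩ := (hF.form φ).unitary_real
      refine ⟨σ i, ?_, ?_⟩
      · rw [hσ]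
        simp
        exact h1
      · rw [hσ]
        simpa using h2
  choose i hi1 hi2 using hch
  set m : ι → ℂ := fun φ => -μ φ (i φ) with hm
  have hmre : ∀ φ, (m φ).re = -(μ φ (i φ)).re := fun φ => by simp [hm]
  have hmim : ∀ φ, (m φ).im = -(μ φ (i φ)).im := fun φ => by simp [hm]
  have hH0 : |(0 : ℝ)| ≤ H := by rw [abs_zero]; exact hH
  have key := hL α μ hF Q hQ1 m δ hδ hδ2 (fun φ => by rw [hmre]; linarith [hi1 φ])
    (fun φ => by
      rw [hmre]
      have := abs_lt.1 (hF.real_bound φ (i φ))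
      linarith [this.1])
    (fun φ φ' => by
      obtain ⟨σ, hσ⟩ := (hF.form φ').unitary_real
      refine ⟨i φ, σ (i φ'), ?_⟩
      rw [hσ, hm]
      simp only [map_neg]
      ring)
    (fun φ => hQ φ φ 0 hH0)
    (fun φ φ' => hQ φ φ' _ (by
      rw [hmim, hmim]
      have h1 := abs_le.1 (hi2 φ)
      have h2 := abs_le.1 (hi2 φ')
      rw [abs_le]
      constructor <;> linarith [h1.1, h1.2, h2.1, h2.2]))
  set LQ : ℝ := Real.log Q with hLQ
  have hLQ0 : 0 ≤ LQ := Real.log_nonneg hQ1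
  set e : ℝ := η + (1 + 2 * η) / 2 with he
  have he0 : 0 ≤ e := by positivity
  set M : ℝ := (Fintype.card ι : ℝ) with hM
  have hM0 : 0 ≤ M := by positivity
  set y : ℝ := (Real.log A + e * LQ) / (2 * δ) with hy
  have hy0 : 0 ≤ y := by positivity
  have k1 := key y hy0
  have e1 : A * Q ^ (η + (1 + 2 * η) / 2) * Real.exp (-(2 * δ * y)) = 1 := by
    have hA0 : 0 < A := by linarith
    have e0 : 2 * δ * y = Real.log A + e * LQ := by
      rw [hy]
      field_simp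
    have eQ : Q ^ (η + (1 + 2 * η) / 2) = Real.exp (e * LQ) := by
      rw [Real.rpow_def_of_pos hQ0, ← hLQ, ← he, mul_comm]
    rw [e0, Real.exp_neg, Real.exp_add, Real.exp_log hA0, eQ]
    exact mul_inv_cancel₀ (by positivity)
  rw [e1, mul_one] at k1
  have k2 : M ≤ A * Q ^ η * Real.exp ((1 - 2 * δ + η) * y) := by linarith
  refine k2.trans ?_
  have e8 : (Q ^ (1 / (4 * δ))) ^ (1 - 2 * δ + ε) = Real.exp ((1 - 2 * δ + ε) * (LQ / (4 * δ))) := by
    rw [Real.rpow_def_of_pos hQ0, ← Real.exp_mul]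
    congr 1
    rw [← hLQ]
    ring
  rw [e8, mul_assoc A, mul_assoc A, Real.rpow_def_of_pos hQ0, ← Real.exp_add, ← Real.exp_add, ← hLQ]
  refine mul_le_mul_of_nonneg_left (Real.exp_le_exp.2 ?_) (by linarith)
  have h11 : (1 - 2 * δ + η) * y = (1 + η - 2 * δ) * (Real.log A / (2 * δ)) +
      (1 + η - 2 * δ) * (e * LQ / (2 * δ)) := by
    rw [hy]
    ring
  have h12 : (1 + η - 2 * δ) * (Real.log A / (2 * δ)) ≤ Real.log A / δ₀ := by
    have a1 : (1 + η - 2 * δ) ≤ 2 := by linarith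
    have a2 : Real.log A / (2 * δ) ≤ Real.log A / (2 * δ₀) :=
      div_le_div_of_nonneg_left hlA (by linarith) (by linarith)
    have a3 : 0 ≤ Real.log A / (2 * δ) := by positivity
    calc _ ≤ 2 * (Real.log A / (2 * δ)) := mul_le_mul_of_nonneg_right a1 a3
      _ ≤ 2 * (Real.log A / (2 * δ₀)) := by linarith
      _ = _ := by field_simp
  have h14 : η * LQ + (1 + η - 2 * δ) * (e * LQ / (2 * δ)) ≤ (1 - 2 * δ + ε) * (LQ / (4 * δ)) := by
    have a1 : 4 * δ * η + 2 * (1 + η - 2 * δ) * e ≤ 1 - 2 * δ + ε := by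
      rw [he]
      nlinarith
    have a2 := mul_le_mul_of_nonneg_right a1 (by positivity : 0 ≤ LQ / (4 * δ))
    refine le_trans (le_of_eq ?_) a2
    field_simp
    ring
  rw [h11]
  linarith

end Pool.Agent.E8helper16.RF
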