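import Pool.Agent.E8helper16.RF.F4
import Pool.Agent.E8helper16.RF.R2

/-! The density theorem in families, at every place. -/

set_option autoImplicit false

namespace Pool.Agent.E8helper16.RF

open Filter Topology Complex
open scoped ComplexConjugate BigOperators
open Pool.Agent.TH949.RES (SphericalCuspForm)

variable {n : ℕ}

/-- `θ_{φ,∞} = max_i |Re μ_i|` -/
noncomputable def thetaInf (μ : Fin n → ℂ) : ℝ := ⨆ i, |(μ i).re|

/-- a set with at most `B` elements -/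
def AtMost {ι : Type} (S : Set ι) (B : ℝ) : Prop := S.Finite ∧ (S.ncard : ℝ) ≤ B

theorem atMost_of {ι : Type} {S : Set ι} {B : ℝ} (h : ∀ s : Finset ι, (∀ φ ∈ s, φ ∈ S) → (s.card : ℝ) ≤ B) :
    AtMost S B := by
  have hfin : S.Finite := by
    by_contra hinf
    obtain ⟨t, ht1, ht2⟩ := Set.Infinite.exists_subset_card_eq hinf (⌊B⌋₊ + 1)
    have h1 := h t fun φ hφ => ht1 hφ
    rw [ht2] at h1
    have h2 := Nat.lt_floor_add_one B
    push_cast at h1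
    linarith
  refine ⟨hfin, ?_⟩
  have h1 := h hfin.toFinset fun φ hφ => hfin.mem_toFinset.1 hφ
  rwa [← Set.ncard_eq_toFinset_card S hfin] at h1

theorem Family.restrict {ι : Type} {α : ι → Nat.Primes → Fin n → ℂ} {μ : ι → Fin n → ℂ} (h : Family α μ)
    (s : Finset ι) : Family (fun φ : {φ // φ ∈ s} => α φ) (fun φ : {φ // φ ∈ s} => μ φ) where
  form φ := h.form φ
  local_bound φ := h.local_bound φ
  real_bound φ := h.real_bound φ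
  pair φ φ' hne := h.pair φ φ' fun e => hne (Subtype.ext e)

/-- the general form -/
theorem general (hn : 2 ≤ n) {ε δ₀ : ℝ} (hε : 0 < ε) (hδ₀ : 0 < δ₀) : ∃ A : ℝ, 1 ≤ A ∧
    ∀ (ι : Type) (α : ι → Nat.Primes → Fin n → ℂ) (μ : ι → Fin n → ℂ), Family α μ →
      ∀ Q H : ℝ, 1 ≤ Q → 0 ≤ H → (∀ φ φ' (t : ℝ), |t| ≤ H → cond2 (μ φ) (μ φ') t ≤ Q) → ∀ δ : ℝ, δ₀ ≤ δ →
        (∀ p : Nat.Primes, AtMost {φ | δ ≤ theta (α φ) p}
          (A * (((p : ℕ) : ℝ) ^ (n : ℝ) * Q ^ (1 / (4 * δ))) ^ (1 - 2 * δ + ε))) ∧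
        ∀ τ : ℝ, AtMost {φ | ∃ i, δ ≤ |(μ φ i).re| ∧ |(μ φ i).im - τ| ≤ H / 2}
          (A * (Q ^ (1 / (4 * δ))) ^ (1 - 2 * δ + ε)) := by
  obtain ⟨A1, hA1, h1⟩ := count_p (n := n) hn hε hδ₀
  obtain ⟨A2, hA2, h2⟩ := count_real (n := n) hn hε hδ₀
  refine ⟨max A1 A2, hA1.trans (le_max_left _ _), fun ι α μ hF Q H hQ1 hH hQ δ hδ => ⟨fun p => ?_, fun τ => ?_⟩⟩
  · refine atMost_of fun s hs => ?_
    have h3 := h1 _ _ (hF.restrict s) Q hQ1 (fun φ φ' => hQ φ φ' 0 (by rw [abs_zero]; exact hH)) p δ hδ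
      fun φ => hs φ φ.2
    rw [Fintype.card_coe] at h3
    have hp0 : (0 : ℝ) < ((p : ℕ) : ℝ) := by exact_mod_cast p.2.pos
    exact h3.trans (mul_le_mul_of_nonneg_right (le_max_left _ _) (by positivity))
  · refine atMost_of fun s hs => ?_
    have h3 := h2 _ _ (hF.restrict s) Q H hQ1 hH (fun φ φ' => hQ φ φ') δ τ hδ fun φ => hs φ φ.2
    rw [Fintype.card_coe] at h3
    exact h3.trans (mul_le_mul_of_nonneg_right (le_max_right _ _) (by positivity))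

theorem cond2_le {μ μ' : Fin n → ℂ} {T t : ℝ} (hT : 1 ≤ T) (h : ∀ i, ‖μ i‖ ≤ T) (h' : ∀ i, ‖μ' i‖ ≤ T)
    (ht : |t| ≤ 2 * T) : cond2 μ μ' t ≤ (5 * T) ^ ((n : ℝ) ^ 2) := by
  unfold cond2
  have h1 : ∀ i j, 1 + ‖μ i - μ' j + t * I‖ ≤ 5 * T := by
    intro i j
    have h2 := norm_add_le (μ i - μ' j) (t * I)
    have h3 := norm_sub_le (μ i) (μ' j)
    have h4 : ‖(t : ℂ) * I‖ = |t| := by rw [norm_mul, Complex.norm_I, mul_one, Complex.norm_real, Real.norm_eq_abs]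
    rw [h4] at h2
    linarith [h i, h' j]
  calc ∏ i, ∏ j, (1 + ‖μ i - μ' j + t * I‖) ≤ ∏ _i : Fin n, ∏ _j : Fin n, 5 * T :=
        Finset.prod_le_prod (fun i _ => Finset.prod_nonneg fun j _ => by positivity)
          fun i _ => Finset.prod_le_prod (fun j _ => by positivity) fun j _ => h1 i j
    _ = (5 * T) ^ ((n : ℝ) ^ 2) := by
        simp only [Finset.prod_const, Finset.card_univ, Fintype.card_fin]
        rw [← pow_mul, ← sq]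
        norm_cast

theorem ball (hn : 2 ≤ n) {ε δ₀ : ℝ} (hε : 0 < ε) (hδ₀ : 0 < δ₀) : ∃ A : ℝ, 1 ≤ A ∧
    ∀ (ι : Type) (α : ι → Nat.Primes → Fin n → ℂ) (μ : ι → Fin n → ℂ), Family α μ →
      ∀ T : ℝ, 1 ≤ T → (∀ φ i, ‖μ φ i‖ ≤ T) → ∀ δ : ℝ, δ₀ ≤ δ →
        (∀ p : Nat.Primes, AtMost {φ | δ ≤ theta (α φ) p}
          (A * (((p : ℕ) : ℝ) ^ (n : ℝ) * T ^ ((n : ℝ) ^ 2 / (4 * δ))) ^ (1 - 2 * δ + ε))) ∧
        AtMost {φ | δ ≤ thetaInf (μ φ)} (A * (T ^ ((n : ℝ) ^ 2 / (4 * δ))) ^ (1 - 2 * δ + ε)) := by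
  obtain ⟨A, hA, h⟩ := general (n := n) hn hε hδ₀
  have : Nonempty (Fin n) := ⟨⟨0, by omega⟩⟩
  set C : ℝ := 5 ^ ((n : ℝ) ^ 2 / (4 * δ₀) * (1 + ε)) with hC
  have hC1 : 1 ≤ C := Real.one_le_rpow (by norm_num) (by positivity)
  refine ⟨A * C, one_le_mul_of_one_le_of_one_le hA hC1, fun ι α μ hF T hT hμ δ hδ => ?_⟩
  have hδ0 : 0 < δ := by linarith
  have hT0 : 0 < T := by linarith
  have hQ1 : (1 : ℝ) ≤ (5 * T) ^ ((n : ℝ) ^ 2) := Real.one_le_rpow (by linarith) (by positivity)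
  obtain ⟨h1, h2⟩ := h ι α μ hF ((5 * T) ^ ((n : ℝ) ^ 2)) (2 * T) hQ1 (by linarith)
    (fun φ φ' t ht => cond2_le hT (hμ φ) (hμ φ') ht) δ hδ
  have e1 : ((5 * T) ^ ((n : ℝ) ^ 2)) ^ (1 / (4 * δ)) =
      5 ^ ((n : ℝ) ^ 2 / (4 * δ)) * T ^ ((n : ℝ) ^ 2 / (4 * δ)) := by
    rw [← Real.rpow_mul (by positivity), Real.mul_rpow (by norm_num) hT0.le]
    congr 2 <;> ring
  have e2 : ∀ X : ℝ, 0 ≤ X → δ ≤ 1 / 2 → A * (X * ((5 * T) ^ ((n : ℝ) ^ 2)) ^ (1 / (4 * δ))) ^ (1 - 2 * δ + ε) ≤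
      A * C * (X * T ^ ((n : ℝ) ^ 2 / (4 * δ))) ^ (1 - 2 * δ + ε) := by
    intro X hX hδ2
    rw [e1]
    have e3 : X * (5 ^ ((n : ℝ) ^ 2 / (4 * δ)) * T ^ ((n : ℝ) ^ 2 / (4 * δ))) =
        5 ^ ((n : ℝ) ^ 2 / (4 * δ)) * (X * T ^ ((n : ℝ) ^ 2 / (4 * δ))) := by ring
    rw [e3, Real.mul_rpow (by positivity) (by positivity), ← Real.rpow_mul (by norm_num), mul_assoc]
    refine mul_le_mul_of_nonneg_left (mul_le_mul_of_nonneg_right ?_ (by positivity)) (by linarith)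
    refine Real.rpow_le_rpow_of_exponent_le (by norm_num) ?_
    refine mul_le_mul ?_ (by linarith) (by linarith) (by positivity)
    exact div_le_div_of_nonneg_left (by positivity) (by linarith) (by linarith)
  by_cases hδ2 : δ ≤ 1 / 2
  · refine ⟨fun p => ⟨(h1 p).1, (h1 p).2.trans (e2 _ (by positivity) hδ2)⟩, ?_⟩
    have h3 := h2 0
    have hset : {φ | δ ≤ thetaInf (μ φ)} ⊆ {φ | ∃ i, δ ≤ |(μ φ i).re| ∧ |(μ φ i).im - 0| ≤ 2 * T / 2} := by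
      intro φ hφ
      simp only [Set.mem_ofPred_eq] at hφ ⊢
      obtain ⟨j, hj⟩ := exists_eq_ciSup_of_finite (f := fun i => |(μ φ i).re|)
      unfold thetaInf at hφ
      rw [← hj] at hφ
      refine ⟨j, hφ, ?_⟩
      rw [sub_zero]
      have := (Complex.abs_im_le_norm (μ φ j)).trans (hμ φ j)
      linarith
    refine ⟨h3.1.subset hset, ?_⟩
    have h4 : (({φ | δ ≤ thetaInf (μ φ)}.ncard : ℕ) : ℝ) ≤
        (({φ | ∃ i, δ ≤ |(μ φ i).re| ∧ |(μ φ i).im - 0| ≤ 2 * T / 2}.ncard : ℕ) : ℝ) := by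
      exact_mod_cast Set.ncard_le_ncard hset h3.1
    have h5 := e2 1 zero_le_one hδ2
    simp only [one_mul] at h5
    exact h4.trans (h3.2.trans h5)
  · push Not at hδ2
    have hempty1 : ∀ p : Nat.Primes, {φ | δ ≤ theta (α φ) p} = ∅ := by
      intro p
      refine Set.eq_empty_of_forall_notMem fun φ hφ => ?_
      have := delta_lt hn (hF.form φ) (hF.local_bound φ) p hφ
      linarith
    have hempty2 : {φ | δ ≤ thetaInf (μ φ)} = ∅ := by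
      refine Set.eq_empty_of_forall_notMem fun φ hφ => ?_
      simp only [Set.mem_ofPred_eq] at hφ
      obtain ⟨j, hj⟩ := exists_eq_ciSup_of_finite (f := fun i => |(μ φ i).re|)
      unfold thetaInf at hφ
      rw [← hj] at hφ
      have := hF.real_bound φ j
      linarith
    refine ⟨fun p => ?_, ?_⟩
    · have hp0 : (0 : ℝ) < ((p : ℕ) : ℝ) := by exact_mod_cast p.2.pos
      rw [hempty1]
      refine ⟨Set.finite_empty, ?_⟩
      rw [Set.ncard_empty]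
      push_cast
      positivity
    · rw [hempty2]
      refine ⟨Set.finite_empty, ?_⟩
      rw [Set.ncard_empty]
      push_cast
      positivity

theorem AtMost.mono {ι : Type} {S : Set ι} {B B' : ℝ} (h : AtMost S B) (hB : B ≤ B') : AtMost S B' :=
  ⟨h.1, h.2.trans hB⟩

theorem final (hn : 2 ≤ n) {ε δ₀ : ℝ} (hε : 0 < ε) (hδ₀ : 0 < δ₀) :
    ∃ A : ℝ, ∀ (ι : Type) (α : ι → Nat.Primes → Fin n → ℂ) (μ : ι → Fin n → ℂ), Family α μ → ∀ δ : ℝ, δ₀ ≤ δ →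
      (∀ T : ℝ, 1 ≤ T → (∀ φ i, ‖μ φ i‖ ≤ T) →
        (∀ p : Nat.Primes, AtMost {φ | δ ≤ theta (α φ) p}
          (A * (((p : ℕ) : ℝ) ^ (n : ℝ) * T ^ ((n : ℝ) ^ 2 / (4 * δ))) ^ (1 - 2 * δ + ε))) ∧
        AtMost {φ | δ ≤ thetaInf (μ φ)} (A * (T ^ ((n : ℝ) ^ 2 / (4 * δ))) ^ (1 - 2 * δ + ε))) ∧
      ∀ Q H : ℝ, 1 ≤ Q → 0 ≤ H → (∀ φ φ' (t : ℝ), |t| ≤ H → cond2 (μ φ) (μ φ') t ≤ Q) →
        (∀ p : Nat.Primes, AtMost {φ | δ ≤ theta (α φ) p}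
          (A * (((p : ℕ) : ℝ) ^ (n : ℝ) * Q ^ (1 / (4 * δ))) ^ (1 - 2 * δ + ε))) ∧
        ∀ τ : ℝ, AtMost {φ | ∃ i, δ ≤ |(μ φ i).re| ∧ |(μ φ i).im - τ| ≤ H / 2}
          (A * (Q ^ (1 / (4 * δ))) ^ (1 - 2 * δ + ε)) := by
  obtain ⟨A1, hA1, h1⟩ := general (n := n) hn hε hδ₀
  obtain ⟨A2, hA2, h2⟩ := ball (n := n) hn hε hδ₀
  refine ⟨max A1 A2, fun ι α μ hF δ hδ => ⟨fun T hT hμ => ?_, fun Q H hQ1 hH hQ => ?_⟩⟩
  · obtain ⟨h3, h4⟩ := h2 ι α μ hF T hT hμ δ hδ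
    refine ⟨fun p => (h3 p).mono ?_, h4.mono ?_⟩
    · exact mul_le_mul_of_nonneg_right (le_max_right _ _) (by positivity)
    · exact mul_le_mul_of_nonneg_right (le_max_right _ _) (by positivity)
  · obtain ⟨h3, h4⟩ := h1 ι α μ hF Q H hQ1 hH hQ δ hδ
    have hQ0 : 0 < Q := by linarith
    refine ⟨fun p => (h3 p).mono ?_, fun τ => (h4 τ).mono ?_⟩
    · exact mul_le_mul_of_nonneg_right (le_max_left _ _) (by positivity)
    · exact mul_le_mul_of_nonneg_right (le_max_left _ _) (by positivity)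

end Pool.Agent.E8helper16.RF
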