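import Pool.Agent.E8helper16.RF.P1

/-! Complete homogeneous sums: generating function, Newton's identities, positivity, lower bounds. -/

set_option autoImplicit false

namespace Pool.Agent.E8helper16.RF

open Complex Filter Topology PowerSeries
open scoped ComplexConjugate BigOperators

variable {J : Type*}

/-- the geometric series -/
noncomputable def gm (z : ℂ) : PowerSeries ℂ := PowerSeries.mk fun k => z ^ k

/-- `∏ (1 - γ_i X)^(-1)` -/
noncomputable def fs (s : Finset J) (γ : J → ℂ) : PowerSeries ℂ := ∏ i ∈ s, gm (γ i)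

/-- complete homogeneous sums -/
noncomputable def hc (s : Finset J) (γ : J → ℂ) (k : ℕ) : ℂ := PowerSeries.coeff k (fs s γ)

/-- power sums with exponent `k + 1` -/
noncomputable def pw (s : Finset J) (γ : J → ℂ) (k : ℕ) : ℂ := ∑ i ∈ s, γ i ^ (k + 1)

theorem gm_rec (z : ℂ) : gm z = 1 + PowerSeries.C z * (PowerSeries.X * gm z) := by
  ext k
  rcases k with _ | k
  · simp [gm]
  · rw [map_add, PowerSeries.coeff_C_mul, PowerSeries.coeff_succ_X_mul]
    simp [gm, pow_succ, PowerSeries.coeff_one, mul_comm]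

theorem hc_zero (s : Finset J) (γ : J → ℂ) : hc s γ 0 = 1 := by
  unfold hc fs
  rw [PowerSeries.coeff_zero_eq_constantCoeff_apply, map_prod]
  refine Finset.prod_eq_one fun i _ => ?_
  rw [← PowerSeries.coeff_zero_eq_constantCoeff_apply]
  simp [gm]

theorem hc_insert [DecidableEq J] {s : Finset J} {i : J} (hi : i ∉ s) (γ : J → ℂ) (k : ℕ) :
    hc (insert i s) γ (k + 1) = hc s γ (k + 1) + γ i * hc (insert i s) γ k := by
  have h1 : fs (insert i s) γ = fs s γ + PowerSeries.C (γ i) * (PowerSeries.X * fs (insert i s) γ) := by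
    have h2 : fs (insert i s) γ = gm (γ i) * fs s γ := by unfold fs; rw [Finset.prod_insert hi]
    rw [h2]
    conv_lhs => rw [gm_rec (γ i)]
    ring
  unfold hc
  conv_lhs => rw [h1]
  rw [map_add, PowerSeries.coeff_C_mul, PowerSeries.coeff_succ_X_mul]

theorem d_gm (z : ℂ) : PowerSeries.derivative ℂ (gm z) = gm z * PowerSeries.mk fun k => z ^ (k + 1) := by
  ext k
  rw [PowerSeries.coeff_derivative, PowerSeries.coeff_mul]
  simp only [gm, PowerSeries.coeff_mk]
  have h : ∀ p ∈ Finset.HasAntidiagonal.antidiagonal k, z ^ p.1 * z ^ (p.2 + 1) = z ^ (k + 1) := by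
    intro p hp
    have hp' : p.1 + p.2 = k := Finset.HasAntidiagonal.mem_antidiagonal.1 hp
    rw [← pow_add, ← add_assoc, hp']
  rw [Finset.sum_congr rfl h]
  simp [mul_comm]

theorem d_fs [DecidableEq J] (s : Finset J) (γ : J → ℂ) :
    PowerSeries.derivative ℂ (fs s γ) = fs s γ * PowerSeries.mk (pw s γ) := by
  induction s using Finset.induction_on with
  | empty =>
    unfold fs
    ext k
    simp [PowerSeries.coeff_derivative, PowerSeries.coeff_one, pw]
  | insert i s hi ih =>
    have h2 : fs (insert i s) γ = gm (γ i) * fs s γ := by unfold fs; rw [Finset.prod_insert hi]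
    have h3 : PowerSeries.mk (pw (insert i s) γ) =
        (PowerSeries.mk fun k => γ i ^ (k + 1)) + PowerSeries.mk (pw s γ) := by
      ext k
      simp [pw, Finset.sum_insert hi]
    rw [h2, Derivation.leibniz, ih, d_gm, h3]
    simp only [smul_eq_mul]
    ring

theorem newton (s : Finset J) (γ : J → ℂ) (k : ℕ) :
    ((k : ℂ) + 1) * hc s γ (k + 1) = ∑ j ∈ Finset.range (k + 1), pw s γ j * hc s γ (k - j) := by
  classical
  have h := congrArg (PowerSeries.coeff k) (d_fs s γ)
  rw [PowerSeries.coeff_derivative, mul_comm (fs s γ), PowerSeries.coeff_mul,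
    Finset.Nat.sum_antidiagonal_eq_sum_range_succ_mk] at h
  simp only [PowerSeries.coeff_mk] at h
  unfold hc
  rw [mul_comm, h]

/-- the generating function -/
theorem hc_gen [DecidableEq J] (s : Finset J) (γ : J → ℂ) (z : ℂ) (h : ∀ i ∈ s, ‖γ i * z‖ < 1) :
    Summable (fun k => ‖hc s γ k * z ^ k‖) ∧ ∑' k, hc s γ k * z ^ k = ∏ i ∈ s, (1 - γ i * z)⁻¹ := by
  induction s using Finset.induction_on with
  | empty =>
    have e : ∀ k, hc (∅ : Finset J) γ k = if k = 0 then 1 else 0 := by
      intro k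
      unfold hc fs
      rw [Finset.prod_empty, PowerSeries.coeff_one]
    constructor
    · refine summable_of_ne_finset_zero (s := {0}) fun k hk => ?_
      rw [Finset.mem_singleton] at hk
      rw [e, if_neg hk]
      simp
    · rw [Finset.prod_empty, tsum_eq_single 0]
      · rw [e]; simp
      · intro k hk
        rw [e, if_neg hk, zero_mul]
  | insert i s hi ih =>
    obtain ⟨h1, h2⟩ := ih fun j hj => h j (Finset.mem_insert_of_mem hj)
    have h3 : ‖γ i * z‖ < 1 := h i (Finset.mem_insert_self _ _)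
    have h4 : Summable fun k : ℕ => ‖(γ i * z) ^ k‖ := by
      simp_rw [norm_pow]
      exact summable_geometric_of_lt_one (norm_nonneg _) h3
    have h5 : ∑' k : ℕ, (γ i * z) ^ k = (1 - γ i * z)⁻¹ := tsum_geometric_of_norm_lt_one h3
    have e : ∀ k, hc (insert i s) γ k * z ^ k =
        ∑ p ∈ Finset.HasAntidiagonal.antidiagonal k, (γ i * z) ^ p.1 * (hc s γ p.2 * z ^ p.2) := by
      intro k
      unfold hc
      have h6 : fs (insert i s) γ = gm (γ i) * fs s γ := by unfold fs; rw [Finset.prod_insert hi]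
      rw [h6, PowerSeries.coeff_mul, Finset.sum_mul]
      refine Finset.sum_congr rfl fun p hp => ?_
      have hp' : p.1 + p.2 = k := Finset.HasAntidiagonal.mem_antidiagonal.1 hp
      have hz : z ^ k = z ^ p.1 * z ^ p.2 := by rw [← pow_add, hp']
      have hg : PowerSeries.coeff p.1 (gm (γ i)) = γ i ^ p.1 := by simp [gm]
      rw [hg, hz, mul_pow]
      ring
    have e' : (fun k => hc (insert i s) γ k * z ^ k) = fun k =>
        ∑ p ∈ Finset.HasAntidiagonal.antidiagonal k, (fun m : ℕ => (γ i * z) ^ m) p.1 *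
          (fun m : ℕ => hc s γ m * z ^ m) p.2 := funext e
    have h8 := summable_norm_sum_mul_antidiagonal_of_summable_norm (f := fun m : ℕ => (γ i * z) ^ m)
      (g := fun m : ℕ => hc s γ m * z ^ m) h4 h1
    have h9 := tsum_mul_tsum_eq_tsum_sum_antidiagonal_of_summable_norm (f := fun m : ℕ => (γ i * z) ^ m)
      (g := fun m : ℕ => hc s γ m * z ^ m) h4 h1
    constructor
    · have e'' : (fun k => ‖hc (insert i s) γ k * z ^ k‖) = fun k =>
        ‖∑ p ∈ Finset.HasAntidiagonal.antidiagonal k, (fun m : ℕ => (γ i * z) ^ m) p.1 *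
          (fun m : ℕ => hc s γ m * z ^ m) p.2‖ := funext fun k => congrArg norm (e k)
      rw [e'']
      exact h8
    · rw [e', ← h9, Finset.prod_insert hi, ← h5, ← h2]

theorem exp_gen (s : Finset J) (γ : J → ℂ) (z : ℂ) (h : ∀ i ∈ s, ‖γ i * z‖ < 1) :
    Summable (fun k : ℕ => pw s γ k / ((k : ℂ) + 1) * z ^ (k + 1)) ∧
      cexp (∑' k : ℕ, pw s γ k / ((k : ℂ) + 1) * z ^ (k + 1)) = ∏ i ∈ s, (1 - γ i * z)⁻¹ := by
  have h1 : ∀ i ∈ s, HasSum (fun k : ℕ => (γ i * z) ^ (k + 1) / ((k : ℂ) + 1)) (-Complex.log (1 - γ i * z)) := by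
    intro i hi
    have h2 := Complex.hasSum_taylorSeries_neg_log (h i hi)
    have h3 := (hasSum_nat_add_iff' 1).2 h2
    simpa using h3
  have h2 := hasSum_sum h1
  have e : (fun k : ℕ => ∑ i ∈ s, (γ i * z) ^ (k + 1) / ((k : ℂ) + 1)) =
      fun k : ℕ => pw s γ k / ((k : ℂ) + 1) * z ^ (k + 1) := by
    funext k
    unfold pw
    rw [Finset.sum_div, Finset.sum_mul]
    refine Finset.sum_congr rfl fun i _ => ?_
    rw [mul_pow]
    ring
  rw [e] at h2
  refine ⟨h2.summable, ?_⟩
  rw [h2.tsum_eq, Complex.exp_sum]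
  refine Finset.prod_congr rfl fun i hi => ?_
  have h4 : 1 - γ i * z ≠ 0 := by
    intro h0
    have h5 := h i hi
    have h6 : γ i * z = 1 := (sub_eq_zero.1 h0).symm
    rw [h6] at h5
    simp at h5
  rw [Complex.exp_neg, Complex.exp_log h4]

end Pool.Agent.E8helper16.RF
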