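import Pool.Agent.E8helper16.RF.F3

/-! The real place: the large sieve at the trivial zeros. -/

set_option autoImplicit false

namespace Pool.Agent.E8helper16.RF

open MeasureTheory Filter Topology Complex Set
open scoped ComplexConjugate BigOperators
open Pool.Agent.TH949.RES (SphericalCuspForm)
open Pool.Agent.E8helper23.DT (LR unif)
open Pool.Agent.TH949.LT (VV VV_nonneg VV_zero kernel)

variable {n : ℕ}

theorem VV_ge {y : ℝ} (hy : 0 ≤ y) : 1 / 2 ≤ VV y := by
  rw [← VV_zero]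
  unfold VV
  refine mul_le_mul_of_nonneg_left ?_ (by positivity)
  have hg : Integrable fun v : ℝ => Real.exp (-v ^ 2 / 4) := by
    have := integrable_exp_neg_mul_sq (b := 1 / 4) (by norm_num)
    refine this.congr (Eventually.of_forall fun v => ?_)
    simp only
    congr 1
    ring
  have key : ∀ L : ℝ, ∫ u in Ioi (0 : ℝ), Real.exp (-(L - u) ^ 2 / 4) =
      ∫ v, (Ioi (-L)).indicator (fun v : ℝ => Real.exp (-v ^ 2 / 4)) v := by
    intro L
    rw [← integral_indicator measurableSet_Ioi,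
      ← integral_sub_right_eq_self (fun v => (Ioi (-L)).indicator (fun v : ℝ => Real.exp (-v ^ 2 / 4)) v) L]
    refine integral_congr_ae (Eventually.of_forall fun u => ?_)
    beta_reduce
    by_cases hu : 0 < u
    · have h1 : u ∈ Ioi (0 : ℝ) := hu
      have h2 : u - L ∈ Ioi (-L) := by
        simp only [Set.mem_Ioi]
        linarith
      rw [Set.indicator_of_mem h1, Set.indicator_of_mem h2]
      congr 1
      ring
    · have h1 : u ∉ Ioi (0 : ℝ) := hu
      have h2 : u - L ∉ Ioi (-L) := by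
        simp only [Set.mem_Ioi]
        linarith
      rw [Set.indicator_of_notMem h1, Set.indicator_of_notMem h2]
  rw [key, key]
  refine integral_mono (hg.indicator measurableSet_Ioi) (hg.indicator measurableSet_Ioi) fun v => ?_
  refine Set.indicator_le_indicator_of_subset ?_ (fun v => (Real.exp_pos _).le) v
  intro v hv
  simp only [Set.mem_Ioi] at hv ⊢
  linarith

theorem wt_kernel {c : ℝ} (hc : 0 < c) :
    Wt (fun t => cexp ((c + t * I) ^ 2) / (c + t * I)) c (fun y => 2 * Real.pi * VV y) := by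
  have hne : ∀ t : ℝ, (c : ℂ) + t * I ≠ 0 := by
    intro t h
    have := congrArg Complex.re h
    simp at this
    linarith
  have hn : ∀ t : ℝ, c ≤ ‖(c : ℂ) + t * I‖ := by
    intro t
    have h1 := Complex.re_le_norm ((c : ℂ) + t * I)
    simpa using h1
  refine ⟨?_, fun y => by have := VV_nonneg y; positivity, fun y => ?_⟩
  · have h1 : Integrable fun v : ℝ => (Real.exp (c ^ 2) / c) * Real.exp (-1 * v ^ 2) :=
      (integrable_exp_neg_mul_sq one_pos).const_mul _
    have hcont : Continuous fun t : ℝ => cexp ((c + t * I) ^ 2) / (c + t * I) :=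
      (by fun_prop : Continuous fun t : ℝ => cexp ((c + t * I) ^ 2)).div (by fun_prop) hne
    refine h1.mono' hcont.aestronglyMeasurable (Eventually.of_forall fun v => ?_)
    have h2 := norm_gk c v 0
    rw [Complex.ofReal_zero, mul_zero, add_zero, mul_zero, add_zero] at h2
    rw [norm_div, h2]
    calc _ ≤ Real.exp (c ^ 2 - v ^ 2) / c :=
          div_le_div_of_nonneg_left (Real.exp_pos _).le hc (hn v)
      _ = Real.exp (c ^ 2) * Real.exp (-1 * v ^ 2) / c := by
          rw [← Real.exp_add]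
          congr 2
          ring
      _ = _ := by ring
  · have h1 := kernel hc y
    have e : ((2 * Real.pi * VV y : ℝ) : ℂ) = 2 * Real.pi * VV y := by push_cast; rfl
    rw [e, ← h1]
    refine integral_congr_ae (Eventually.of_forall fun t => ?_)
    simp only
    rw [← gk_split]
    ring

/-- division by `w` at a zero -/
theorem dsl {G : ℂ → ℂ} (hG : Differentiable ℂ G)
    (hgr : ∀ a b : ℝ, ∃ C A : ℝ, ∀ s : ℂ, a ≤ s.re → s.re ≤ b → ‖G s‖ ≤ C * (1 + |s.im|) ^ A) {s₀ : ℂ}
    (h0 : G s₀ = 0) : ∃ F : ℂ → ℂ, Differentiable ℂ F ∧ (∀ w : ℂ, w ≠ 0 → F w = G (s₀ + w) / w) ∧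
      ∀ a b : ℝ, ∃ C A : ℝ, ∀ s : ℂ, a ≤ s.re → s.re ≤ b → ‖F s‖ ≤ C * (1 + |s.im|) ^ A := by
  set g : ℂ → ℂ := fun w => G (s₀ + w) with hg
  have hgd : Differentiable ℂ g := hG.comp (differentiable_id.const_add _)
  have hF : Differentiable ℂ (dslope g 0) := by
    rw [← differentiableOn_univ, Complex.differentiableOn_dslope Filter.univ_mem]
    exact hgd.differentiableOn
  have hFe : ∀ w : ℂ, w ≠ 0 → dslope g 0 w = G (s₀ + w) / w := by
    intro w hw
    rw [dslope_of_ne _ hw, slope_def_field, sub_zero]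
    have : g 0 = 0 := by simp only [hg, add_zero, h0]
    rw [this, sub_zero]
  refine ⟨dslope g 0, hF, hFe, fun a b => ?_⟩
  obtain ⟨C, A, hC⟩ := hgr (a + s₀.re) (b + s₀.re)
  set S : Set ℂ := Icc a b ×ℂ Icc (-1) 1 with hS
  have hSc : IsCompact S := isCompact_Icc.reProdIm isCompact_Icc
  obtain ⟨B, hB⟩ := hSc.exists_bound_of_continuousOn hF.continuous.continuousOn
  refine ⟨|C| * (1 + |s₀.im|) ^ |A| + |B|, |A|, fun w hw1 hw2 => ?_⟩
  have hp1 : (1 : ℝ) ≤ (1 + |w.im|) ^ |A| := Real.one_le_rpow (by linarith [abs_nonneg w.im]) (abs_nonneg _)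
  by_cases him : |w.im| ≤ 1
  · have hwS : w ∈ S := ⟨⟨hw1, hw2⟩, abs_le.1 him⟩
    have h2 := (hB w hwS).trans (le_abs_self B)
    have h3 : 0 ≤ |C| * (1 + |s₀.im|) ^ |A| := by positivity
    calc _ ≤ |B| * 1 := by linarith
      _ ≤ _ := mul_le_mul (by linarith) hp1 zero_le_one (by positivity)
  · push Not at him
    have hw0 : w ≠ 0 := by
      rintro rfl
      simp at him
      linarith
    have hn1 : 1 ≤ ‖w‖ := him.le.trans (Complex.abs_im_le_norm w)
    rw [hFe w hw0, norm_div]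
    have h1 := hC (s₀ + w) (by rw [Complex.add_re]; linarith) (by rw [Complex.add_re]; linarith)
    have h2 : (1 + |(s₀ + w).im|) ^ A ≤ (1 + |s₀.im|) ^ |A| * (1 + |w.im|) ^ |A| := by
      calc _ ≤ (1 + |(s₀ + w).im|) ^ |A| :=
            Real.rpow_le_rpow_of_exponent_le (by linarith [abs_nonneg (s₀ + w).im]) (le_abs_self A)
        _ ≤ ((1 + |s₀.im|) * (1 + |w.im|)) ^ |A| := by
            refine Real.rpow_le_rpow (by positivity) ?_ (abs_nonneg _)
            rw [Complex.add_im]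
            have h3 := abs_add_le s₀.im w.im
            have h4 := abs_nonneg s₀.im
            have h5 := abs_nonneg w.im
            nlinarith
        _ = _ := Real.mul_rpow (by positivity) (by positivity)
    have h3 : ‖G (s₀ + w)‖ ≤ |C| * ((1 + |s₀.im|) ^ |A| * (1 + |w.im|) ^ |A|) :=
      h1.trans (mul_le_mul (le_abs_self C) h2 (by positivity) (abs_nonneg _))
    calc ‖G (s₀ + w)‖ / ‖w‖ ≤ ‖G (s₀ + w)‖ := div_le_self (norm_nonneg _) hn1
      _ ≤ |C| * ((1 + |s₀.im|) ^ |A| * (1 + |w.im|) ^ |A|) := h3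
      _ = (|C| * (1 + |s₀.im|) ^ |A|) * (1 + |w.im|) ^ |A| := by ring
      _ ≤ _ := mul_le_mul_of_nonneg_right (by linarith [abs_nonneg B]) (by positivity)

theorem LR_mono {α : Nat.Primes → Fin n → ℂ} {μ : Fin n → ℂ} (h : SphericalCuspForm α μ) {σ σ' : ℝ} (hσ : 1 < σ)
    (hσσ' : σ ≤ σ') : LR α σ' ≤ LR α σ := by
  rw [LR_exp, LR_exp]
  refine (LR_summ h (hσ.trans_le hσσ')).tsum_le_tsum (fun x => ?_) (LR_summ h hσ)
  refine mul_le_mul_of_nonneg_left (Real.exp_le_exp.2 ?_) (by positivity)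
  have := mul_le_mul_of_nonneg_right hσσ' (lx_nonneg x)
  linarith

/-- the twisted vectors -/
noncomputable def tw {ι : Type*} (α : ι → Nat.Primes → Fin n → ℂ) (m : ι → ℂ) (x : Nat.Primes × ℕ) (φ : ι) : ℂ :=
  uu (α φ) x * cexp (-(m φ * lx x))

theorem tw_summ {ι : Type*} {α : ι → Nat.Primes → Fin n → ℂ} {μ : ι → Fin n → ℂ}
    (h : ∀ φ, SphericalCuspForm (α φ) (μ φ)) {m : ι → ℂ} {c : ℝ} (hm : ∀ φ, 1 < c + 2 * (m φ).re) (φ : ι) :
    Summable fun x => ‖tw α m x φ‖ ^ 2 * Real.exp (-(c * lx x)) := by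
  refine (uu_summ (h φ) (hm φ)).congr fun x => ?_
  unfold tw
  rw [norm_mul, mul_pow, Complex.norm_exp, ← Real.exp_nat_mul, mul_assoc, ← Real.exp_add]
  congr 2
  rw [Complex.neg_re, Complex.re_mul_ofReal]
  push_cast
  ring

theorem tw_FK {ι : Type*} (α : ι → Nat.Primes → Fin n → ℂ) (m : ι → ℂ) (c : ℝ) (φ φ' : ι) (t : ℝ) :
    FK (tw α m) lx c φ φ' t = logL2 (α φ) (α φ') (m φ + conj (m φ') + (c + t * I)) := by
  unfold FK
  rw [logL2_eq]
  refine tsum_congr fun x => ?_
  unfold tw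
  have e : conj (cexp (-(m φ' * lx x))) = cexp (-(conj (m φ') * lx x)) := by
    rw [← Complex.exp_conj, map_neg, map_mul, Complex.conj_ofReal]
  rw [map_mul, e]
  have e2 : cexp (-((m φ + conj (m φ') + (c + t * I)) * lx x)) =
      cexp (-(m φ * lx x)) * cexp (-(conj (m φ') * lx x)) * cexp (-((c + t * I) * lx x)) := by
    rw [← Complex.exp_add, ← Complex.exp_add]
    congr 1
    ring
  rw [e2]
  ring

end Pool.Agent.E8helper16.RF
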