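import Pool.Agent.E8helper23.DT.Unif
import Pool.Agent.E8helper16.RF.Defs

/-! `log L(1 + η, π × π~) ≤ A + κ log C(π)`. -/

set_option autoImplicit false

namespace Pool.Agent.E8helper16.RF

open Filter Topology Complex
open Pool.Agent.TH949.RES
open Pool.Agent.E8helper23.DT (LR unif)

variable {n : ℕ}

/-- `log (p^k)` -/
noncomputable def lx (x : Nat.Primes × ℕ) : ℝ := ((x.2 : ℝ) + 1) * Real.log ((x.1 : ℕ) : ℝ)

theorem lx_nonneg (x : Nat.Primes × ℕ) : 0 ≤ lx x := by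
  unfold lx
  have h1 : (1 : ℝ) ≤ ((x.1 : ℕ) : ℝ) := by exact_mod_cast x.1.2.one_lt.le
  have := Real.log_nonneg h1
  positivity

theorem exp_lx (x : Nat.Primes × ℕ) (s : ℂ) : cexp (-(s * lx x)) = (((x.1 : ℕ) : ℂ) ^ (-s)) ^ (x.2 + 1) := by
  have hp : ((x.1 : ℕ) : ℂ) ≠ 0 := by exact_mod_cast x.1.2.ne_zero
  rw [Complex.cpow_def_of_ne_zero hp, ← Complex.exp_nat_mul]
  congr 1
  unfold lx
  push_cast

  ring

theorem rexp_lx (x : Nat.Primes × ℕ) (σ : ℝ) : Real.exp (-(σ * lx x)) = (((x.1 : ℕ) : ℝ) ^ (-σ)) ^ (x.2 + 1) := by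
  have hp : (0 : ℝ) < ((x.1 : ℕ) : ℝ) := by exact_mod_cast x.1.2.pos
  rw [Real.rpow_def_of_pos hp, ← Real.exp_nat_mul]
  congr 1
  unfold lx
  push_cast
  ring

theorem summ_lx {t : ℝ} (ht : 1 < t) : Summable fun x : Nat.Primes × ℕ => Real.exp (-(t * lx x)) := by
  have h := summable_one ht
  rw [← pe.summable_iff]
  refine h.congr fun x => ?_
  rfl

theorem exp_pr (p : Nat.Primes) (k : ℕ) : (((p : ℕ) : ℝ) ^ (1 / 2 : ℝ)) ^ (k + 1) = Real.exp (lx (p, k) / 2) := by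
  have hp : (0 : ℝ) < ((p : ℕ) : ℝ) := by exact_mod_cast p.2.pos
  rw [Real.rpow_def_of_pos hp, ← Real.exp_nat_mul]
  congr 1
  unfold lx
  push_cast
  ring

/-- the power sums -/
theorem pw_le {α : Nat.Primes → Fin n → ℂ} (hα : ∀ (p : Nat.Primes) i, ‖α p i‖ < ((p : ℕ) : ℝ) ^ (1 / 2 : ℝ))
    (x : Nat.Primes × ℕ) : ‖∑ i, α x.1 i ^ (x.2 + 1)‖ ≤ n * Real.exp (lx x / 2) := by
  refine (norm_sum_le _ _).trans ?_
  have h : ∀ i ∈ Finset.univ, ‖α x.1 i ^ (x.2 + 1)‖ ≤ Real.exp (lx x / 2) := by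
    intro i _
    rw [norm_pow, ← exp_pr]
    exact pow_le_pow_left₀ (norm_nonneg _) (hα x.1 i).le _
  refine (Finset.sum_le_card_nsmul _ _ _ h).trans (le_of_eq ?_)
  simp

theorem pw_sq_le {α : Nat.Primes → Fin n → ℂ} (hα : ∀ (p : Nat.Primes) i, ‖α p i‖ < ((p : ℕ) : ℝ) ^ (1 / 2 : ℝ))
    (x : Nat.Primes × ℕ) : ‖∑ i, α x.1 i ^ (x.2 + 1)‖ ^ 2 ≤ (n : ℝ) ^ 2 * Real.exp (lx x) := by
  refine (pow_le_pow_left₀ (norm_nonneg _) (pw_le hα x) 2).trans (le_of_eq ?_)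
  rw [mul_pow, ← Real.exp_nat_mul]
  congr 2
  push_cast
  ring

theorem LR_exp (α : Nat.Primes → Fin n → ℂ) (σ : ℝ) : LR α σ = ∑' x : Nat.Primes × ℕ,
    ‖∑ i, α x.1 i ^ (x.2 + 1)‖ ^ 2 / ((x.2 : ℝ) + 1) * Real.exp (-(σ * lx x)) := by
  unfold LR
  exact tsum_congr fun x => by rw [rexp_lx]

theorem LR_summ {α : Nat.Primes → Fin n → ℂ} {μ : Fin n → ℂ} (h : SphericalCuspForm α μ) {σ : ℝ} (hσ : 1 < σ) :
    Summable fun x : Nat.Primes × ℕ => ‖∑ i, α x.1 i ^ (x.2 + 1)‖ ^ 2 / ((x.2 : ℝ) + 1) * Real.exp (-(σ * lx x)) :=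
  (h.summable σ hσ).congr fun x => by rw [rexp_lx]

theorem LR_nonneg (α : Nat.Primes → Fin n → ℂ) (σ : ℝ) : 0 ≤ LR α σ := by
  rw [LR_exp]
  exact tsum_nonneg fun x => by positivity

theorem cond_ge (μ : Fin n → ℂ) : 1 ≤ ∏ i, ∏ j, (1 + ‖μ i - μ j‖) :=
  Finset.one_le_prod fun i _ => Finset.one_le_prod fun j _ => by linarith [norm_nonneg (μ i - μ j)]

theorem unif_eps (hn : 2 ≤ n) {η κ : ℝ} (hη : 0 < η) (hη1 : η ≤ 1) (hκ : 0 < κ) :
    ∃ A : ℝ, 0 < A ∧ ∀ (α : Nat.Primes → Fin n → ℂ) (μ : Fin n → ℂ), SphericalCuspForm α μ →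
      (∀ (p : Nat.Primes) i, ‖α p i‖ < ((p : ℕ) : ℝ) ^ (1 / 2 : ℝ)) → (∀ i, |(μ i).re| < 1 / 2) →
      LR α (1 + η) ≤ A + κ * Real.log (∏ i, ∏ j, (1 + ‖μ i - μ j‖)) := by
  obtain ⟨A0, hA0, hA⟩ := unif hn (σ := 1 + η / 2) (by linarith) (by linarith)
  -- the cut
  set L : ℝ := max 0 (2 / η * Real.log (3 / κ)) with hL
  have hL0 : 0 ≤ L := le_max_left _ _
  have hLe : Real.exp (-(η / 2 * L)) * 3 ≤ κ := by
    have h1 : Real.log (3 / κ) ≤ η / 2 * L := by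
      have h2 : 2 / η * Real.log (3 / κ) ≤ L := le_max_right _ _
      have h3 := mul_le_mul_of_nonneg_left h2 (by positivity : 0 ≤ η / 2)
      have h4 : η / 2 * (2 / η * Real.log (3 / κ)) = Real.log (3 / κ) := by field_simp
      linarith
    have h2 : Real.exp (-(η / 2 * L)) ≤ Real.exp (-(Real.log (3 / κ))) := Real.exp_le_exp.2 (by linarith)
    rw [Real.exp_neg (Real.log _), Real.exp_log (by positivity)] at h2
    calc Real.exp (-(η / 2 * L)) * 3 ≤ (3 / κ)⁻¹ * 3 := by linarith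
      _ = κ := by field_simp
  have hE1 : Real.exp (-(η / 2 * L)) ≤ 1 := Real.exp_le_one_iff.2 (by
    have : 0 ≤ η / 2 * L := by positivity
    linarith)
  set Z : ℝ := ∑' x : Nat.Primes × ℕ, Real.exp (-(2 * lx x)) with hZ
  have hZs := summ_lx (t := 2) (by norm_num)
  have hZ0 : 0 ≤ Z := tsum_nonneg fun x => (Real.exp_pos _).le
  refine ⟨A0 + (n : ℝ) ^ 2 * Real.exp (2 * L) * Z + 1, by positivity, fun α μ h hα hμ => ?_⟩
  have hA' := hA α μ h hα hμ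
  have hs1 := LR_summ h (σ := 1 + η / 2) (by linarith)
  have hs := LR_summ h (σ := 1 + η) (by linarith)
  have hterm : ∀ x : Nat.Primes × ℕ, ‖∑ i, α x.1 i ^ (x.2 + 1)‖ ^ 2 / ((x.2 : ℝ) + 1) * Real.exp (-((1 + η) * lx x)) ≤
      Real.exp (-(η / 2 * L)) * (‖∑ i, α x.1 i ^ (x.2 + 1)‖ ^ 2 / ((x.2 : ℝ) + 1) *
        Real.exp (-((1 + η / 2) * lx x))) + (n : ℝ) ^ 2 * Real.exp (2 * L) * Real.exp (-(2 * lx x)) := by
    intro x
    have hx2 : (1 : ℝ) ≤ (x.2 : ℝ) + 1 := by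
      have : (0 : ℝ) ≤ x.2 := Nat.cast_nonneg _
      linarith
    have hd : ‖∑ i, α x.1 i ^ (x.2 + 1)‖ ^ 2 / ((x.2 : ℝ) + 1) ≤ (n : ℝ) ^ 2 * Real.exp (lx x) :=
      (div_le_self (sq_nonneg _) hx2).trans (pw_sq_le hα x)
    have hd0 : 0 ≤ ‖∑ i, α x.1 i ^ (x.2 + 1)‖ ^ 2 / ((x.2 : ℝ) + 1) := by positivity
    rcases le_or_gt (lx x) L with h1 | h1
    · have h2 : ‖∑ i, α x.1 i ^ (x.2 + 1)‖ ^ 2 / ((x.2 : ℝ) + 1) * Real.exp (-((1 + η) * lx x)) ≤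
          (n : ℝ) ^ 2 * Real.exp (2 * L) * Real.exp (-(2 * lx x)) := by
        calc _ ≤ (n : ℝ) ^ 2 * Real.exp (lx x) * Real.exp (-((1 + η) * lx x)) :=
              mul_le_mul_of_nonneg_right hd (Real.exp_pos _).le
          _ = (n : ℝ) ^ 2 * Real.exp (-(η * lx x)) := by
              rw [mul_assoc, ← Real.exp_add]
              congr 2
              ring
          _ ≤ (n : ℝ) ^ 2 * Real.exp (2 * L - 2 * lx x) := by
              refine mul_le_mul_of_nonneg_left (Real.exp_le_exp.2 ?_) (sq_nonneg _)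
              have := lx_nonneg x
              nlinarith
          _ = _ := by
              rw [mul_assoc, ← Real.exp_add]
              congr 2
      have h3 : 0 ≤ Real.exp (-(η / 2 * L)) * (‖∑ i, α x.1 i ^ (x.2 + 1)‖ ^ 2 / ((x.2 : ℝ) + 1) *
        Real.exp (-((1 + η / 2) * lx x))) := by positivity
      linarith
    · have h2 : ‖∑ i, α x.1 i ^ (x.2 + 1)‖ ^ 2 / ((x.2 : ℝ) + 1) * Real.exp (-((1 + η) * lx x)) ≤
          Real.exp (-(η / 2 * L)) * (‖∑ i, α x.1 i ^ (x.2 + 1)‖ ^ 2 / ((x.2 : ℝ) + 1) *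
            Real.exp (-((1 + η / 2) * lx x))) := by
        rw [mul_left_comm, ← Real.exp_add]
        refine mul_le_mul_of_nonneg_left (Real.exp_le_exp.2 ?_) hd0
        nlinarith
      have h3 : 0 ≤ (n : ℝ) ^ 2 * Real.exp (2 * L) * Real.exp (-(2 * lx x)) := by positivity
      linarith
  have h1 : LR α (1 + η) ≤ Real.exp (-(η / 2 * L)) * LR α (1 + η / 2) +
      (n : ℝ) ^ 2 * Real.exp (2 * L) * Z := by
    rw [LR_exp, LR_exp, hZ, ← tsum_mul_left, ← tsum_mul_left, ← (hs1.mul_left _).tsum_add (hZs.mul_left _)]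
    exact hs.tsum_le_tsum hterm ((hs1.mul_left _).add (hZs.mul_left _))
  have hC := Real.log_nonneg (cond_ge μ)
  have h2 : Real.exp (-(η / 2 * L)) * LR α (1 + η / 2) ≤ A0 + κ * Real.log (∏ i, ∏ j, (1 + ‖μ i - μ j‖)) := by
    refine (mul_le_mul_of_nonneg_left hA' (Real.exp_pos _).le).trans ?_
    rw [mul_add, ← mul_assoc]
    exact add_le_add (mul_le_of_le_one_left hA0.le hE1) (mul_le_mul_of_nonneg_right hLe hC)
  linarith

end Pool.Agent.E8helper16.RF
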